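import Pool.Agent.Helper11.FE.Defs

/-! Project FE, file BASIC (proved): algebra of the cocycle, constants, derivative of the iterates.
Port of `UC/Basic.lean` and `UC/FD.lean`. -/

set_option autoImplicit false
open MeasureTheory Real Set

namespace Pool.Agent.Helper11.FE

open Pool.Agent.Helper18.UC (T2 rep toT nn clm sh sqo pt lab cor idx cell corner nn_nonneg nn_mul
  nn_sub_le nn_add_le abs_entry_le nn_one clm_apply norm_clm_le nn_le_clm)

variable {S : Sys} {B : ℝ}

theorem F_cont (h : Half S B) : Continuous S.F :=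
  continuous_iff_continuousAt.2 fun q => (h.deriv q).continuousAt

theorem iter_sh (h : Half S B) (n : ℕ) (q : ℝ × ℝ) (k l : ℤ) :
    S.F^[n] (sh q k l) = sh (S.F^[n] q) (k + n * (k - l)) (l + n * (k - l)) := by
  induction n with
  | zero => simp
  | succ n ih =>
    rw [Function.iterate_succ_apply', ih, h.per, Function.iterate_succ_apply']
    congr 1
    · push_cast
      ring
    · push_cast
      ring

theorem M_sh (h : Half S B) (n : ℕ) (q : ℝ × ℝ) (k l : ℤ) : S.M n (sh q k l) = S.M n q := by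
  induction n with
  | zero => rw [M_zero, M_zero]
  | succ n ih => rw [M_succ, M_succ, ih, iter_sh h, h.perA]

theorem M_add (S : Sys) (n m : ℕ) (q : ℝ × ℝ) :
    S.M (n + m) q = S.M m (S.F^[n] q) * S.M n q := by
  induction m with
  | zero => rw [add_zero, M_zero, one_mul]
  | succ m ih =>
    rw [← add_assoc, M_succ, ih, M_succ, mul_assoc, ← Function.iterate_add_apply, add_comm m n]

theorem det_M (h : Half S B) (n : ℕ) (q : ℝ × ℝ) : (S.M n q).det = 1 := by
  induction n with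
  | zero => rw [M_zero, Matrix.det_one]
  | succ n ih => rw [M_succ, Matrix.det_mul, h.det, ih, one_mul]

theorem F_rev (h : S.Ok B) (n : ℕ) (q : ℝ × ℝ) : S.F^[n] (Prod.swap (S.G^[n] q)) = Prod.swap q := by
  induction n with
  | zero => rfl
  | succ n ih =>
    rw [Function.iterate_succ_apply' S.G n q, Function.iterate_succ_apply, h.FG, ih]

theorem G_rev (h : S.Ok B) (n : ℕ) (q : ℝ × ℝ) : S.G^[n] (Prod.swap (S.F^[n] q)) = Prod.swap q := by
  induction n with
  | zero => rfl
  | succ n ih =>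
    rw [Function.iterate_succ_apply' S.F n q, Function.iterate_succ_apply, h.GF, ih]

theorem M_rev (h : S.Ok B) (n : ℕ) (q : ℝ × ℝ) :
    S.rev.M n (Prod.swap (S.F^[n] q)) * !![0, 1; 1, 0] * S.M n q = !![0, 1; 1, 0] := by
  induction n with
  | zero => simp [M_zero]
  | succ n ih =>
    have h1 := M_add S.rev 1 n (Prod.swap (S.F^[n + 1] q))
    rw [add_comm 1 n] at h1
    have e1 : S.rev.F^[1] (Prod.swap (S.F^[n + 1] q)) = Prod.swap (S.F^[n] q) := by
      rw [Function.iterate_one, Function.iterate_succ_apply']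
      exact h.GF _
    have e2 : S.rev.M 1 (Prod.swap (S.F^[n + 1] q)) = S.A' (Prod.swap (S.F (S.F^[n] q))) := by
      rw [M_succ, M_zero, mul_one, Function.iterate_zero, id, Function.iterate_succ_apply']
      rfl
    rw [h1, M_succ S n q, e1, e2]
    have h2 := h.rev (S.F^[n] q)
    calc S.rev.M n (Prod.swap (S.F^[n] q)) * S.A' (Prod.swap (S.F (S.F^[n] q))) * !![0, 1; 1, 0] *
          (S.A (S.F^[n] q) * S.M n q)
        = S.rev.M n (Prod.swap (S.F^[n] q)) * (S.A' (Prod.swap (S.F (S.F^[n] q))) *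
          !![0, 1; 1, 0] * S.A (S.F^[n] q)) * S.M n q := by
          simp only [mul_assoc]
      _ = !![0, 1; 1, 0] := by rw [h2, ih]

theorem nn_rev (h : S.Ok B) (n : ℕ) (q : ℝ × ℝ) :
    nn (S.rev.M n (Prod.swap (S.F^[n] q))) = nn (S.M n q) := by
  have h1 := M_rev h n q
  have h2 := det_M h.fwd n q
  set X := S.rev.M n (Prod.swap (S.F^[n] q))
  set Y := S.M n q
  have h3 : X * !![0, 1; 1, 0] = !![0, 1; 1, 0] * Y.adjugate := by
    calc X * !![0, 1; 1, 0] = X * !![0, 1; 1, 0] * (Y * Y.adjugate) := by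
          rw [Matrix.mul_adjugate, h2, one_smul, mul_one]
      _ = (X * !![0, 1; 1, 0] * Y) * Y.adjugate := by rw [mul_assoc (X * !![0, 1; 1, 0]) Y]
      _ = !![0, 1; 1, 0] * Y.adjugate := by rw [h1]
  rw [Matrix.adjugate_fin_two] at h3
  have e00 := congrFun (congrFun h3 0) 0
  have e01 := congrFun (congrFun h3 0) 1
  have e10 := congrFun (congrFun h3 1) 0
  have e11 := congrFun (congrFun h3 1) 1
  simp [Matrix.mul_apply, Fin.sum_univ_two] at e00 e01 e10 e11
  unfold nn
  rw [e00, e01, e10, e11, abs_neg, abs_neg]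
  ring

/-- the matrix of the reversed cocycle at the reflected end point, in the form used in MeasUp -/
theorem M_rev_entries (h : S.Ok B) (n : ℕ) (q : ℝ × ℝ) :
    S.M n q 0 0 = S.rev.M n (Prod.swap (S.F^[n] q)) 0 0 ∧
    S.M n q 0 1 = -S.rev.M n (Prod.swap (S.F^[n] q)) 1 0 ∧
    S.M n q 1 0 = -S.rev.M n (Prod.swap (S.F^[n] q)) 0 1 ∧
    S.M n q 1 1 = S.rev.M n (Prod.swap (S.F^[n] q)) 1 1 := by
  have hrev := M_rev h n q
  have hdet := det_M h.bwd n (Prod.swap (S.F^[n] q))
  set P := S.rev.M n (Prod.swap (S.F^[n] q)) with hP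
  set Z := S.M n q with hZ
  rw [Matrix.det_fin_two] at hdet
  have e00 := congrFun (congrFun hrev 0) 0
  have e01 := congrFun (congrFun hrev 0) 1
  have e10 := congrFun (congrFun hrev 1) 0
  have e11 := congrFun (congrFun hrev 1) 1
  simp [Matrix.mul_apply, Fin.sum_univ_two] at e00 e01 e10 e11
  refine ⟨?_, ?_, ?_, ?_⟩
  · linear_combination (-(Z 0 0)) * hdet + P 0 0 * e10 - P 1 0 * e00
  · linear_combination (-(Z 0 1)) * hdet + P 0 0 * e11 - P 1 0 * e01
  · linear_combination (-(Z 1 0)) * hdet + P 1 1 * e00 - P 0 1 * e10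
  · linear_combination (-(Z 1 1)) * hdet + P 1 1 * e01 - P 0 1 * e11

theorem nn_succ_le (h : Half S B) (n : ℕ) (q : ℝ × ℝ) : nn (S.M (n + 1) q) ≤ S.L * nn (S.M n q) := by
  rw [M_succ]
  exact (nn_mul _ _).trans (mul_le_mul_of_nonneg_right (h.bd _) (nn_nonneg _))

theorem nn_le_succ (h : Half S B) (n : ℕ) (q : ℝ × ℝ) : nn (S.M n q) ≤ S.L * nn (S.M (n + 1) q) := by
  set D := S.A (S.F^[n] q) with hD
  have h1 : S.M n q = D.adjugate * S.M (n + 1) q := by
    rw [M_succ, ← hD, ← mul_assoc, Matrix.adjugate_mul, hD, h.det, one_smul, one_mul]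
  have h2 : nn D.adjugate ≤ S.L := by
    refine le_trans (le_of_eq ?_) (h.bd (S.F^[n] q))
    rw [← hD, Matrix.adjugate_fin_two]
    unfold nn
    simp
    ring
  conv_lhs => rw [h1]
  exact (nn_mul _ _).trans (mul_le_mul_of_nonneg_right h2 (nn_nonneg _))

theorem two_le_nn (h : Half S B) (n : ℕ) (q : ℝ × ℝ) : 2 ≤ nn (S.M n q) := by
  have h := det_M h n q
  rw [Matrix.det_fin_two] at h
  unfold nn
  generalize S.M n q 0 0 = x at *
  generalize S.M n q 0 1 = y at *
  generalize S.M n q 1 0 = z at *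
  generalize S.M n q 1 1 = w at *
  have h1 : 1 ≤ |x| * |w| + |y| * |z| := by
    have h2 := abs_sub (x * w) (y * z)
    rw [h, abs_one, abs_mul, abs_mul] at h2
    exact h2
  have hx := abs_nonneg x
  have hy := abs_nonneg y
  have hz := abs_nonneg z
  have hw := abs_nonneg w
  by_contra hcon
  rw [not_le] at hcon
  nlinarith [sq_nonneg (|x| - |w|), sq_nonneg (|y| - |z|), mul_nonneg hx hy, mul_nonneg hx hz,
    mul_nonneg hw hy, mul_nonneg hw hz]

theorem M_entry_cont (h : Half S B) (n : ℕ) (i j : Fin 2) :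
    Continuous (fun q : ℝ × ℝ => S.M n q i j) := by
  induction n generalizing i j with
  | zero =>
    simp only [M_zero]
    exact continuous_const
  | succ n ih =>
    simp only [M_succ, Matrix.mul_apply, Fin.sum_univ_two]
    have hA : ∀ i k : Fin 2, Continuous (fun q : ℝ × ℝ => S.A (S.F^[n] q) i k) := fun i k =>
      (h.cont i k).comp ((F_cont h).iterate n)
    exact ((hA i 0).mul (ih 0 j)).add ((hA i 1).mul (ih 1 j))

theorem nn_cont (h : Half S B) (n : ℕ) : Continuous (fun q : ℝ × ℝ => nn (S.M n q)) := by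
  unfold nn
  exact (((M_entry_cont h n 0 0).abs.add (M_entry_cont h n 0 1).abs).add
    (M_entry_cont h n 1 0).abs).add (M_entry_cont h n 1 1).abs

/-! ### constants -/

theorem L_pos (h : Half S B) : 0 < S.L := by
  have h1 := h.bd 0
  have h2 := two_le_nn h 1 0
  rw [M_succ, M_zero, mul_one] at h2
  have h3 : nn (S.A (S.F^[0] 0)) ≤ S.L := h.bd _
  linarith

theorem base_pos (h : Half S B) : 0 < 32 * B ^ 2 * S.L := by
  have h1 := L_pos h
  have h2 := h.hB
  positivity

theorem KK_pos (h : Half S B) : 0 < S.KK B := Real.rpow_pos_of_pos (base_pos h) _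

/-- `KK ^ (1 + s) = 32 B² L` -/
theorem KK_rpow (h : Half S B) : S.KK B * S.KK B ^ S.s = 32 * B ^ 2 * S.L := by
  have h1 := h.s0
  have h2 := KK_pos h
  conv_lhs => rw [← Real.rpow_one (S.KK B)]
  rw [Real.rpow_one, ← Real.rpow_one_add' h2.le (by linarith)]
  unfold Sys.KK
  rw [← Real.rpow_mul (base_pos h).le, one_div, inv_mul_cancel₀ (by linarith), Real.rpow_one]

theorem L_ge (h : Half S B) : 64 * B ^ 2 ≤ S.L := by
  have hB := h.hB
  have hL := L_pos h
  have h0 := h.s0
  have h1 := h.s1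
  have hK := KK_pos h
  have hb : 0 < 32 * B ^ 2 * S.L := base_pos h
  -- first `L ≥ 1`
  have hL1 : 1 ≤ S.L := by
    have h3 := two_le_nn h 1 0
    rw [M_succ, M_zero, mul_one] at h3
    have h4 : nn (S.A (S.F^[0] 0)) ≤ S.L := h.bd _
    linarith
  have hp : (1:ℝ) ≤ 1 + S.s := by linarith
  -- `(2 K) ^ (1+s) ≤ L ^ (1+s)`
  have h2 : (2 * S.KK B) ^ (1 + S.s) ≤ S.L ^ (1 + S.s) :=
    Real.rpow_le_rpow (by positivity) h.hK (by linarith)
  have h3 : (2:ℝ) ≤ 2 ^ (1 + S.s) := by
    calc (2:ℝ) = 2 ^ (1:ℝ) := (Real.rpow_one 2).symm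
      _ ≤ 2 ^ (1 + S.s) := Real.rpow_le_rpow_of_exponent_le (by norm_num) (by linarith)
  have h4 : (2 * S.KK B) ^ (1 + S.s) = 2 ^ (1 + S.s) * (32 * B ^ 2 * S.L) := by
    rw [Real.mul_rpow (by norm_num) hK.le]
    congr 1
    rw [Real.rpow_one_add' hK.le (by linarith)]
    exact KK_rpow h
  have h5 : S.L ^ (1 + S.s) = S.L * S.L ^ S.s := Real.rpow_one_add' hL.le (by linarith)
  have h6 : S.L ^ S.s ≤ S.L := by
    calc S.L ^ S.s ≤ S.L ^ (1:ℝ) := Real.rpow_le_rpow_of_exponent_le hL1 h1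
      _ = S.L := Real.rpow_one _
  rw [h4, h5] at h2
  have h7 : 2 * (32 * B ^ 2 * S.L) ≤ S.L * S.L ^ S.s :=
    (mul_le_mul_of_nonneg_right h3 hb.le).trans h2
  have h8 : 64 * B ^ 2 * S.L ≤ S.L * S.L := by
    have := mul_le_mul_of_nonneg_left h6 hL.le
    linarith
  exact le_of_mul_le_mul_right h8 hL

theorem L_ge4 (h : Half S B) : 4 ≤ S.L := by
  have h1 := L_ge h
  have h2 := h.hB
  nlinarith

/-- `K ≥ 4000 B` -/
theorem KK_ge (h : Half S B) : 4000 * B ≤ S.KK B := by
  have hB := h.hB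
  have h1 := L_ge h
  have hb : (4000 * B) ^ 2 ≤ 32 * B ^ 2 * S.L := by
    have h3 : 640000 ≤ S.L := by nlinarith
    nlinarith [sq_nonneg B]
  have hb1 : 1 ≤ 32 * B ^ 2 * S.L := by nlinarith [sq_nonneg B]
  have h4 : (32 * B ^ 2 * S.L) ^ (1 / 2 : ℝ) ≤ S.KK B := by
    unfold Sys.KK
    refine Real.rpow_le_rpow_of_exponent_le hb1 ?_
    have := h.s0
    have := h.s1
    rw [div_le_div_iff₀ (by norm_num) (by linarith)]
    linarith
  refine le_trans ?_ h4
  rw [← Real.sqrt_eq_rpow]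
  exact Real.le_sqrt_of_sq_le hb

theorem KK_ge1 (h : Half S B) : 1 ≤ S.KK B := by
  have h1 := KK_ge h
  have h2 := h.hB
  linarith

/-! ### derivatives -/

private theorem clm_one11 : clm 1 = ContinuousLinearMap.id ℝ (ℝ × ℝ) := by
  refine ContinuousLinearMap.ext fun v => ?_
  rw [clm_apply]
  simp

private theorem clm_mul11 (C D : Matrix (Fin 2) (Fin 2) ℝ) : clm (C * D) = (clm C).comp (clm D) := by
  refine ContinuousLinearMap.ext fun v => ?_
  rw [ContinuousLinearMap.comp_apply, clm_apply, clm_apply, clm_apply]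
  refine Prod.ext ?_ ?_
  · simp only [Matrix.mul_apply, Fin.sum_univ_two]
    ring
  · simp only [Matrix.mul_apply, Fin.sum_univ_two]
    ring

theorem hasFDerivAt_iter (h : Half S B) (n : ℕ) (q : ℝ × ℝ) :
    HasFDerivAt (S.F^[n]) (clm (S.M n q)) q := by
  induction n with
  | zero =>
    rw [M_zero, clm_one11]
    exact hasFDerivAt_id q
  | succ n ih =>
    rw [M_succ, clm_mul11, Function.iterate_succ']
    exact (h.deriv (S.F^[n] q)).comp q ih

theorem iter_dist_le (h : Half S B) (n : ℕ) {s : Set (ℝ × ℝ)} (hs : Convex ℝ s) {C : ℝ}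
    (hC : ∀ q ∈ s, nn (S.M n q) ≤ C) {p q : ℝ × ℝ} (hp : p ∈ s) (hq : q ∈ s) :
    dist (S.F^[n] q) (S.F^[n] p) ≤ C * dist q p := by
  rw [dist_eq_norm, dist_eq_norm]
  exact hs.norm_image_sub_le_of_norm_hasFDerivWithin_le
    (f' := fun x => clm (S.M n x))
    (fun x _ => (hasFDerivAt_iter h n x).hasFDerivWithinAt)
    (fun x hx => (norm_clm_le _).trans (hC x hx)) hp hq

end Pool.Agent.Helper11.FE
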