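import Pool.Agent.Helper11.FE.Basic
import Pool.Agent.Helper18.UC.Pliss
import Pool.Agent.Helper18.UC.Cell

/-! Block FE-SEL: a large time that is hyperbolic for a large set of points. Port of `UC/Sel.lean` (same proof: `pliss` with `g i = log (nn (S.M i (rep z)))`,
`A = log S.L`, `c1 = log (S.KK B)`; `h.hK : 2 * S.KK B ≤ S.L` replaces `hLK`). `nn_cont` is in Basic. -/

set_option autoImplicit false
open MeasureTheory Real Set

namespace Pool.Agent.Helper11.FE

open Pool.Agent.Helper18.UC (T2 rep toT nn clm sh sqo pt lab cor idx cell corner nn_nonneg nn_mul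
  nn_sub_le nn_add_le abs_entry_le nn_one clm_apply norm_clm_le nn_le_clm)

variable {S : Sys} {B : ℝ}

private lemma h75_meas_nn (h : Half S B) (n : ℕ) : Measurable (fun z : T2 => nn (S.M n (rep z))) :=
  (nn_cont h n).measurable.comp Pool.Agent.Helper18.UC.measurable_rep

theorem measurableSet_PN (h : Half S B) (c : ℝ) (N : ℕ) : MeasurableSet (PN S c N) :=
  measurableSet_le measurable_const (h75_meas_nn h N)

theorem measurableSet_HG (h : Half S B) (n : ℕ) : MeasurableSet (HG S B n) := by
  have e : HG S B n = ⋂ i : ℕ, ⋂ _ : i ≤ n,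
      {z : T2 | S.KK B ^ (n - i) * nn (S.M i (rep z)) ≤ nn (S.M n (rep z))} := by
    ext z
    constructor
    · intro hz
      rw [mem_iInter]
      intro i
      rw [mem_iInter]
      intro hi
      exact hz i hi
    · intro hz i hi
      exact mem_iInter.1 (mem_iInter.1 hz i) hi
  rw [e]
  refine MeasurableSet.iInter fun i => MeasurableSet.iInter fun _ => ?_
  exact measurableSet_le ((h75_meas_nn h i).const_mul _) (h75_meas_nn h n)

private lemma h75_nn_pos (hS : Half S B) (n : ℕ) (q : ℝ × ℝ) : 0 < nn (S.M n q) :=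
  lt_of_lt_of_le (by norm_num) (two_le_nn hS n q)

/-- many hyperbolic times of a point -/
private lemma h75_count (hS : Half S B) {c : ℝ} {N : ℕ} (q : ℝ × ℝ)
    (hq : Real.exp (c * N) ≤ nn (S.M N q)) [DecidablePred fun n => Hyp S B n q] :
    (c - Real.log (S.KK B)) / (Real.log (S.L) - Real.log (S.KK B)) * N - 1 ≤
      (((Finset.Icc 1 N).filter (fun n : ℕ => Hyp S B n q)).card : ℝ) := by
  classical
  have hK : 0 < S.KK B := KK_pos hS
  have hL : 0 < S.L := L_pos hS
  have hlog : Real.log 2 + Real.log (S.KK B) ≤ Real.log (S.L) := by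
    rw [← Real.log_mul (by norm_num) hK.ne']
    exact Real.log_le_log (by positivity) hS.hK
  have hl2 : 0 < Real.log 2 := Real.log_pos (by norm_num)
  have hA : Real.log (S.KK B) < Real.log (S.L) := by linarith
  have h := Pool.Agent.Helper18.UC.pliss (g := fun i => Real.log (nn (S.M i q))) (c := c) (c1 := Real.log (S.KK B))
    (A := Real.log (S.L)) hA (fun i => by
      have h1 := nn_succ_le hS i q
      have h2 := Real.log_le_log (h75_nn_pos hS (i + 1) q) h1
      rw [Real.log_mul hL.ne' (h75_nn_pos hS i q).ne'] at h2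
      linarith) (N := N) (by
      rw [← Real.log_exp (c * N)]
      exact Real.log_le_log (Real.exp_pos _) hq)
  have h0 : Real.log (nn (S.M 0 q)) / (Real.log (S.L) - Real.log (S.KK B)) ≤ 1 := by
    rw [M_zero, nn_one, div_le_one (by linarith)]
    linarith
  have hsub : (Finset.Icc 1 N).filter (fun n : ℕ => ∀ i : ℕ, i ≤ n →
      Real.log (S.KK B) * ((n : ℝ) - (i : ℝ)) ≤ Real.log (nn (S.M n q)) - Real.log (nn (S.M i q))) ⊆
      (Finset.Icc 1 N).filter (fun n : ℕ => Hyp S B n q) := by
    intro n hn
    rw [Finset.mem_filter] at hn ⊢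
    refine ⟨hn.1, ?_⟩
    intro i hi
    have h1 := hn.2 i hi
    have h2 : S.KK B ^ (n - i) * nn (S.M i q) =
        Real.exp (Real.log (S.KK B) * ((n : ℝ) - (i : ℝ)) + Real.log (nn (S.M i q))) := by
      rw [Real.exp_add, Real.exp_log (h75_nn_pos hS i q)]
      congr 1
      rw [← Nat.cast_sub hi, mul_comm, ← Real.log_pow, Real.exp_log (pow_pos hK _)]
    rw [h2]
    calc Real.exp (Real.log (S.KK B) * ((n : ℝ) - (i : ℝ)) + Real.log (nn (S.M i q)))
        ≤ Real.exp (Real.log (nn (S.M n q))) := Real.exp_le_exp.2 (by linarith)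
      _ = nn (S.M n q) := Real.exp_log (h75_nn_pos hS n q)
  have hc : ((((Finset.Icc 1 N).filter (fun n : ℕ => ∀ i : ℕ, i ≤ n →
      Real.log (S.KK B) * ((n : ℝ) - (i : ℝ)) ≤
        Real.log (nn (S.M n q)) - Real.log (nn (S.M i q)))).card : ℕ) : ℝ) ≤
      (((Finset.Icc 1 N).filter (fun n : ℕ => Hyp S B n q)).card : ℝ) := by
    exact_mod_cast Finset.card_le_card hsub
  linarith

private lemma h75_prob : IsProbabilityMeasure (volume : Measure T2) := by
  have : IsProbabilityMeasure (volume : Measure UnitAddCircle) :=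
    ⟨by simp [AddCircle.measure_univ]⟩
  change IsProbabilityMeasure ((volume : Measure UnitAddCircle).prod volume)
  infer_instance

theorem select (h : Half S B) {c : ℝ} (hc : Real.log (S.KK B) ≤ c)
    (hc2 : c ≤ Real.log S.L) {W : Set T2} (hW : MeasurableSet W) {N : ℕ} (hN : 1 ≤ N) (n0 : ℕ) :
    ∃ n, n0 < n ∧
      (c - Real.log (S.KK B)) / (Real.log S.L - Real.log (S.KK B)) * volume.real (W ∩ PN S c N) -
        (n0 + 1) / N ≤ volume.real (W ∩ HG S B n) := by
  have hS := h
  classical
  have := h75_prob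
  set θ := (c - Real.log (S.KK B)) / (Real.log (S.L) - Real.log (S.KK B)) with hθ
  have hK : 0 < S.KK B := KK_pos hS
  have hlog : Real.log 2 + Real.log (S.KK B) ≤ Real.log (S.L) := by
    rw [← Real.log_mul (by norm_num) hK.ne']
    exact Real.log_le_log (by positivity) hS.hK
  have hl2 : 0 < Real.log 2 := Real.log_pos (by norm_num)
  have hθ1 : θ ≤ 1 := by
    rw [hθ, div_le_one (by linarith)]
    linarith
  have hθ0 : 0 ≤ θ := div_nonneg (by linarith) (by linarith)
  have hNR : (0 : ℝ) < N := by exact_mod_cast hN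
  set P := W ∩ PN S c N with hP
  have hPm : MeasurableSet P := hW.inter (measurableSet_PN hS c N)
  have hHm : ∀ n, MeasurableSet (W ∩ HG S B n) := fun n => hW.inter (measurableSet_HG hS n)
  have hP1 : volume.real P ≤ 1 := measureReal_le_one
  have hP0 : 0 ≤ volume.real P := measureReal_nonneg
  -- integrated count
  have hint : (θ * N - 1) * volume.real P ≤ ∑ n ∈ Finset.Icc 1 N, volume.real (W ∩ HG S B n) := by
    have e1 : (θ * N - 1) * volume.real P = ∫ z, (θ * N - 1) * P.indicator (fun _ => (1 : ℝ)) z := by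
      rw [integral_const_mul, integral_indicator hPm]
      simp
    have e2 : ∑ n ∈ Finset.Icc 1 N, volume.real (W ∩ HG S B n) =
        ∫ z, ∑ n ∈ Finset.Icc 1 N, (W ∩ HG S B n).indicator (fun _ => (1 : ℝ)) z := by
      rw [integral_finsetSum]
      · refine Finset.sum_congr rfl fun n _ => ?_
        rw [integral_indicator (hHm n)]
        simp
      · intro n _
        exact (integrable_const (1 : ℝ)).indicator (hHm n)
    rw [e1, e2]
    refine integral_mono (((integrable_const (1 : ℝ)).indicator hPm).const_mul _)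
      (integrable_finsetSum _ fun n _ => (integrable_const (1 : ℝ)).indicator (hHm n)) ?_
    intro z
    by_cases hz : z ∈ P
    · have h1 := h75_count hS (c := c) (N := N) (rep z) hz.2
      have h2 : ∑ n ∈ Finset.Icc 1 N, (W ∩ HG S B n).indicator (fun _ => (1 : ℝ)) z =
          (((Finset.Icc 1 N).filter (fun n : ℕ => Hyp S B n (rep z))).card : ℝ) := by
        rw [Finset.card_filter]
        push_cast
        refine Finset.sum_congr rfl fun n _ => ?_
        by_cases hn : Hyp S B n (rep z)
        · rw [if_pos hn, indicator_of_mem]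
          exact ⟨hz.1, hn⟩
        · rw [if_neg hn, indicator_of_notMem]
          intro h
          exact hn h.2
      simp only [h2, indicator_of_mem hz, mul_one]
      exact h1
    · simp only [indicator_of_notMem hz, mul_zero]
      exact Finset.sum_nonneg fun n _ => indicator_nonneg (fun _ _ => zero_le_one) z
  by_contra hcon
  push Not at hcon
  set b := θ * volume.real P - (n0 + 1) / N with hb
  have hb0 : 0 < b := lt_of_le_of_lt measureReal_nonneg (hcon (n0 + 1) (Nat.lt_succ_self _))
  have hNn : n0 < N := by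
    by_contra hle
    push Not at hle
    have h1 : (N : ℝ) ≤ n0 := by exact_mod_cast hle
    have h2 : 1 ≤ ((n0 : ℝ) + 1) / N := by
      rw [le_div_iff₀ hNR]
      linarith
    have h3 : θ * volume.real P ≤ 1 := by nlinarith
    linarith
  have hlt : ∑ n ∈ Finset.Icc 1 N, volume.real (W ∩ HG S B n) <
      ∑ n ∈ Finset.Icc 1 N, ((if n ≤ n0 then (1 : ℝ) else 0) + b) := by
    apply Finset.sum_lt_sum
    · intro n _
      split_ifs with h
      · have : volume.real (W ∩ HG S B n) ≤ 1 := measureReal_le_one
        linarith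
      · have := hcon n (not_le.1 h)
        linarith
    · refine ⟨N, Finset.mem_Icc.2 ⟨hN, le_rfl⟩, ?_⟩
      rw [if_neg (by omega)]
      have := hcon N hNn
      linarith
  have hsum : ∑ n ∈ Finset.Icc 1 N, ((if n ≤ n0 then (1 : ℝ) else 0) + b) ≤ n0 + N * b := by
    rw [Finset.sum_add_distrib, Finset.sum_const, Nat.card_Icc, nsmul_eq_mul]
    have h1 : ∑ n ∈ Finset.Icc 1 N, (if n ≤ n0 then (1 : ℝ) else 0) ≤ n0 := by
      rw [← Finset.sum_filter, Finset.sum_const, nsmul_eq_mul, mul_one]
      have h2 : ((Finset.Icc 1 N).filter (fun n => n ≤ n0)).card ≤ n0 := by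
        have h3 : (Finset.Icc 1 N).filter (fun n => n ≤ n0) ⊆ Finset.Icc 1 n0 := by
          intro n hn
          rw [Finset.mem_filter, Finset.mem_Icc] at hn
          exact Finset.mem_Icc.2 ⟨hn.1.1, hn.2⟩
        have := Finset.card_le_card h3
        rw [Nat.card_Icc] at this
        omega
      exact_mod_cast h2
    have h4 : ((N + 1 - 1 : ℕ) : ℝ) = N := by simp
    rw [h4]
    linarith
  have hNb : N * b = θ * N * volume.real P - (n0 + 1) := by
    rw [hb]
    field_simp
  nlinarith

end Pool.Agent.Helper11.FE
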