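import Pool.Agent.Helper11.FE.Torus
import Pool.Agent.Helper11.FE.Sel
import Pool.Agent.Helper18.SD.King

/-! Block FE-EXPO: the Lyapunov exponent. Port of `UC/Expo.lean` (same proofs), plus the limit of the means: `log ‖clm (S.M n (rep z))‖ / n` and
`log (nn (S.M n (rep z))) / n` differ by at most `log 2 / n`, both are bounded (`0 ≤ .. ≤ log S.L + log 2`) and converge a.e. to `lam`: dominated convergence
(`tendsto_integral_of_dominated_convergence`) gives the last clause. `0 ≤ lam` a.e. because `‖M‖ ≥ 1`. -/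

set_option autoImplicit false
open MeasureTheory Real Set Filter Topology

namespace Pool.Agent.Helper11.FE

open Pool.Agent.Helper18.UC (T2 rep toT nn clm sh sqo pt lab cor idx cell corner nn_nonneg nn_mul
  nn_sub_le nn_add_le abs_entry_le nn_one clm_apply norm_clm_le nn_le_clm)

open Pool.Agent.Helper18.UC (measurable_rep measurable_toT vol_rep rep_toT toT_rep rep_mem)

variable {S : Sys} {B : ℝ}

private theorem h42_meas_entry (hS : Half S B) (n : ℕ) (i j : Fin 2) :
    Measurable fun z : T2 => S.M n (rep z) i j :=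
  (M_entry_cont hS n i j).measurable.comp measurable_rep

private theorem h42_meas_nn (hS : Half S B) (n : ℕ) : Measurable fun z : T2 => nn (S.M n (rep z)) := by
  unfold nn
  exact (((h42_meas_entry hS n 0 0).abs.add (h42_meas_entry hS n 0 1).abs).add
    (h42_meas_entry hS n 1 0).abs).add (h42_meas_entry hS n 1 1).abs

private theorem h42_nn_pos (hS : Half S B) (n : ℕ) (q : ℝ × ℝ) : 0 < nn (S.M n q) :=
  lt_of_lt_of_le (by norm_num) (two_le_nn hS n q)

private theorem h42_nn_le (hS : Half S B) (n : ℕ) (q : ℝ × ℝ) : nn (S.M n q) ≤ 2 * S.L ^ n := by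
  induction n with
  | zero => rw [M_zero, nn_one]; simp
  | succ n ih =>
    calc nn (S.M (n + 1) q) ≤ S.L * nn (S.M n q) := nn_succ_le hS n q
      _ ≤ S.L * (2 * S.L ^ n) := mul_le_mul_of_nonneg_left ih (L_pos hS).le
      _ = 2 * S.L ^ (n + 1) := by ring

private theorem h42_logLL (hS : Half S B) : 0 ≤ Real.log (S.L) :=
  Real.log_nonneg (by linarith [L_ge4 hS])

/-- the quotients are bounded -/
private theorem h42_quot_nonneg (hS : Half S B) (n : ℕ) (q : ℝ × ℝ) :
    0 ≤ Real.log (nn (S.M n q)) / n :=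
  div_nonneg (Real.log_nonneg (by linarith [two_le_nn hS n q])) (Nat.cast_nonneg n)

private theorem h42_quot_le (hS : Half S B) (n : ℕ) (q : ℝ × ℝ) :
    Real.log (nn (S.M n q)) / n ≤ Real.log (S.L) + Real.log 2 := by
  have h2 : 0 ≤ Real.log 2 := Real.log_nonneg (by norm_num)
  rcases Nat.eq_zero_or_pos n with h | h
  · subst h
    simp only [Nat.cast_zero, div_zero]
    linarith [h42_logLL hS]
  · have hn : (1 : ℝ) ≤ n := by exact_mod_cast h
    rw [div_le_iff₀ (by linarith)]
    have h1 := Real.log_le_log (h42_nn_pos hS n q) (h42_nn_le hS n q)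
    rw [Real.log_mul (by norm_num) (pow_pos (L_pos hS) n).ne', Real.log_pow] at h1
    nlinarith [h42_logLL hS]

private theorem h42_liminf_le {u v : ℕ → ℝ} {B : ℝ} (huB : ∀ n, u n ≤ B)
    (hv : ∀ n, 0 ≤ v n) (h : Tendsto (fun n => u n - v n) atTop (𝓝 0)) :
    liminf v atTop ≤ liminf u atTop := by
  refine le_of_forall_lt fun b hb => ?_
  obtain ⟨b', hb1, hb2⟩ := exists_between hb
  have hbdd : IsBoundedUnder (· ≥ ·) atTop v := isBoundedUnder_of ⟨0, fun n => hv n⟩
  have hcob : IsCoboundedUnder (· ≥ ·) atTop u :=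
    IsBoundedUnder.isCoboundedUnder_ge (isBoundedUnder_of ⟨B, fun n => huB n⟩)
  have h1 := eventually_lt_of_lt_liminf hb2 hbdd
  have h2 : ∀ᶠ n in atTop, -((b' - b) / 2) < u n - v n :=
    h.eventually (lt_mem_nhds (by linarith))
  have h3 : ∀ᶠ n in atTop, b + (b' - b) / 2 ≤ u n := by
    filter_upwards [h1, h2] with n h1 h2
    linarith
  have h4 := le_liminf_of_le hcob h3
  linarith

private theorem h42_liminf_eq {u v : ℕ → ℝ} {B : ℝ} (hu : ∀ n, 0 ≤ u n) (huB : ∀ n, u n ≤ B)
    (hv : ∀ n, 0 ≤ v n) (hvB : ∀ n, v n ≤ B) (h : Tendsto (fun n => u n - v n) atTop (𝓝 0)) :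
    liminf v atTop = liminf u atTop := by
  refine le_antisymm (h42_liminf_le huB hv h) (h42_liminf_le hvB hu ?_)
  have h1 := h.neg
  simp only [neg_sub, neg_zero] at h1
  exact h1

theorem measurableSet_om (h : Half S B) (c : ℝ) : MeasurableSet (om S c) := by
  have hS := h
  refine measurableSet_lt measurable_const ?_
  exact Measurable.liminf fun n => (Real.measurable_log.comp (h42_meas_nn hS n)).div_const _

private theorem h42_nn_adj (B : Matrix (Fin 2) (Fin 2) ℝ) : nn B.adjugate = nn B := by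
  rw [Matrix.adjugate_fin_two]
  unfold nn
  simp
  ring

private theorem h42_M_one (hS : Half S B) (q : ℝ × ℝ) : nn (S.M 1 q) ≤ S.L := by
  rw [M_succ, M_zero, mul_one]
  exact hS.bd _

private theorem h42_step1 (hS : Half S B) (n : ℕ) (q : ℝ × ℝ) :
    nn (S.M (n + 1) q) ≤ S.L * nn (S.M n (S.F q)) := by
  rw [add_comm n 1, M_add, Function.iterate_one, mul_comm]
  exact (nn_mul _ _).trans (mul_le_mul_of_nonneg_left (h42_M_one hS q) (nn_nonneg _))

private theorem h42_step2 (hS : Half S B) (n : ℕ) (q : ℝ × ℝ) :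
    nn (S.M n (S.F q)) ≤ S.L * nn (S.M (n + 1) q) := by
  have h1 : S.M n (S.F q) = S.M (n + 1) q * (S.M 1 q).adjugate := by
    rw [add_comm n 1, M_add, Function.iterate_one, mul_assoc, Matrix.mul_adjugate, det_M hS, one_smul,
      mul_one]
  rw [h1, mul_comm (S.L)]
  refine (nn_mul _ _).trans (mul_le_mul_of_nonneg_left ?_ (nn_nonneg _))
  rw [h42_nn_adj]
  exact h42_M_one hS q

private theorem h42_log_diff {x y L : ℝ} (hx : 0 < x) (hy : 0 < y) (hL : 0 < L)
    (h1 : x ≤ L * y) (h2 : y ≤ L * x) : |Real.log x - Real.log y| ≤ Real.log L := by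
  have h3 := Real.log_le_log hx h1
  have h4 := Real.log_le_log hy h2
  rw [Real.log_mul hL.ne' hy.ne'] at h3
  rw [Real.log_mul hL.ne' hx.ne'] at h4
  rw [abs_le]
  constructor <;> linarith

private theorem h42_diff (hS : Half S B) (n : ℕ) (q : ℝ × ℝ) :
    |Real.log (nn (S.M n (S.F q))) - Real.log (nn (S.M n q))| ≤ 2 * Real.log (S.L) := by
  have h1 := h42_log_diff (h42_nn_pos hS n (S.F q)) (h42_nn_pos hS (n + 1) q) (L_pos hS)
    (h42_step2 hS n q) (h42_step1 hS n q)
  have h2 := h42_log_diff (h42_nn_pos hS (n + 1) q) (h42_nn_pos hS n q) (L_pos hS)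
    (nn_succ_le hS n q) (nn_le_succ hS n q)
  have h3 := abs_add_le (Real.log (nn (S.M n (S.F q))) - Real.log (nn (S.M (n + 1) q)))
    (Real.log (nn (S.M (n + 1) q)) - Real.log (nn (S.M n q)))
  have h4 : Real.log (nn (S.M n (S.F q))) - Real.log (nn (S.M (n + 1) q)) +
    (Real.log (nn (S.M (n + 1) q)) - Real.log (nn (S.M n q))) =
    Real.log (nn (S.M n (S.F q))) - Real.log (nn (S.M n q)) := by ring
  rw [h4] at h3
  linarith

private theorem h42_tendsto_quot {C : ℝ} {w : ℕ → ℝ} (h : ∀ n, |w n| ≤ C) :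
    Tendsto (fun n : ℕ => w n / n) atTop (𝓝 0) := by
  refine squeeze_zero_norm (a := fun n : ℕ => C / n) (fun n => ?_) ?_
  · rw [norm_div, Real.norm_natCast, Real.norm_eq_abs]
    exact div_le_div_of_nonneg_right (h n) (Nat.cast_nonneg n)
  · exact tendsto_const_div_atTop_nhds_zero_nat C

theorem om_inv (h : Half S B) {T : T2 → T2} (hT : IsT S T) (c : ℝ) : T ⁻¹' (om S c) = om S c := by
  have hS := h
  ext z
  have h1 : ∀ n, nn (S.M n (rep (T z))) = nn (S.M n (S.F (rep z))) := by
    intro n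
    have := nn_rep hS hT n 1 z
    rwa [Function.iterate_one, Function.iterate_one] at this
  have h2 : liminf (fun n : ℕ => Real.log (nn (S.M n (rep z))) / n) atTop =
      liminf (fun n : ℕ => Real.log (nn (S.M n (S.F (rep z)))) / n) atTop := by
    refine h42_liminf_eq (B := Real.log (S.L) + Real.log 2) (fun n => h42_quot_nonneg hS n _)
      (fun n => h42_quot_le hS n _) (fun n => h42_quot_nonneg hS n _)
      (fun n => h42_quot_le hS n _) ?_
    have h3 := h42_tendsto_quot (w := fun n => Real.log (nn (S.M n (S.F (rep z)))) -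
      Real.log (nn (S.M n (rep z)))) (fun n => h42_diff hS n (rep z))
    refine h3.congr fun n => ?_
    rw [sub_div]
  change c < _ ↔ c < _
  simp only [h1]
  rw [h2]

theorem om_PN (h : Half S B) (c : ℝ) : ∀ z ∈ om S c, ∀ᶠ N : ℕ in atTop, z ∈ PN S c N := by
  have hS := h
  intro z hz
  have hbdd : IsBoundedUnder (· ≥ ·) atTop
      (fun n : ℕ => Real.log (nn (S.M n (rep z))) / n) :=
    isBoundedUnder_of ⟨0, fun n => h42_quot_nonneg hS n _⟩
  have h1 := eventually_lt_of_lt_liminf hz hbdd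
  filter_upwards [h1, eventually_gt_atTop 0] with N hN hN0
  have hN1 : (0 : ℝ) < N := by exact_mod_cast hN0
  rw [lt_div_iff₀ hN1] at hN
  change Real.exp (c * N) ≤ nn (S.M N (rep z))
  rw [← Real.le_log_iff_exp_le (h42_nn_pos hS N _)]
  exact hN.le

private theorem h42_M_toT (hS : Half S B) (n : ℕ) (q : ℝ × ℝ) : S.M n (rep (toT q)) = S.M n q := by
  obtain ⟨u, w, h⟩ := rep_toT q
  rw [h, M_sh hS]

private theorem h42_norm_clm (B : Matrix (Fin 2) (Fin 2) ℝ) :
    ‖clm B‖ = max (|B 0 0| + |B 0 1|) (|B 1 0| + |B 1 1|) := by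
  apply le_antisymm
  · refine ContinuousLinearMap.opNorm_le_bound _
      (le_trans (by positivity) (le_max_left _ _)) fun v => ?_
    rw [clm_apply, Prod.norm_def]
    have hv1 : |v.1| ≤ ‖v‖ := norm_fst_le v
    have hv2 : |v.2| ≤ ‖v‖ := norm_snd_le v
    have key : ∀ x y : ℝ, |x * v.1 + y * v.2| ≤ (|x| + |y|) * ‖v‖ := by
      intro x y
      have h1 : |x * v.1| ≤ |x| * ‖v‖ := by
        rw [abs_mul]
        exact mul_le_mul_of_nonneg_left hv1 (abs_nonneg x)
      have h2 : |y * v.2| ≤ |y| * ‖v‖ := by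
        rw [abs_mul]
        exact mul_le_mul_of_nonneg_left hv2 (abs_nonneg y)
      have h3 := abs_add_le (x * v.1) (y * v.2)
      linarith only [h1, h2, h3]
    refine max_le ?_ ?_
    · exact (key _ _).trans (mul_le_mul_of_nonneg_right (le_max_left _ _) (norm_nonneg v))
    · exact (key _ _).trans (mul_le_mul_of_nonneg_right (le_max_right _ _) (norm_nonneg v))
  · have hs : ∀ x : ℝ, ∃ s : ℝ, |s| ≤ 1 ∧ x * s = |x| := by
      intro x
      rcases le_total 0 x with h | h
      · exact ⟨1, by simp, by rw [mul_one, abs_of_nonneg h]⟩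
      · exact ⟨-1, by simp, by rw [abs_of_nonpos h]; ring⟩
    have hb : ∀ s t : ℝ, |s| ≤ 1 → |t| ≤ 1 → ‖clm B (s, t)‖ ≤ ‖clm B‖ := by
      intro s t h1 h2
      have h3 : ‖((s, t) : ℝ × ℝ)‖ ≤ 1 := by
        rw [Prod.norm_def]
        exact max_le h1 h2
      have h4 := (clm B).le_opNorm (s, t)
      exact h4.trans (mul_le_of_le_one_right (norm_nonneg _) h3)
    refine max_le ?_ ?_
    · obtain ⟨s, hs1, hs2⟩ := hs (B 0 0)
      obtain ⟨t, ht1, ht2⟩ := hs (B 0 1)
      have h1 := (norm_fst_le (clm B (s, t))).trans (hb s t hs1 ht1)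
      rw [clm_apply] at h1
      have h2 := (le_abs_self (B 0 0 * s + B 0 1 * t)).trans h1
      linarith only [h2, hs2, ht2]
    · obtain ⟨s, hs1, hs2⟩ := hs (B 1 0)
      obtain ⟨t, ht1, ht2⟩ := hs (B 1 1)
      have h1 := (norm_snd_le (clm B (s, t))).trans (hb s t hs1 ht1)
      rw [clm_apply] at h1
      have h2 := (le_abs_self (B 1 0 * s + B 1 1 * t)).trans h1
      linarith only [h2, hs2, ht2]

private theorem h42_clm_mul (B C : Matrix (Fin 2) (Fin 2) ℝ) :
    ‖clm (B * C)‖ ≤ ‖clm B‖ * ‖clm C‖ := by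
  have h : clm (B * C) = (clm B).comp (clm C) := by
    refine ContinuousLinearMap.ext fun v => ?_
    rw [ContinuousLinearMap.comp_apply, clm_apply, clm_apply, clm_apply]
    refine Prod.ext ?_ ?_
    · simp only [Matrix.mul_apply, Fin.sum_univ_two]
      ring
    · simp only [Matrix.mul_apply, Fin.sum_univ_two]
      ring
  rw [h]
  exact ContinuousLinearMap.opNorm_comp_le _ _

private theorem h42_one_le (hS : Half S B) (n : ℕ) (q : ℝ × ℝ) : 1 ≤ ‖clm (S.M n q)‖ := by
  have h := det_M hS n q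
  rw [Matrix.det_fin_two] at h
  rw [h42_norm_clm]
  generalize S.M n q 0 0 = x at *
  generalize S.M n q 0 1 = y at *
  generalize S.M n q 1 0 = z at *
  generalize S.M n q 1 1 = w at *
  have h1 : 1 ≤ |x| * |w| + |y| * |z| := by
    have h2 := abs_sub (x * w) (y * z)
    rw [h, abs_one, abs_mul, abs_mul] at h2
    exact h2
  have hx := abs_nonneg x
  have hy := abs_nonneg y
  have hz := abs_nonneg z
  have hw := abs_nonneg w
  by_contra hcon
  rw [not_le, max_lt_iff] at hcon
  obtain ⟨h3, h4⟩ := hcon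
  have h5 : (|x| + |y|) * (|z| + |w|) < 1 := by
    calc (|x| + |y|) * (|z| + |w|) ≤ 1 * (|z| + |w|) :=
          mul_le_mul_of_nonneg_right h3.le (by positivity)
      _ < 1 := by linarith
  nlinarith [mul_nonneg hx hz, mul_nonneg hy hw]

private theorem h42_clm_le (hS : Half S B) (n : ℕ) (q : ℝ × ℝ) : ‖clm (S.M n q)‖ ≤ S.L ^ n := by
  induction n with
  | zero =>
    rw [M_zero, h42_norm_clm]
    simp
  | succ n ih =>
    calc ‖clm (S.M (n + 1) q)‖ ≤ ‖clm (S.A (S.F^[n] q))‖ * ‖clm (S.M n q)‖ := by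
          rw [M_succ]
          exact h42_clm_mul _ _
      _ ≤ S.L * S.L ^ n :=
          mul_le_mul ((norm_clm_le _).trans (hS.bd _)) ih (norm_nonneg _) (L_pos hS).le
      _ = S.L ^ (n + 1) := by ring

private theorem h42_ae_plane {P : T2 → Prop} (h : ∀ᵐ z, P z) :
    ∀ᵐ q : ℝ × ℝ, P (toT q) := by
  obtain ⟨N, hN1, hN2, hN3⟩ := exists_measurable_superset_of_null (ae_iff.mp h)
  have h0 : volume (toT ⁻¹' N ∩ (Ico (0:ℝ) 1 ×ˢ Ico (0:ℝ) 1)) = 0 := by
    rw [← vol_rep (measurable_toT hN2)]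
    have : rep ⁻¹' (toT ⁻¹' N) = N := by
      ext z
      simp [toT_rep]
    rw [this, hN3]
  have h1 : ∀ k : ℤ × ℤ, volume ((fun q : ℝ × ℝ => q + ((k.1 : ℝ), (k.2 : ℝ))) ⁻¹'
      (toT ⁻¹' N ∩ (Ico (0:ℝ) 1 ×ˢ Ico (0:ℝ) 1))) = 0 := by
    intro k
    rw [measure_preimage_add_right, h0]
  rw [ae_iff]
  refine measure_mono_null ?_ (measure_iUnion_null h1)
  intro q hq
  obtain ⟨u, w, h2⟩ := rep_toT q
  refine mem_iUnion.mpr ⟨(u, w), ?_⟩
  have h3 : q + ((u : ℝ), (w : ℝ)) = rep (toT q) := by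
    rw [h2]
    rfl
  rw [mem_preimage, h3]
  refine ⟨?_, rep_mem _⟩
  change toT (rep (toT q)) ∈ N
  rw [toT_rep]
  exact hN1 hq

private theorem h42_prob : IsProbabilityMeasure (volume : Measure T2) := by
  have h1 : IsProbabilityMeasure (volume : Measure UnitAddCircle) := ⟨by
    rw [AddCircle.measure_univ, ENNReal.ofReal_one]⟩
  change IsProbabilityMeasure ((volume : Measure UnitAddCircle).prod (volume : Measure UnitAddCircle))
  infer_instance

private theorem h42_close (hS : Half S B) (n : ℕ) (q : ℝ × ℝ) :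
    |Real.log (nn (S.M n q)) - Real.log ‖clm (S.M n q)‖| ≤ Real.log 2 := by
  have hp := lt_of_lt_of_le one_pos (h42_one_le hS n q)
  refine h42_log_diff (h42_nn_pos hS n _) hp (by norm_num) (nn_le_clm _) ?_
  have h3 := norm_clm_le (S.M n q)
  have h4 := nn_nonneg (S.M n q)
  linarith

theorem exists_lam (h : Half S B) {T : T2 → T2} (hT : IsT S T) :
    ∃ lam : T2 → ℝ, Measurable lam ∧ (∀ z, 0 ≤ lam z ∧ lam z ≤ Real.log S.L) ∧
      (∀ᵐ z, lam (T z) = lam z) ∧
      (∀ᵐ q : ℝ × ℝ, Tendsto (fun n : ℕ => Real.log ‖fderiv ℝ (S.F^[n]) q‖ / n) atTop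
        (𝓝 (lam (toT q)))) ∧
      (∀ c : ℝ, ∀ᵐ z, z ∈ om S c ↔ c < lam z) ∧
      Tendsto (fun n : ℕ => (∫ z : T2, Real.log (nn (S.M n (rep z)))) / n) atTop
        (𝓝 (∫ z : T2, lam z)) := by
  have hS := h
  have hmeas : ∀ n, Measurable fun z : T2 => Real.log ‖clm (S.M n (rep z))‖ := by
    intro n
    simp only [h42_norm_clm]
    exact Real.measurable_log.comp
      (((h42_meas_entry hS n 0 0).abs.add (h42_meas_entry hS n 0 1).abs).max
        ((h42_meas_entry hS n 1 0).abs.add (h42_meas_entry hS n 1 1).abs))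
  have hnn : ∀ (n : ℕ) (z : T2), 0 ≤ Real.log ‖clm (S.M n (rep z))‖ := fun n z =>
    Real.log_nonneg (h42_one_le hS n _)
  have hbd : ∀ (n : ℕ) (z : T2), |Real.log ‖clm (S.M n (rep z))‖| ≤ Real.log S.L * n := by
    intro n z
    rw [abs_of_nonneg (hnn n z)]
    have h1 := Real.log_le_log (lt_of_lt_of_le one_pos (h42_one_le hS n (rep z)))
      (h42_clm_le hS n (rep z))
    rw [Real.log_pow] at h1
    linarith
  have hsub : ∀ (n m : ℕ) (z : T2), Real.log ‖clm (S.M (n + m) (rep z))‖ ≤
      Real.log ‖clm (S.M n (rep z))‖ + Real.log ‖clm (S.M m (rep (T^[n] z)))‖ := by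
    intro n m z
    have hp : ∀ (k : ℕ) (q : ℝ × ℝ), ‖clm (S.M k q)‖ ≠ 0 := fun k q =>
      (lt_of_lt_of_le one_pos (h42_one_le hS k q)).ne'
    rw [M_rep hS hT, M_add, ← Real.log_mul (hp _ _) (hp _ _)]
    refine Real.log_le_log ?_ ?_
    · rw [← M_add]
      exact lt_of_lt_of_le one_pos (h42_one_le hS _ _)
    · rw [mul_comm ‖clm (S.M n (rep z))‖]
      exact h42_clm_mul _ _
  have := h42_prob
  obtain ⟨lam, hl1, hl2, hl3, hl4, hl5⟩ := Pool.Agent.Helper18.SD.kingman_bdd hT.mp hmeas hbd hsub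
  have hlog0 : 0 ≤ Real.log S.L := h42_logLL hS
  have hpos : ∀ᵐ z, max (lam z) 0 = lam z := by
    filter_upwards [hl4] with z hz
    refine max_eq_left (ge_of_tendsto' hz fun n => ?_)
    exact div_nonneg (hnn n z) (Nat.cast_nonneg n)
  have hae : ∀ᵐ z, Tendsto (fun n : ℕ => Real.log ‖clm (S.M n (rep z))‖ / n) atTop (𝓝 (max (lam z) 0)) := by
    filter_upwards [hl4, hpos] with z h1 h2
    rw [h2]
    exact h1
  refine ⟨fun z => max (lam z) 0, hl1.max measurable_const, fun z => ⟨le_max_right _ _, ?_⟩, ?_, ?_, ?_, ?_⟩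
  · exact max_le ((le_abs_self _).trans (hl2 z)) hlog0
  · filter_upwards [hl3] with z hz
    rw [hz]
  · have h1 := h42_ae_plane hae
    filter_upwards [h1] with q hq
    refine hq.congr fun n => ?_
    rw [h42_M_toT hS, (hasFDerivAt_iter hS n q).fderiv]
  · intro c
    filter_upwards [hae] with z hz
    have h1 : Tendsto (fun n : ℕ => Real.log (nn (S.M n (rep z))) / n) atTop (𝓝 (max (lam z) 0)) := by
      have h2 := h42_tendsto_quot (C := Real.log 2) (w := fun n => Real.log (nn (S.M n (rep z))) -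
        Real.log ‖clm (S.M n (rep z))‖) (fun n => h42_close hS n (rep z))
      have h3 := h2.add hz
      rw [zero_add] at h3
      refine h3.congr fun n => ?_
      rw [← add_div]
      congr 1
      ring
    change c < _ ↔ _
    rw [h1.liminf_eq]
  · have hi1 : ∀ n, Integrable (fun z : T2 => Real.log ‖clm (S.M n (rep z))‖) := by
      intro n
      refine Integrable.of_bound (hmeas n).aestronglyMeasurable (Real.log S.L * n)
        (Eventually.of_forall fun z => ?_)
      rw [Real.norm_eq_abs]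
      exact hbd n z
    have hi2 : ∀ n, Integrable (fun z : T2 => Real.log (nn (S.M n (rep z)))) := by
      intro n
      refine Integrable.of_bound (Real.measurable_log.comp (h42_meas_nn hS n)).aestronglyMeasurable
        (Real.log S.L * n + Real.log 2) (Eventually.of_forall fun z => ?_)
      rw [Real.norm_eq_abs]
      have h1 := h42_close hS n (rep z)
      have h2 := hbd n z
      have h3 := abs_add_le (Real.log (nn (S.M n (rep z))) - Real.log ‖clm (S.M n (rep z))‖)
        (Real.log ‖clm (S.M n (rep z))‖)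
      rw [sub_add_cancel] at h3
      linarith
    have h1 := h42_tendsto_quot (C := Real.log 2) (w := fun n => (∫ z : T2, Real.log (nn (S.M n (rep z)))) -
      ∫ z : T2, Real.log ‖clm (S.M n (rep z))‖) (fun n => by
        rw [← integral_sub (hi2 n) (hi1 n)]
        have h2 := norm_integral_le_of_norm_le_const (μ := (volume : Measure T2)) (C := Real.log 2)
          (f := fun z => Real.log (nn (S.M n (rep z))) - Real.log ‖clm (S.M n (rep z))‖)
          (Eventually.of_forall fun z => by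
            rw [Real.norm_eq_abs]
            exact h42_close hS n (rep z))
        rw [Real.norm_eq_abs, probReal_univ, mul_one] at h2
        exact h2)
    have h2 := h1.add hl5
    rw [zero_add] at h2
    have h3 : ∫ z : T2, max (lam z) 0 = ∫ z : T2, lam z := integral_congr_ae hpos
    rw [h3]
    refine h2.congr fun n => ?_
    rw [← add_div]
    congr 1
    ring

end Pool.Agent.Helper11.FE
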