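import Pool.Agent.Helper11.FE.Pos
import Pool.Agent.Helper11.FE.Expo
import Pool.Agent.Helper18.UC.Eig

/-! Block FE-COMP: the component theorem for a system. Assembly: `exists_lam`, `om_inv`, `om_PN`, `pos` with `Ω = om S c`, `UC.eig_const` (see the proof of `hmix` in
`UY/Fin.lean`). Last clause: Markov: `∫ (log L - lam) ≥ (log L - c) vol {lam ≤ c}` (`vol T2 = 1`, `0 ≤ log L - lam`). -/

set_option autoImplicit false
open MeasureTheory Real Set Filter Topology

namespace Pool.Agent.Helper11.FE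

open Pool.Agent.Helper18.UC (T2 rep toT nn clm sh sqo pt lab cor idx cell corner nn_nonneg nn_mul
  nn_sub_le nn_add_le abs_entry_le nn_one clm_apply norm_clm_le nn_le_clm)

variable {S : Sys} {B : ℝ}

theorem component (h : S.Ok B) {T : T2 → T2} (hT : IsT S T) :
    ∃ lam : T2 → ℝ, Measurable lam ∧ (∀ z, 0 ≤ lam z ∧ lam z ≤ Real.log S.L) ∧
      (∀ᵐ z, lam (T z) = lam z) ∧
      (∀ᵐ q : ℝ × ℝ, Tendsto (fun n : ℕ => Real.log ‖fderiv ℝ (S.F^[n]) q‖ / n) atTop
        (𝓝 (lam (toT q)))) ∧
      Tendsto (fun n : ℕ => (∫ z : T2, Real.log (nn (S.M n (rep z)))) / n) atTop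
        (𝓝 (∫ z : T2, lam z)) ∧
      ∀ c : ℝ, Real.log (S.KK B) < c → c ≤ Real.log S.L →
        (∀ (ξ : ℂ) (f : T2 → ℂ), Measurable f → (∀ᵐ z, c < lam z → f (T z) = ξ * f z) →
          ∃ w : ℂ, ∀ᵐ z, c < lam z → f z = w) ∧
        (∃ L0 : ℝ, ∀ᵐ z, c < lam z → lam z = L0) ∧
        (Real.log S.L - c) * volume.real {z | lam z ≤ c} ≤ Real.log S.L - ∫ z : T2, lam z := by
  have hF := h.fwd
  obtain ⟨lam, hlm, hbd, hlinv, hlim, hom, hmean⟩ := exists_lam hF hT
  refine ⟨lam, hlm, hbd, hlinv, hlim, hmean, ?_⟩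
  intro c hc hc2
  have hmeas := measurableSet_om hF c
  have hinv := om_inv hF hT c
  have hP := om_PN hF c
  have hmix : ∀ (ξ : ℂ) (f : T2 → ℂ), Measurable f → (∀ᵐ z, c < lam z → f (T z) = ξ * f z) →
      ∃ w : ℂ, ∀ᵐ z, c < lam z → f z = w := by
    intro ξ f hf heq
    have heq' : ∀ᵐ z, z ∈ om S c → f (T z) = ξ * f z := by
      filter_upwards [heq, hom c] with z h1 h2 hz
      exact h1 (h2.1 hz)
    obtain ⟨w, hw⟩ := Pool.Agent.Helper18.UC.eig_const hT.mp hmeas hinv (fun E E' hE hE' hEΩ hEΩ' hm hm' =>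
      pos h hT hc hc2 hmeas hinv hP hE hEΩ hE' hEΩ' hm hm') hf heq'
    refine ⟨w, ?_⟩
    filter_upwards [hw, hom c] with z h1 h2 hz
    exact h1 (h2.2 hz)
  refine ⟨hmix, ?_, ?_⟩
  · obtain ⟨w, hw⟩ := hmix 1 (fun z => (lam z : ℂ)) (Complex.measurable_ofReal.comp hlm) (by
      filter_upwards [hlinv] with z hz _
      rw [hz, one_mul])
    refine ⟨w.re, ?_⟩
    filter_upwards [hw] with z hz h1
    rw [← hz h1, Complex.ofReal_re]
  · have hprob : IsProbabilityMeasure (volume : Measure T2) := by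
      have h1 : IsProbabilityMeasure (volume : Measure UnitAddCircle) := by
        constructor
        rw [UnitAddCircle.measure_univ]
      show IsProbabilityMeasure ((volume : Measure UnitAddCircle).prod volume)
      infer_instance
    obtain ⟨l, hl⟩ : ∃ l, l = Real.log S.L := ⟨_, rfl⟩
    rw [← hl] at hbd hc2 ⊢
    have hint : Integrable lam (volume : Measure T2) := by
      refine Integrable.of_bound hlm.aestronglyMeasurable l (Eventually.of_forall fun z => ?_)
      rw [Real.norm_eq_abs, abs_of_nonneg (hbd z).1]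
      exact (hbd z).2
    have hint2 : Integrable (fun z => l - lam z) (volume : Measure T2) := (integrable_const l).sub hint
    have h0 : 0 ≤ᵐ[volume] fun z : T2 => l - lam z := Eventually.of_forall fun z => by
      have := (hbd z).2
      simp only [Pi.zero_apply]
      linarith
    have h1 := mul_meas_ge_le_integral_of_nonneg h0 hint2 (l - c)
    have h2 : {z : T2 | l - c ≤ l - lam z} = {z | lam z ≤ c} := by
      ext z
      simp only [mem_setOf_eq]
      constructor <;> intro h <;> linarith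
    rw [h2, integral_sub (integrable_const l) hint, integral_const, probReal_univ, one_smul] at h1
    exact h1

end Pool.Agent.Helper11.FE
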