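import Pool.Agent.Helper18.UC.Cell
import Pool.Agent.Helper18.UC.FD

/-! Project FE (MP_9ee088_an, part II of project FD): for area preserving `C^(1+s)` maps of the torus with derivative of size
about `L` all Lyapunov exponents above `(1/(1+s)) log L + C` live in one ergodic component. Port of project UC
(`Pool/Agent/Helper18/UC`, the standard map) to general maps: the reversibility of the standard map is replaced by the pair
`(F, G)`, `G = swap ∘ F⁻¹ ∘ swap`, the Lipschitz bound of the derivative by a Hoelder bound.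

`Sys`: the data. `S.rev`: the same with `F` and `G` exchanged. `Half S B`: one-sided properties. `Sys.Ok S B`: all properties.
Rule for porting: `F a ↦ S.F`, `M a ↦ S.M`, `A a ↦ S.A`, `LL a ↦ S.L`, `KK a B ↦ S.KK B`, `5 / KK a B ↦ 1 / (2 * B)`; everything which
belongs to the second (reflected) square or time `n'` is taken for `S.rev`: `M a n' q' ↦ S.rev.M n' q'`. -/

set_option autoImplicit false
open MeasureTheory Real Set

namespace Pool.Agent.Helper11.FE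

open Pool.Agent.Helper18.UC (T2 rep toT nn clm sh sqo pt lab cor idx cell corner)

/-- a map `F` of the plane, its reversed inverse `G`, their derivative matrices, the size `L` of the derivative, the Hoelder exponent -/
structure Sys where
  F : ℝ × ℝ → ℝ × ℝ
  G : ℝ × ℝ → ℝ × ℝ
  A : ℝ × ℝ → Matrix (Fin 2) (Fin 2) ℝ
  A' : ℝ × ℝ → Matrix (Fin 2) (Fin 2) ℝ
  L : ℝ
  s : ℝ

/-- the reversed system -/
def Sys.rev (S : Sys) : Sys := ⟨S.G, S.F, S.A', S.A, S.L, S.s⟩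

/-- the derivative matrix of the `n`-th iterate of `S.F` -/
noncomputable def Sys.M (S : Sys) : ℕ → ℝ × ℝ → Matrix (Fin 2) (Fin 2) ℝ
  | 0, _ => 1
  | n + 1, q => S.A (S.F^[n] q) * S.M n q

/-- the hyperbolicity rate: `KK ^ (1 + s) = 32 B² L` -/
noncomputable def Sys.KK (S : Sys) (B : ℝ) : ℝ := (32 * B ^ 2 * S.L) ^ (1 / (1 + S.s))

/-- the one-sided hypotheses -/
structure Half (S : Sys) (B : ℝ) : Prop where
  cont : ∀ i j : Fin 2, Continuous fun q => S.A q i j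
  deriv : ∀ q, HasFDerivAt S.F (clm (S.A q)) q
  det : ∀ q, (S.A q).det = 1
  per : ∀ (q : ℝ × ℝ) (k l : ℤ), S.F (sh q k l) = sh (S.F q) (2 * k - l) k
  perA : ∀ (q : ℝ × ℝ) (k l : ℤ), S.A (sh q k l) = S.A q
  bd : ∀ q, nn (S.A q) ≤ S.L
  hol : ∀ q q', nn (S.A q - S.A q') ≤ 8 * S.L * dist q q' ^ S.s
  cone : ∀ (q : ℝ × ℝ) (u v : ℝ), |S.A q 1 0 * u + S.A q 1 1 * v| ≤
    2 * (|u| + |v|) + 20 / S.L * |S.A q 0 0 * u + S.A q 0 1 * v|
  s0 : 0 < S.s
  s1 : S.s ≤ 1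
  hB : 100 ≤ B
  hK : 2 * S.KK B ≤ S.L

/-- all hypotheses -/
structure Sys.Ok (S : Sys) (B : ℝ) : Prop where
  fwd : Half S B
  bwd : Half S.rev B
  FG : ∀ q, S.F (Prod.swap (S.G q)) = Prod.swap q
  GF : ∀ q, S.G (Prod.swap (S.F q)) = Prod.swap q
  rev : ∀ q, S.A' (Prod.swap (S.F q)) * !![0, 1; 1, 0] * S.A q = !![0, 1; 1, 0]
  rev' : ∀ q, S.A (Prod.swap (S.G q)) * !![0, 1; 1, 0] * S.A' q = !![0, 1; 1, 0]
  jump : ∃ x0 ℓ : ℝ, 0 < ℓ ∧ ℓ ≤ 1 ∧ ∀ (μ : ℤ) (q q' : ℝ × ℝ), q.1 ∈ Icc (x0 + μ) (x0 + μ + ℓ) →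
    q'.1 ∈ Icc (x0 + μ) (x0 + μ + ℓ) → |q.2 - q'.2| ≤ 1 / 8 * |q.1 - q'.1| →
    4 / ℓ * |q.1 - q'.1| ≤ |(S.F q).1 - (S.F q').1| ∧
      |(S.F q).2 - (S.F q').2| ≤ 1 / 8 * |(S.F q).1 - (S.F q').1|

/-- the map of the torus -/
structure IsT (S : Sys) (T : T2 → T2) : Prop where
  lift : ∀ q, T (toT q) = toT (S.F q)
  mp : MeasurePreserving T volume volume

/-- `n` is a hyperbolic time of the point `q` -/
def Hyp (S : Sys) (B : ℝ) (n : ℕ) (q : ℝ × ℝ) : Prop :=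
  ∀ i ≤ n, S.KK B ^ (n - i) * nn (S.M i q) ≤ nn (S.M n q)

/-- `F ^ n` stretches the lines of direction `k` through the square of radius `B / ‖DF ^ n(p)‖`
around `p` almost uniformly (factor `m`) and almost horizontally -/
def Good (S : Sys) (B : ℝ) (n : ℕ) (p : ℝ × ℝ) (k : Fin 2) (m : ℝ) : Prop :=
  (49 / 100) * nn (S.M n p) ≤ |m| ∧ |m| ≤ nn (S.M n p) ∧
  ∀ q : ℝ × ℝ, dist q p ≤ B / nn (S.M n p) →
    |S.M n q 0 k - m| ≤ (3 / B) * |m| ∧ |S.M n q 1 k| ≤ (1 / (2 * B)) * |m|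

/-- points of a square whose orbit hits the reflection of another square after `N` steps,
modulo integer translations -/
def Hit (S : Sys) (N : ℕ) (c : ℝ × ℝ) (s : ℝ) (c' : ℝ × ℝ) (s' : ℝ) : Set (ℝ × ℝ) :=
  {q | q ∈ sqo c s ∧ ∃ u w : ℤ, sh (Prod.swap (S.F^[N] q)) u w ∈ sqo c' s'}

/-- the cell `cell κ z` has the right size for the time `n` -/
def Fit (S : Sys) (B : ℝ) (n κ : ℕ) (z : T2) : Prop :=
  Hyp S B n (rep z) ∧ B / (2 * nn (S.M n (rep z))) ≤ 1 / 2 ^ κ ∧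
    1 / 2 ^ κ ≤ B / nn (S.M n (rep z)) ∧ 1 ≤ κ

/-- points with a large derivative at time `N` -/
def PN (S : Sys) (c : ℝ) (N : ℕ) : Set T2 := {z | Real.exp (c * N) ≤ nn (S.M N (rep z))}

/-- points for which `n` is a hyperbolic time -/
def HG (S : Sys) (B : ℝ) (n : ℕ) : Set T2 := {z | Hyp S B n (rep z)}

/-- a countable disjoint family of cells of the right size for the time `n`, almost filled by `E` -/
def Fam (S : Sys) (B : ℝ) (n : ℕ) (E : Set T2) (η : ℝ) (𝒬 : Set (Set T2)) : Prop :=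
  𝒬.Countable ∧ 𝒬.PairwiseDisjoint id ∧
    (∀ Q ∈ 𝒬, ∃ (κ : ℕ) (z : T2), Q = cell κ z ∧ Fit S B n κ z) ∧
    ∀ Q ∈ 𝒬, volume (Q \ E) ≤ ENNReal.ofReal η * volume Q

/-- points whose lower exponent exceeds `c` -/
noncomputable def om (S : Sys) (c : ℝ) : Set T2 :=
  {z | c < Filter.liminf (fun n : ℕ => Real.log (nn (S.M n (rep z))) / n) Filter.atTop}

lemma M_zero (S : Sys) (q : ℝ × ℝ) : S.M 0 q = 1 := by rw [Sys.M]

lemma M_succ (S : Sys) (n : ℕ) (q : ℝ × ℝ) : S.M (n + 1) q = S.A (S.F^[n] q) * S.M n q := by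
  rw [Sys.M]

lemma rev_rev (S : Sys) : S.rev.rev = S := rfl

lemma KK_rev (S : Sys) (B : ℝ) : S.rev.KK B = S.KK B := rfl

end Pool.Agent.Helper11.FE
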