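import Pool.Agent.Helper11.FE.NL

/-! Block FE-DIR (proved): directions and curves at a hyperbolic time. Port of `UC/Dir.lean` (same proofs, `M a n q ↦ S.M n q`).

Differences: (1) rate: `near_linear` now says `(32 B² L)^(n-i) nn (M i q - M i p) ≤ nn (M n p) / B`. (2) `exists_good`: second row. `n = n'+1`,
`M n q = A (F^[n'] q) * M n' q`, so by `cone` with `(u, v) = (M n' q 0 k, M n' q 1 k)`: `|M n q 1 k| ≤ 2 nn (M n' q) + (20 / L) |M n q 0 k|`,
`nn (M n' q) ≤ nn (M n' p) + nn (M n' q - M n' p) ≤ Λ/K + Λ/(32 B³ L) ≤ 2 Λ/K` and `|M n q 0 k| ≤ nn (M n q) ≤ 2 Λ`. With `K ≥ 4000 B` (`KK_ge`), `L ≥ 64 B²`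
(`L_ge`), `B ≥ 100`: `|M n q 1 k| ≤ 4 Λ/(4000 B) + 40 Λ/(64 B²) ≤ (8/1000) Λ/B ≤ (1/(2B)) |m|`. At `q = p` the second row has sum of absolute values at
most `Λ/50`, so the first row has an entry `≥ (49/100) Λ`. (3) `good_curve`: the constant `5 / KK` is now `1 / (2 B)`. -/

set_option autoImplicit false
open MeasureTheory Real Set

namespace Pool.Agent.Helper11.FE

open Pool.Agent.Helper18.UC (T2 rep toT nn clm sh sqo pt lab cor idx cell corner nn_nonneg nn_mul
  nn_sub_le nn_add_le abs_entry_le nn_one clm_apply norm_clm_le nn_le_clm)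

variable {S : Sys} {B : ℝ}

private theorem dir11_row (h : Half S B) (n : ℕ) (q : ℝ × ℝ) (k : Fin 2) :
    |S.M (n + 1) q 1 k| ≤ 2 * (|S.M n q 0 k| + |S.M n q 1 k|) + 20 / S.L * |S.M (n + 1) q 0 k| := by
  have h1 := h.cone (S.F^[n] q) (S.M n q 0 k) (S.M n q 1 k)
  have h2 : ∀ i : Fin 2, S.M (n + 1) q i k = S.A (S.F^[n] q) i 0 * S.M n q 0 k +
      S.A (S.F^[n] q) i 1 * S.M n q 1 k := by
    intro i
    rw [M_succ, Matrix.mul_apply, Fin.sum_univ_two]
  rw [h2 0, h2 1]
  exact h1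

theorem exists_good (h : Half S B) {n : ℕ} (hn : 1 ≤ n) {p : ℝ × ℝ} (hp : Hyp S B n p) :
    ∃ (k : Fin 2) (m : ℝ), Good S B n p k m := by
  obtain ⟨n', rfl⟩ : ∃ n', n = n' + 1 := ⟨n - 1, by omega⟩
  have hB : 100 ≤ B := h.hB
  have hB0 : 0 < B := by linarith
  have hK := KK_ge h
  have hK0 : 0 < S.KK B := KK_pos h
  have hL := L_ge h
  have hL0 : 0 < S.L := L_pos h
  obtain ⟨Λ, hΛ⟩ : ∃ Λ, Λ = nn (S.M (n' + 1) p) := ⟨_, rfl⟩
  have hΛ0 : 0 ≤ Λ := by rw [hΛ]; exact nn_nonneg _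
  have h1 : nn (S.M n' p) ≤ Λ / (4000 * B) := by
    have h2 := hp n' (by omega)
    rw [show n' + 1 - n' = 1 by omega, pow_one, ← hΛ] at h2
    rw [le_div_iff₀ (by positivity)]
    have h3 : nn (S.M n' p) * (4000 * B) ≤ nn (S.M n' p) * S.KK B :=
      mul_le_mul_of_nonneg_left hK (nn_nonneg _)
    linarith
  have hLB : 20 / S.L ≤ 1 / (320 * B) := by
    rw [div_le_div_iff₀ hL0 (by positivity)]
    nlinarith
  have hfrac : Λ / (4000 * B) ≤ Λ / 400000 :=
    div_le_div_of_nonneg_left hΛ0 (by norm_num) (by linarith)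
  have hLB' : 20 / S.L ≤ 1 / 32000 :=
    hLB.trans (one_div_le_one_div_of_le (by norm_num) (by linarith))
  have hLBp : 0 ≤ 20 / S.L := by positivity
  -- the first row is large
  have hrow : (98 / 100) * Λ ≤ |S.M (n' + 1) p 0 0| + |S.M (n' + 1) p 0 1| := by
    have h2 : |S.M (n' + 1) p 1 0| + |S.M (n' + 1) p 1 1| ≤
        2 * nn (S.M n' p) + 20 / S.L * (|S.M (n' + 1) p 0 0| + |S.M (n' + 1) p 0 1|) := by
      have e0 := dir11_row h n' p 0
      have e1 := dir11_row h n' p 1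
      have e2 : nn (S.M n' p) = |S.M n' p 0 0| + |S.M n' p 0 1| + |S.M n' p 1 0| +
        |S.M n' p 1 1| := rfl
      rw [e2]
      linarith
    have h3 : Λ = |S.M (n' + 1) p 0 0| + |S.M (n' + 1) p 0 1| + |S.M (n' + 1) p 1 0| +
        |S.M (n' + 1) p 1 1| := by rw [hΛ]; rfl
    have h4 : 20 / S.L * (|S.M (n' + 1) p 0 0| + |S.M (n' + 1) p 0 1|) ≤
        1 / 32000 * (|S.M (n' + 1) p 0 0| + |S.M (n' + 1) p 0 1|) :=
      mul_le_mul_of_nonneg_right hLB' (by positivity)
    have h5 : 0 ≤ |S.M (n' + 1) p 1 0| + |S.M (n' + 1) p 1 1| := by positivity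
    linarith
  have hk : ∃ k : Fin 2, (49 / 100) * Λ ≤ |S.M (n' + 1) p 0 k| := by
    by_contra hcon
    push Not at hcon
    have ha := hcon 0
    have hb := hcon 1
    linarith
  obtain ⟨k, hk⟩ := hk
  have hm0 : 0 ≤ |S.M (n' + 1) p 0 k| := abs_nonneg _
  refine ⟨k, S.M (n' + 1) p 0 k, ?_, abs_entry_le _ _ _, ?_⟩
  · rw [← hΛ]; exact hk
  intro q hq
  have hnl := near_linear h hp hq
  have hn2 := hnl (n' + 1) le_rfl
  rw [Nat.sub_self, pow_zero, one_mul, ← hΛ] at hn2
  constructor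
  · have h3 : |S.M (n' + 1) q 0 k - S.M (n' + 1) p 0 k| ≤
        nn (S.M (n' + 1) q - S.M (n' + 1) p) := by
      have := abs_entry_le (S.M (n' + 1) q - S.M (n' + 1) p) 0 k
      rwa [Matrix.sub_apply] at this
    refine h3.trans (hn2.trans ?_)
    rw [div_mul_eq_mul_div]
    exact div_le_div_of_nonneg_right (by linarith) hB0.le
  · have hn1 := hnl n' (by omega)
    rw [show n' + 1 - n' = 1 by omega, pow_one, ← hΛ] at hn1
    have hd0 : 0 ≤ nn (S.M n' q - S.M n' p) := nn_nonneg _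
    have h6 : nn (S.M n' q - S.M n' p) ≤ Λ / (4000 * B) := by
      rw [le_div_iff₀ (by positivity)]
      rw [le_div_iff₀ hB0] at hn1
      have h7 : 4000 ≤ 32 * B ^ 2 * S.L := by
        have : (10000 : ℝ) ≤ B ^ 2 := by nlinarith
        nlinarith
      have h8 : nn (S.M n' q - S.M n' p) * (4000 * B) ≤
          32 * B ^ 2 * S.L * nn (S.M n' q - S.M n' p) * B := by
        have h9 : 4000 * (nn (S.M n' q - S.M n' p) * B) ≤
          32 * B ^ 2 * S.L * (nn (S.M n' q - S.M n' p) * B) :=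
          mul_le_mul_of_nonneg_right h7 (by positivity)
        linarith
      linarith
    have h7 : nn (S.M n' q) ≤ 2 * (Λ / (4000 * B)) := by
      have h8 := nn_sub_le (S.M n' q) (S.M n' p)
      linarith
    have h8 : |S.M (n' + 1) q 0 k| ≤ 2 * Λ := by
      have h9 := nn_sub_le (S.M (n' + 1) q) (S.M (n' + 1) p)
      have h10 : Λ / B ≤ Λ := div_le_self hΛ0 (by linarith)
      have h11 := abs_entry_le (S.M (n' + 1) q) 0 k
      rw [← hΛ] at h9
      linarith
    have h9 := dir11_row h n' q k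
    have h10 : |S.M n' q 0 k| + |S.M n' q 1 k| ≤ nn (S.M n' q) := by
      have e2 : nn (S.M n' q) = |S.M n' q 0 0| + |S.M n' q 0 1| + |S.M n' q 1 0| +
        |S.M n' q 1 1| := rfl
      rw [e2]
      have p0 := abs_nonneg (S.M n' q 0 0)
      have p1 := abs_nonneg (S.M n' q 0 1)
      have p2 := abs_nonneg (S.M n' q 1 0)
      have p3 := abs_nonneg (S.M n' q 1 1)
      fin_cases k
      · simp only [Fin.zero_eta]; linarith
      · simp only [Fin.mk_one]; linarith
    have h11 : 20 / S.L * |S.M (n' + 1) q 0 k| ≤ 1 / (320 * B) * (2 * Λ) :=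
      mul_le_mul hLB h8 (abs_nonneg _) (by positivity)
    have h12 : |S.M (n' + 1) q 1 k| ≤ 4 * (Λ / (4000 * B)) + 1 / (320 * B) * (2 * Λ) := by linarith
    refine h12.trans ?_
    have h13 : 1 / (2 * B) * ((49 / 100) * Λ) ≤ 1 / (2 * B) * |S.M (n' + 1) p 0 k| :=
      mul_le_mul_of_nonneg_left hk (by positivity)
    refine le_trans ?_ h13
    have h14 : 4 * (Λ / (4000 * B)) + 1 / (320 * B) * (2 * Λ) = (29 / 4000) * (Λ / B) := by
      field_simp; ring
    have h15 : 1 / (2 * B) * ((49 / 100) * Λ) = (49 / 200) * (Λ / B) := by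
      field_simp; ring
    rw [h14, h15]
    have : 0 ≤ Λ / B := by positivity
    linarith

/-- derivative of the iterate along a line -/
theorem hasDerivAt_line (h : Half S B) (n : ℕ) (k : Fin 2) (t s : ℝ) :
    HasDerivAt (fun u : ℝ => (S.F^[n] (pt k t u)).1) (S.M n (pt k t s) 0 k) s ∧
    HasDerivAt (fun u : ℝ => (S.F^[n] (pt k t u)).2) (S.M n (pt k t s) 1 k) s := by
  have hpt : HasDerivAt (fun u : ℝ => pt k t u) (if k = 0 then ((1 : ℝ), (0 : ℝ)) else (0, 1)) s := by
    unfold pt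
    by_cases hk : k = 0
    · simp only [hk, if_true]
      exact (hasDerivAt_id s).prodMk (hasDerivAt_const s t)
    · simp only [hk, if_false]
      exact (hasDerivAt_const s t).prodMk (hasDerivAt_id s)
  have h1 := (hasFDerivAt_iter h n (pt k t s)).comp_hasDerivAt s hpt
  have h2 : clm (S.M n (pt k t s)) (if k = 0 then ((1 : ℝ), (0 : ℝ)) else (0, 1)) =
      (S.M n (pt k t s) 0 k, S.M n (pt k t s) 1 k) := by
    rw [clm_apply]
    fin_cases k <;> simp
  rw [h2] at h1
  constructor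
  · exact (ContinuousLinearMap.fst ℝ ℝ ℝ).hasFDerivAt.comp_hasDerivAt s h1
  · exact (ContinuousLinearMap.snd ℝ ℝ ℝ).hasFDerivAt.comp_hasDerivAt s h1

private lemma dir11_convex (k : Fin 2) (t r : ℝ) (p : ℝ × ℝ) :
    Convex ℝ {u : ℝ | dist (pt k t u) p ≤ r} := by
  intro u hu v hv x y hx hy hxy
  have h1 : pt k t (x • u + y • v) = x • pt k t u + y • pt k t v := by
    have ht : t = x * t + y * t := by rw [← add_mul, hxy, one_mul]
    unfold pt
    split_ifs
    · ext
      · simp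
      · simpa using ht
    · ext
      · simpa using ht
      · simp
  have h2 := convex_closedBall p r (Metric.mem_closedBall.2 hu) (Metric.mem_closedBall.2 hv) hx hy hxy
  rw [← h1] at h2
  exact Metric.mem_closedBall.1 h2

theorem good_curve (h : Half S B) {n : ℕ} {p : ℝ × ℝ} {k : Fin 2} {m : ℝ}
    (hG : Good S B n p k m) {t s s' : ℝ} (hs : dist (pt k t s) p ≤ B / nn (S.M n p))
    (hs' : dist (pt k t s') p ≤ B / nn (S.M n p)) :
    |(S.F^[n] (pt k t s)).1 - (S.F^[n] (pt k t s')).1 - m * (s - s')| ≤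
        (3 / B) * |m| * |s - s'| ∧
    |(S.F^[n] (pt k t s)).2 - (S.F^[n] (pt k t s')).2| ≤ (1 / (2 * B)) * |m| * |s - s'| := by
  have hconv := dir11_convex k t (B / nn (S.M n p)) p
  constructor
  · have h1 := hconv.norm_image_sub_le_of_norm_hasDerivWithin_le
      (f := fun u : ℝ => (S.F^[n] (pt k t u)).1 - m * u)
      (f' := fun u : ℝ => S.M n (pt k t u) 0 k - m) (C := (3 / B) * |m|) (x := s') (y := s)
      (fun u _ => by
        have h2 := (hasDerivAt_line h n k t u).1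
        have h3 : HasDerivAt (fun u : ℝ => m * u) m u := by
          simpa using (hasDerivAt_id u).const_mul m
        exact (h2.sub h3).hasDerivWithinAt)
      (fun u hu => by
        rw [Real.norm_eq_abs]
        exact (hG.2.2 _ hu).1) hs' hs
    rw [Real.norm_eq_abs, Real.norm_eq_abs] at h1
    refine le_of_eq_of_le ?_ h1
    congr 1
    ring
  · have h1 := hconv.norm_image_sub_le_of_norm_hasDerivWithin_le
      (f := fun u : ℝ => (S.F^[n] (pt k t u)).2)
      (f' := fun u : ℝ => S.M n (pt k t u) 1 k) (C := (1 / (2 * B)) * |m|) (x := s') (y := s)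
      (fun u _ => (hasDerivAt_line h n k t u).2.hasDerivWithinAt)
      (fun u hu => by
        rw [Real.norm_eq_abs]
        exact (hG.2.2 _ hu).2) hs' hs
    rw [Real.norm_eq_abs, Real.norm_eq_abs] at h1
    exact h1

end Pool.Agent.Helper11.FE
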