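import Pool.Agent.Helper11.FE.Dir
import Pool.Agent.Helper18.UC.Curve

/-! Block FE-EXIST: for all labels `t`, `t'` the image at time `n + j` (`j = 0, 1`) of the line with label `t` of the square `Q` crosses the reflected
image at time `n'` (for `S.rev`) of the line with label `t'` of the square `Q'`. Port of `UC/Exist.lean`.

Differences: the primed curve uses `good_curve (S := S.rev) h.bwd`, `S.rev.F = S.G` (rfl), `S.rev.M`. Slope constant `1 / (2 B) ≤ 1/200` instead of `5/K`.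
`j = 1`: UC used the explicit form of the map; here use the field `h.jump` (`x0`, `ℓ`): choose (intermediate value theorem, extent at least 11) an integer `μ` and `σ0, σ1`
with `X σ0 = x0 + μ`, `X σ1 = x0 + μ + ℓ`, between them `X` lies between (monotone), slope at most `1/8`; by `h.jump` the image curve `F (X, Y)` has
`|X₁ - X₁'| ≥ (4/ℓ) |X - X'|` (extent at least `4`) and slope at most `1/8`. `curve_cross` (`UC/Curve.lean`) again. -/

set_option autoImplicit false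
open MeasureTheory Real Set

namespace Pool.Agent.Helper11.FE

open Pool.Agent.Helper18.UC (T2 rep toT nn clm sh sqo pt lab cor idx cell corner nn_nonneg nn_mul
  nn_sub_le nn_add_le abs_entry_le nn_one clm_apply norm_clm_le nn_le_clm curve_cross)

variable {S : Sys} {B : ℝ}

private theorem dist_sqo {c p q : ℝ × ℝ} {s : ℝ} (hq : q ∈ sqo c s) (hp : p ∈ sqo c s) :
    dist q p ≤ s := by
  obtain ⟨⟨h1, h2⟩, h3, h4⟩ := hq
  obtain ⟨⟨h5, h6⟩, h7, h8⟩ := hp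
  rw [Prod.dist_eq, Real.dist_eq, Real.dist_eq]
  refine max_le ?_ ?_ <;> rw [abs_le] <;> constructor <;> linarith

/-- The image of the line with label `t` (the first coordinate grows almost linearly). -/
private theorem line_props (h : Half S B) {n : ℕ} {p : ℝ × ℝ} {k : Fin 2} {m : ℝ}
    (hG : Good S B n p k m) {c : ℝ × ℝ} {s : ℝ} (hs1 : B / (2 * nn (S.M n p)) ≤ s)
    (hs2 : s ≤ B / nn (S.M n p)) (hpc : p ∈ sqo c s) {t : ℝ}
    (ht : t ∈ Ioo (lab k c) (lab k c + s)) :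
    ∃ u0 u1 : ℝ, u0 ≤ u1 ∧ (∀ σ ∈ Icc u0 u1, pt k t σ ∈ sqo c s) ∧
      (∀ σ ∈ Icc u0 u1, ∀ σ' ∈ Icc u0 u1,
        |(S.F^[n] (pt k t σ)).1 - (S.F^[n] (pt k t σ')).1 - m * (σ - σ')| ≤
          (3 / 100) * (|m| * |σ - σ'|)) ∧
      (∀ σ ∈ Icc u0 u1, ∀ σ' ∈ Icc u0 u1,
        |(S.F^[n] (pt k t σ)).2 - (S.F^[n] (pt k t σ')).2| ≤
          (1 / 8) * |(S.F^[n] (pt k t σ)).1 - (S.F^[n] (pt k t σ')).1|) ∧
      11 ≤ |(S.F^[n] (pt k t u1)).1 - (S.F^[n] (pt k t u0)).1| := by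
  have hL : 2 ≤ nn (S.M n p) := two_le_nn h n p
  have hB := h.hB
  set Λ := nn (S.M n p) with hΛ
  have hLp : 0 < Λ := by linarith
  have hs0 : 0 < s := lt_of_lt_of_le (by positivity) hs1
  have hBp : 0 < B := by linarith
  obtain ⟨hm1, hm2, -⟩ := id hG
  rw [← hΛ] at hm1 hm2
  have hmem : ∀ σ ∈ Icc (cor k c) (cor k c + s / 2), pt k t σ ∈ sqo c s := by
    intro σ hσ
    rw [Pool.Agent.Helper18.UC.pt_mem_sqo_iff]
    exact ⟨⟨ht.1.le, ht.2⟩, hσ.1, by linarith [hσ.2]⟩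
  have hdist : ∀ σ ∈ Icc (cor k c) (cor k c + s / 2), dist (pt k t σ) p ≤ B / nn (S.M n p) :=
    fun σ hσ => (dist_sqo (hmem σ hσ) hpc).trans hs2
  have hA : ∀ σ ∈ Icc (cor k c) (cor k c + s / 2), ∀ σ' ∈ Icc (cor k c) (cor k c + s / 2),
      |(S.F^[n] (pt k t σ)).1 - (S.F^[n] (pt k t σ')).1 - m * (σ - σ')| ≤
          (3 / 100) * (|m| * |σ - σ'|) := by
    intro σ hσ σ' hσ'
    have h1 := (good_curve h hG (hdist σ hσ) (hdist σ' hσ')).1
    have h2 : 3 / B ≤ 3 / 100 := by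
      apply div_le_div_of_nonneg_left (by norm_num) (by norm_num) hB
    refine h1.trans ?_
    rw [mul_assoc]
    exact mul_le_mul_of_nonneg_right h2 (by positivity)
  have hA' : ∀ σ ∈ Icc (cor k c) (cor k c + s / 2), ∀ σ' ∈ Icc (cor k c) (cor k c + s / 2),
      (97 / 100) * (|m| * |σ - σ'|) ≤ |(S.F^[n] (pt k t σ)).1 - (S.F^[n] (pt k t σ')).1| := by
    intro σ hσ σ' hσ'
    have h1 := hA σ hσ σ' hσ'
    have h2 : |m * (σ - σ')| = |m| * |σ - σ'| := abs_mul _ _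
    have h3 := abs_sub_abs_le_abs_sub (m * (σ - σ'))
      ((S.F^[n] (pt k t σ)).1 - (S.F^[n] (pt k t σ')).1)
    rw [abs_sub_comm (m * (σ - σ'))] at h3
    rw [h2] at h3
    linarith
  refine ⟨cor k c, cor k c + s / 2, by linarith, hmem, hA, ?_, ?_⟩
  · intro σ hσ σ' hσ'
    have h1 := (good_curve h hG (hdist σ hσ) (hdist σ' hσ')).2
    have h2 : 1 / (2 * B) ≤ 1 / 200 := by
      apply div_le_div_of_nonneg_left (by norm_num) (by norm_num) (by linarith)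
    have h3 := hA' σ hσ σ' hσ'
    have h4 : 0 ≤ |m| * |σ - σ'| := by positivity
    have h5 : (1 / (2 * B)) * |m| * |σ - σ'| ≤ 1 / 200 * (|m| * |σ - σ'|) := by
      rw [mul_assoc]
      exact mul_le_mul_of_nonneg_right h2 h4
    linarith
  · have h1 := hA' (cor k c + s / 2) ⟨by linarith, le_rfl⟩ (cor k c) ⟨le_rfl, by linarith⟩
    have h2 : |cor k c + s / 2 - cor k c| = s / 2 := by
      rw [add_sub_cancel_left, abs_of_pos (by linarith)]
    rw [h2] at h1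
    have h3 : B / (2 * Λ) * Λ = B / 2 := by field_simp
    have h4 : B / 2 ≤ s * Λ := by
      rw [← h3]
      exact mul_le_mul_of_nonneg_right hs1 hLp.le
    have h5 : (49 / 100) * Λ * (s / 2) ≤ |m| * (s / 2) :=
      mul_le_mul_of_nonneg_right hm1 (by linarith)
    nlinarith

private theorem line_cont (h : Half S B) (n : ℕ) (k : Fin 2) (t : ℝ) :
    Continuous (fun u : ℝ => (S.F^[n] (pt k t u)).1) ∧
    Continuous (fun u : ℝ => (S.F^[n] (pt k t u)).2) :=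
  ⟨continuous_iff_continuousAt.2 fun s => (hasDerivAt_line h n k t s).1.continuousAt,
    continuous_iff_continuousAt.2 fun s => (hasDerivAt_line h n k t s).2.continuousAt⟩

theorem cross_exists (h : S.Ok B) {n n' : ℕ}
    {p p' : ℝ × ℝ} {k k' : Fin 2} {m m' : ℝ}
    (hG : Good S B n p k m) (hG' : Good S.rev B n' p' k' m')
    {c c' : ℝ × ℝ} {s s' : ℝ} (hs1 : B / (2 * nn (S.M n p)) ≤ s) (hs2 : s ≤ B / nn (S.M n p))
    (hpc : p ∈ sqo c s) (hs1' : B / (2 * nn (S.rev.M n' p')) ≤ s') (hs2' : s' ≤ B / nn (S.rev.M n' p'))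
    (hpc' : p' ∈ sqo c' s') {j : ℕ} (hj : j ≤ 1) {t t' : ℝ}
    (ht : t ∈ Ioo (lab k c) (lab k c + s)) (ht' : t' ∈ Ioo (lab k' c') (lab k' c' + s')) :
    ∃ σ σ' : ℝ, pt k t σ ∈ sqo c s ∧ pt k' t' σ' ∈ sqo c' s' ∧
      ∃ u w : ℤ, S.F^[n + j] (pt k t σ) = sh (Prod.swap (S.G^[n'] (pt k' t' σ'))) u w := by
  obtain ⟨u0, u1, hu, hmem, hA, hsl, hext⟩ := line_props h.fwd hG hs1 hs2 hpc ht
  obtain ⟨r0, r1, hr, hmem', hA', hsl', hext'⟩ := line_props h.bwd hG' hs1' hs2' hpc' ht'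
  obtain ⟨hcX, hcY⟩ := line_cont h.fwd n k t
  obtain ⟨hcX', hcY'⟩ := line_cont h.bwd n' k' t'
  have hj' : j = 0 ∨ j = 1 := by omega
  rcases hj' with rfl | rfl
  · obtain ⟨σ, hσ, r, hr', u, w, h1, h2⟩ := curve_cross hu hr hcX.continuousOn hcY.continuousOn
      hcY'.continuousOn hcX'.continuousOn (by linarith) hsl (by linarith) hsl'
    exact ⟨σ, r, hmem σ hσ, hmem' r hr', u, w, Prod.ext h1 h2⟩
  · -- one more iterate
    obtain ⟨hcX1, hcY1⟩ := line_cont h.fwd (n + 1) k t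
    set X : ℝ → ℝ := fun u => (S.F^[n] (pt k t u)).1 with hXdef
    set Y : ℝ → ℝ := fun u => (S.F^[n] (pt k t u)).2 with hYdef
    set X1 : ℝ → ℝ := fun u => (S.F^[n + 1] (pt k t u)).1 with hX1def
    set Y1 : ℝ → ℝ := fun u => (S.F^[n + 1] (pt k t u)).2 with hY1def
    have hF : ∀ u, S.F^[n + 1] (pt k t u) = S.F (S.F^[n] (pt k t u)) := by
      intro u
      rw [Function.iterate_succ_apply']
    -- the final step on a subinterval
    obtain ⟨x0, ℓ, hℓ, hℓ1, hjump⟩ := h.jump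
    have key : ∀ (μ : ℤ) (a0 a1 : ℝ), a0 ≤ a1 → u0 ≤ a0 → a1 ≤ u1 →
        (∀ σ ∈ Icc a0 a1, X σ ∈ Icc (x0 + μ) (x0 + μ + ℓ)) → |X a1 - X a0| = ℓ →
        ∃ σ σ' : ℝ, pt k t σ ∈ sqo c s ∧ pt k' t' σ' ∈ sqo c' s' ∧
          ∃ u w : ℤ, S.F^[n + 1] (pt k t σ) =
            sh (Prod.swap (S.G^[n'] (pt k' t' σ'))) u w := by
      intro μ a0 a1 h01 h0 h1 hX hext1
      have hexp : ∀ σ ∈ Icc a0 a1, ∀ σ' ∈ Icc a0 a1, 4 / ℓ * |X σ - X σ'| ≤ |X1 σ - X1 σ'| ∧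
          |Y1 σ - Y1 σ'| ≤ 1 / 8 * |X1 σ - X1 σ'| := by
        intro σ hσ σ' hσ'
        have e3 := hsl σ ⟨h0.trans hσ.1, hσ.2.trans h1⟩ σ' ⟨h0.trans hσ'.1, hσ'.2.trans h1⟩
        have e4 := hjump μ (S.F^[n] (pt k t σ)) (S.F^[n] (pt k t σ')) (hX σ hσ) (hX σ' hσ') e3
        simp only [hX1def, hY1def, hF]
        exact e4
      obtain ⟨σ, hσ, r, hr', u, w, e1, e2⟩ := curve_cross h01 hr hcX1.continuousOn
        hcY1.continuousOn hcY'.continuousOn hcX'.continuousOn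
        (by
          have e1 := (hexp a1 ⟨h01, le_rfl⟩ a0 ⟨le_rfl, h01⟩).1
          rw [hext1, div_mul_cancel₀ _ hℓ.ne'] at e1
          exact e1)
        (fun σ hσ σ' hσ' => (hexp σ hσ σ' hσ').2)
        (by linarith) hsl'
      exact ⟨σ, r, hmem σ ⟨h0.trans hσ.1, hσ.2.trans h1⟩, hmem' r hr', u, w, Prod.ext e1 e2⟩
    -- monotonicity
    have hA2 : ∀ σ ∈ Icc u0 u1, ∀ σ' ∈ Icc u0 u1,
        |X σ - X σ' - m * (σ - σ')| ≤ (3 / 100) * (|m| * |σ - σ'|) := hA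
    have hext2 : 11 ≤ |X u1 - X u0| := hext
    set μ : ℤ := round ((X u0 + X u1) / 2 - x0) with hμdef
    have hμ : |(X u0 + X u1) / 2 - x0 - μ| ≤ 1 / 2 := abs_sub_round _
    rw [abs_le] at hμ
    rcases le_total 0 m with hm | hm
    · have hmono : ∀ σ ∈ Icc u0 u1, ∀ σ' ∈ Icc u0 u1, σ' ≤ σ → X σ' ≤ X σ := by
        intro σ hσ σ' hσ' hle
        have e1 := hA2 σ hσ σ' hσ'
        rw [abs_of_nonneg hm, abs_of_nonneg (sub_nonneg.2 hle), abs_le] at e1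
        have e2 : 0 ≤ m * (σ - σ') := mul_nonneg hm (sub_nonneg.2 hle)
        linarith [e1.1]
      have e0 := hmono u1 ⟨hu, le_rfl⟩ u0 ⟨le_rfl, hu⟩ hu
      rw [abs_of_nonneg (sub_nonneg.2 e0)] at hext2
      have hivt := intermediate_value_Icc hu hcX.continuousOn
      obtain ⟨σ0, hσ0, hσ0'⟩ := hivt (show (x0 + μ : ℝ) ∈ Icc (X u0) (X u1) from
        ⟨by linarith [hμ.1, hμ.2], by linarith [hμ.1, hμ.2]⟩)
      obtain ⟨σ1, hσ1, hσ1'⟩ := hivt (show (x0 + μ + ℓ : ℝ) ∈ Icc (X u0) (X u1) from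
        ⟨by linarith [hμ.1, hμ.2], by linarith [hμ.1, hμ.2]⟩)
      have h01 : σ0 ≤ σ1 := by
        by_contra hcon
        have := hmono σ0 hσ0 σ1 hσ1 (not_le.1 hcon).le
        change X σ1 ≤ X σ0 at this
        change X σ0 = _ at hσ0'
        change X σ1 = _ at hσ1'
        linarith
      refine key μ σ0 σ1 h01 hσ0.1 hσ1.2 ?_ ?_
      · intro σ hσ
        have hσJ : σ ∈ Icc u0 u1 := ⟨hσ0.1.trans hσ.1, hσ.2.trans hσ1.2⟩
        have e1 := hmono σ hσJ σ0 hσ0 hσ.1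
        have e2 := hmono σ1 hσ1 σ hσJ hσ.2
        change X σ0 = _ at hσ0'
        change X σ1 = _ at hσ1'
        constructor <;> linarith
      · change X σ0 = _ at hσ0'
        change X σ1 = _ at hσ1'
        rw [hσ0', hσ1', abs_of_nonneg] <;> linarith
    · have hmono : ∀ σ ∈ Icc u0 u1, ∀ σ' ∈ Icc u0 u1, σ' ≤ σ → X σ ≤ X σ' := by
        intro σ hσ σ' hσ' hle
        have e1 := hA2 σ hσ σ' hσ'
        rw [abs_of_nonpos hm, abs_of_nonneg (sub_nonneg.2 hle), abs_le] at e1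
        have e2 : m * (σ - σ') ≤ 0 := mul_nonpos_of_nonpos_of_nonneg hm (sub_nonneg.2 hle)
        linarith [e1.2]
      have e0 := hmono u1 ⟨hu, le_rfl⟩ u0 ⟨le_rfl, hu⟩ hu
      rw [abs_of_nonpos (sub_nonpos.2 e0)] at hext2
      have hivt := intermediate_value_Icc' hu hcX.continuousOn
      obtain ⟨σ0, hσ0, hσ0'⟩ := hivt (show (x0 + μ : ℝ) ∈ Icc (X u1) (X u0) from
        ⟨by linarith [hμ.1, hμ.2], by linarith [hμ.1, hμ.2]⟩)
      obtain ⟨σ1, hσ1, hσ1'⟩ := hivt (show (x0 + μ + ℓ : ℝ) ∈ Icc (X u1) (X u0) from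
        ⟨by linarith [hμ.1, hμ.2], by linarith [hμ.1, hμ.2]⟩)
      have h01 : σ1 ≤ σ0 := by
        by_contra hcon
        have := hmono σ1 hσ1 σ0 hσ0 (not_le.1 hcon).le
        change X σ1 ≤ X σ0 at this
        change X σ0 = _ at hσ0'
        change X σ1 = _ at hσ1'
        linarith
      refine key μ σ1 σ0 h01 hσ1.1 hσ0.2 ?_ ?_
      · intro σ hσ
        have hσJ : σ ∈ Icc u0 u1 := ⟨hσ1.1.trans hσ.1, hσ.2.trans hσ0.2⟩
        have e1 := hmono σ hσJ σ1 hσ1 hσ.1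
        have e2 := hmono σ0 hσ0 σ hσJ hσ.2
        change X σ0 = _ at hσ0'
        change X σ1 = _ at hσ1'
        constructor <;> linarith
      · change X σ0 = _ at hσ0'
        change X σ1 = _ at hσ1'
        rw [hσ0', hσ1', abs_of_nonpos] <;> linarith

end Pool.Agent.Helper11.FE
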