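import Pool.Agent.Helper11.FE.Inst
import Pool.Agent.Helper11.FE.Comp

/-! File FE-FIN (helper11): the component theorem for twist maps near the standard map with a generating function of class `C^(2+s)`. -/

set_option autoImplicit false
open MeasureTheory Real Set Filter Topology

namespace Pool.Agent.Helper11.FE

open Pool.Agent.Helper18.UC (T2 rep toT nn clm sh sqo pt lab cor idx cell corner nn_nonneg nn_mul
  nn_sub_le nn_add_le abs_entry_le nn_one clm_apply norm_clm_le nn_le_clm)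
open Pool.Agent.Helper18.FD (Gen nx Fl alf bet vee mat DF)

variable {a s : ℝ} {φ : Gen}

theorem fd_component {s : ℝ} (hs : 0 < s) (hs1 : s ≤ 1) : ∃ A : ℝ, 100 ≤ A ∧ ∀ a : ℝ, A ≤ |a| → ∀ φ : Gen,
    φ.Ok (1 / |a|) → Hoe a φ s → ∀ T : T2 → T2, (∀ q, T (toT q) = toT (Fl a φ q)) →
    ∃ lam : T2 → ℝ, Measurable lam ∧ (∀ z, 0 ≤ lam z ∧ lam z ≤ Real.log |a| + 3) ∧
      (∀ᵐ z, lam (T z) = lam z) ∧
      (∀ᵐ q : ℝ × ℝ, Tendsto (fun n : ℕ => Real.log ‖fderiv ℝ ((Fl a φ)^[n]) q‖ / n) atTop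
        (𝓝 (lam (toT q)))) ∧
      Tendsto (fun n : ℕ => (∫ z : T2, Real.log (nn (Pool.Agent.Helper18.FD.MF a φ n (rep z)))) / n) atTop
        (𝓝 (∫ z : T2, lam z)) ∧
      (∀ (ξ : ℂ) (f : T2 → ℂ), Measurable f →
        (∀ᵐ z, 1 / (1 + s) * Real.log |a| + 17 < lam z → f (T z) = ξ * f z) →
        ∃ w : ℂ, ∀ᵐ z, 1 / (1 + s) * Real.log |a| + 17 < lam z → f z = w) ∧
      (∃ L0 : ℝ, ∀ᵐ z, 1 / (1 + s) * Real.log |a| + 17 < lam z → lam z = L0) ∧
      (s / (1 + s) * Real.log |a| - 17) * volume.real {z | lam z ≤ 1 / (1 + s) * Real.log |a| + 17} ≤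
        Real.log |a| + 3 - ∫ z : T2, lam z := by
  obtain ⟨A1, hA1, h1⟩ := kk_le hs hs1
  obtain ⟨A2, hA2, h2⟩ := fdSys_ok hs hs1
  refine ⟨max A1 A2, hA1.trans (le_max_left _ _), ?_⟩
  intro a ha φ hφ hH T hT
  have ha1 : A1 ≤ |a| := (le_max_left _ _).trans ha
  have ha2 : A2 ≤ |a| := (le_max_right _ _).trans ha
  have ha3 : 100 ≤ |a| := hA1.trans ha1
  have ha0 : 0 < |a| := by linarith
  have hp : (0:ℝ) < 1 + s := by linarith
  obtain ⟨k1, k2, k3⟩ := h1 a φ ha1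
  have hOk := h2 a φ ha2 hφ hH
  have hIs := fdSys_isT (s := s) ha3 hφ hT
  obtain ⟨lam, hlm, hbd, hinv, hlim, hmean, hc⟩ := component hOk hIs
  have hL : Real.log (fdSys a φ s).L = Real.log 20 + Real.log |a| := by
    show Real.log (20 * |a|) = _
    rw [Real.log_mul (by norm_num) ha0.ne']
  have h20 : Real.log 20 ≤ 3 := by
    rw [Real.log_le_iff_le_exp (by norm_num)]
    have h3 := Real.exp_one_gt_d9
    have h4 : Real.exp 3 = Real.exp 1 ^ 3 := by rw [← Real.exp_nat_mul]; norm_num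
    rw [h4]
    calc (20 : ℝ) ≤ (2.718 : ℝ) ^ 3 := by norm_num
      _ ≤ Real.exp 1 ^ 3 := pow_le_pow_left₀ (by norm_num) (by linarith) 3
  have h200 : 0 ≤ Real.log 20 := Real.log_nonneg (by norm_num)
  obtain ⟨m1, m2, m3⟩ := hc (1 / (1 + s) * Real.log |a| + 17) (by linarith) k3
  refine ⟨lam, hlm, ?_, hinv, hlim, ?_, m1, m2, ?_⟩
  · intro z
    obtain ⟨b1, b2⟩ := hbd z
    rw [hL] at b2
    exact ⟨b1, by linarith⟩
  · simp only [M_eq] at hmean
    exact hmean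
  · rw [hL] at m3
    have hv : 0 ≤ volume.real {z | lam z ≤ 1 / (1 + s) * Real.log |a| + 17} := measureReal_nonneg
    have e1 : s / (1 + s) * Real.log |a| = Real.log |a| - 1 / (1 + s) * Real.log |a| := by
      field_simp
      ring
    have h5 : s / (1 + s) * Real.log |a| - 17 ≤
        Real.log 20 + Real.log |a| - (1 / (1 + s) * Real.log |a| + 17) := by
      rw [e1]
      linarith
    have h6 := mul_le_mul_of_nonneg_right h5 hv
    linarith

end Pool.Agent.Helper11.FE
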