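import Pool.Agent.Helper11.FE.Map

/-! Block FE-HOLF: size, Hoelder bound, cone property and expansion (jump) of `Fl`, `|a| ≥ 100`, `η = 1/|a|`, `FD.bet_bd`: `|b - 1| ≤ 1/100`, `|v| ≤ 1/|a|`, `|α| ≤ 6.4 |a|`.

`bdF`: `|α/b| ≤ 6.5 |a|`, `|1/b| ≤ 1.02`, `|b - v α/b| ≤ 1.01 + 6.5`, `|v/b| ≤ .02`: sum `≤ 6.6 |a| ≤ 7 |a|`.
`nx_lip`: `(1 - η) |X - X'| ≤ |w - w'| + η |x - x'|`, `|w - w'| ≤ (2 + 2π|a|) |x - x'| + |p - p'|`: `|X - X'| ≤ 7 |a| D`, `D = dist q q'`.
`holF`: if `D ≥ 1`: `nn (..) ≤ 14 |a| ≤ 160 |a| D^s`. If `D ≤ 1`: `D ≤ D^s`; the pairs `(x, X)` have distance at most `7 |a| D` (`7|a| ≥ 1`), so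
`|Δφij| ≤ (1/|a|) (7 |a| D)^s ≤ (1/|a|) 7 |a| D^s = 7 D^s`. `|Δα| ≤ 4π² |a| D + 7 D^s ≤ (39.6 |a| + 7) D^s`, `|Δb|, |Δv| ≤ 7 D^s`, `|Δ(1/b)| ≤ 7.2 D^s`,
`|Δ(α/b)| ≤ 1.02 |Δα| + 6.4 |a| 7.2 D^s ≤ (87 |a| + 8) D^s`, `|Δ(b - v α/b)| ≤ 7 D^s + 7 · 6.5 |a| D^s + (1/|a|)(87 |a| + 8) D^s ≤ (46 |a| + 95) D^s`, `|Δ(v/b)| ≤ 8 D^s`;
sum `≤ (133 |a| + 120) D^s ≤ 160 |a| D^s` for `|a| ≥ 100`.
`coneF`: with `r` = first component of `DF (u, v)`: second component `= b u - vee r`.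
`jumpF`: on `|x - μ/2| ≤ 1/8` the cosine of `2πx` has constant sign and absolute value `≥ √2/2`, so `|sin 2πx - sin 2πx'| ≥ √2 π |x - x'| ≥ 4.4 |x - x'|` (mean value
theorem, or `strictMono` of `sin 2πx - 4.4 x` up to sign); `|w - w'| ≥ (4.4 |a| - 2 - 1/8) |x - x'|`, `(1 + η) |X - X'| ≥ |w - w'| - η |x - x'|`, so `|X - X'| ≥ 4 |a| |x - x'| ≥ 16 |x - x'|`
(even `≥ 400 |x - x'|`), and `|P - P'| ≤ (1 + η)|x - x'| + η |X - X'| ≤ (1/100 + 1/100 + ..) |X - X'|`. -/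

set_option autoImplicit false
open MeasureTheory Real Set

namespace Pool.Agent.Helper11.FE

open Pool.Agent.Helper18.UC (T2 rep toT nn clm sh sqo pt lab cor idx cell corner nn_nonneg nn_mul
  nn_sub_le nn_add_le abs_entry_le nn_one clm_apply norm_clm_le nn_le_clm)
open Pool.Agent.Helper18.FD (Gen nx Fl alf bet vee mat DF)

private lemma hf_num {A α b v : ℝ} (hA : 100 ≤ A) (hb : |b - 1| ≤ 1 / A) (hα : |α| ≤ 32 / 5 * A) (hv : |v| ≤ 1 / A) :
    99 / 100 ≤ b ∧ b ≤ 101 / 100 ∧ |α / b| ≤ 13 / 2 * A ∧ |1 / b| ≤ 51 / 50 ∧ |v| ≤ 1 / 100 ∧ |v| * A ≤ 1 := by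
  have hA0 : 0 < A := by linarith
  have h1 : 1 / A ≤ 1 / 100 := one_div_le_one_div_of_le (by norm_num) hA
  have h2 := abs_le.1 (hb.trans h1)
  have hb0 : 99 / 100 ≤ b := by linarith [h2.1]
  have hbp : 0 < b := by linarith
  refine ⟨hb0, by linarith [h2.2], ?_, ?_, hv.trans h1, ?_⟩
  · rw [abs_div, abs_of_pos hbp, div_le_iff₀ hbp]
    have h3 : 13 / 2 * A * (99 / 100) ≤ 13 / 2 * A * b := mul_le_mul_of_nonneg_left hb0 (by positivity)
    linarith
  · rw [abs_of_pos (by positivity), div_le_iff₀ hbp]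
    linarith
  · calc |v| * A ≤ 1 / A * A := mul_le_mul_of_nonneg_right hv hA0.le
      _ = 1 := by field_simp

private lemma hf_mul {x y c d : ℝ} (hx : |x| ≤ c) (hy : |y| ≤ d) : |x * y| ≤ c * d := by
  rw [abs_mul]
  exact mul_le_mul hx hy (abs_nonneg _) ((abs_nonneg _).trans hx)

private lemma hf_diff {A E α b v α' b' v' : ℝ} (hA : 100 ≤ A) (hE : 0 ≤ E)
    (hb : |b - 1| ≤ 1 / A) (hα : |α| ≤ 32 / 5 * A) (hv : |v| ≤ 1 / A)
    (hb' : |b' - 1| ≤ 1 / A) (hα' : |α'| ≤ 32 / 5 * A) (hv' : |v'| ≤ 1 / A)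
    (h1 : |α - α'| ≤ (79 / 2 * A + 7) * E) (h2 : |b - b'| ≤ 7 * E) (h3 : |v - v'| ≤ 7 * E) :
    |α / b - α' / b'| + |-1 / b - -1 / b'| + |(b - v * (α / b)) - (b' - v' * (α' / b'))| + |v / b - v' / b'| ≤
      160 * A * E := by
  obtain ⟨b0, b1, x1, x2, x3, x4⟩ := hf_num hA hb hα hv
  obtain ⟨b0', b1', y1, y2, y3, y4⟩ := hf_num hA hb' hα' hv'
  have hA0 : 0 < A := by linarith
  have hbp : 0 < b := by linarith
  have hbp' : 0 < b' := by linarith
  have k1 : |1 / b - 1 / b'| ≤ 73 / 10 * E := by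
    have e : 1 / b - 1 / b' = (b - b') * (1 / b * (1 / b')) * (-1) := by
      field_simp
      ring
    rw [e, abs_mul]
    have h4 := hf_mul h2 (hf_mul x2 y2)
    have h5 : |(-1 : ℝ)| = 1 := by norm_num
    rw [h5, mul_one]
    nlinarith
  have k2 : |α / b - α' / b'| ≤ (871 / 10 * A + 8) * E := by
    have e : α / b - α' / b' = (α - α') * (1 / b) + α' * (1 / b - 1 / b') := by
      field_simp
      ring
    rw [e]
    have h4 := hf_mul h1 x2
    have h5 := hf_mul hα' k1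
    have h6 := abs_add_le ((α - α') * (1 / b)) (α' * (1 / b - 1 / b'))
    nlinarith [mul_nonneg hA0.le hE]
  have k3 : |(b - v * (α / b)) - (b' - v' * (α' / b'))| ≤ (91 / 2 * A + 943 / 10) * E := by
    have e : (b - v * (α / b)) - (b' - v' * (α' / b')) =
        (b - b') - (v - v') * (α / b) - v' * (α / b - α' / b') := by ring
    rw [e]
    have h4 := hf_mul h3 x1
    have h5 : |v' * (α / b - α' / b')| ≤ (872 / 10) * E := by
      rw [abs_mul]
      have h6 : |v'| * |α / b - α' / b'| ≤ |v'| * ((871 / 10 * A + 8) * E) :=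
        mul_le_mul_of_nonneg_left k2 (abs_nonneg _)
      have h7 : |v'| * ((871 / 10 * A + 8) * E) = (871 / 10 * (|v'| * A) + 8 * |v'|) * E := by ring
      have h8 : 871 / 10 * (|v'| * A) + 8 * |v'| ≤ 872 / 10 := by linarith
      have h9 := mul_le_mul_of_nonneg_right h8 hE
      linarith
    have h6 := abs_sub ((b - b') - (v - v') * (α / b)) (v' * (α / b - α' / b'))
    have h7 := abs_sub (b - b') ((v - v') * (α / b))
    have h8 : 7 * E * (13 / 2 * A) = 91 / 2 * A * E := by ring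
    rw [h8] at h4
    have h9 : (91 / 2 * A + 943 / 10) * E = 91 / 2 * A * E + 943 / 10 * E := by ring
    rw [h9]
    linarith
  have k4 : |v / b - v' / b'| ≤ 73 / 10 * E := by
    have e : v / b - v' / b' = (v - v') * (1 / b) + v' * (1 / b - 1 / b') := by
      field_simp
      ring
    rw [e]
    have h4 := hf_mul h3 x2
    have h5 := hf_mul y3 k1
    have h6 := abs_add_le ((v - v') * (1 / b)) (v' * (1 / b - 1 / b'))
    linarith
  have k5 : |-1 / b - -1 / b'| ≤ 73 / 10 * E := by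
    have e : -1 / b - -1 / b' = -(1 / b - 1 / b') := by ring
    rw [e, abs_neg]
    exact k1
  have h10 : 100 * E ≤ A * E := mul_le_mul_of_nonneg_right hA hE
  have e1 : (871 / 10 * A + 8) * E = 871 / 10 * (A * E) + 8 * E := by ring
  have e2 : (91 / 2 * A + 943 / 10) * E = 91 / 2 * (A * E) + 943 / 10 * E := by ring
  have e3 : 160 * A * E = 160 * (A * E) := by ring
  rw [e1] at k2
  rw [e2] at k3
  rw [e3]
  linarith

section

variable {a : ℝ} {φ : Gen}

private lemma hf_eta (ha : 100 ≤ |a|) : 1 / |a| ≤ 1 / 100 := one_div_le_one_div_of_le (by norm_num) ha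

private lemma hf_half (ha : 100 ≤ |a|) : 1 / |a| ≤ 1 / 2 := (hf_eta ha).trans (by norm_num)

private lemma hf_alf (ha : 100 ≤ |a|) (hφ : φ.Ok (1 / |a|)) (q : ℝ × ℝ) : |alf a φ q| ≤ 32 / 5 * |a| := by
  have h1 := (Pool.Agent.Helper18.FD.bet_bd (a := a) hφ q).2.2
  have h2 : |2 * π * a * Real.cos (2 * π * q.1)| ≤ 2 * π * |a| := by
    rw [abs_mul, abs_mul, abs_of_pos (by positivity : (0:ℝ) < 2 * π)]
    exact mul_le_of_le_one_right (by positivity) (Real.abs_cos_le_one _)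
  have h3 := hf_eta ha
  have h4 := abs_add_le (alf a φ q - (2 + 2 * π * a * Real.cos (2 * π * q.1))) (2 + 2 * π * a * Real.cos (2 * π * q.1))
  rw [sub_add_cancel] at h4
  have h5 := abs_add_le 2 (2 * π * a * Real.cos (2 * π * q.1))
  have h6 : |(2:ℝ)| = 2 := by norm_num
  have hπ : π < 3.1416 := Real.pi_lt_d4
  have h7 : 2 * π * |a| ≤ 2 * 3.1416 * |a| := by
    refine mul_le_mul_of_nonneg_right ?_ (abs_nonneg _)
    linarith
  norm_num at h7
  linarith

private lemma hf_all (ha : 100 ≤ |a|) (hφ : φ.Ok (1 / |a|)) (q : ℝ × ℝ) :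
    |bet a φ q - 1| ≤ 1 / |a| ∧ |alf a φ q| ≤ 32 / 5 * |a| ∧ |vee a φ q| ≤ 1 / |a| :=
  ⟨(Pool.Agent.Helper18.FD.bet_bd (a := a) hφ q).1, hf_alf ha hφ q, (Pool.Agent.Helper18.FD.bet_bd (a := a) hφ q).2.1⟩

private lemma hf_w (ha : 100 ≤ |a|) (x x' p p' : ℝ) :
    |(2 * x + a * Real.sin (2 * π * x) - p) - (2 * x' + a * Real.sin (2 * π * x') - p')| ≤
      (2 + 2 * π * |a|) * |x - x'| + |p - p'| := by
  have h1 : |Real.sin (2 * π * x) - Real.sin (2 * π * x')| ≤ 2 * π * |x - x'| := by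
    refine (Real.abs_sin_sub_sin_le _ _).trans (le_of_eq ?_)
    rw [← mul_sub, abs_mul, abs_of_pos (by positivity : (0:ℝ) < 2 * π)]
  have e : (2 * x + a * Real.sin (2 * π * x) - p) - (2 * x' + a * Real.sin (2 * π * x') - p') =
      (2 * (x - x') + a * (Real.sin (2 * π * x) - Real.sin (2 * π * x'))) - (p - p') := by ring
  rw [e]
  have h2 := abs_sub (2 * (x - x') + a * (Real.sin (2 * π * x) - Real.sin (2 * π * x'))) (p - p')
  have h3 := abs_add_le (2 * (x - x')) (a * (Real.sin (2 * π * x) - Real.sin (2 * π * x')))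
  have h4 : |2 * (x - x')| = 2 * |x - x'| := by
    rw [abs_mul]
    norm_num
  have h5 : |a * (Real.sin (2 * π * x) - Real.sin (2 * π * x'))| ≤ |a| * (2 * π * |x - x'|) := by
    rw [abs_mul]
    exact mul_le_mul_of_nonneg_left h1 (abs_nonneg _)
  have h6 : (2 + 2 * π * |a|) * |x - x'| = 2 * |x - x'| + |a| * (2 * π * |x - x'|) := by ring
  rw [h6]
  linarith

/-- the two defining equations, compared at the first point -/
private lemma hf_cmp (ha : 100 ≤ |a|) (hφ : φ.Ok (1 / |a|)) (q q' : ℝ × ℝ) :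
    ∃ w δ : ℝ, w = (2 * q.1 + a * Real.sin (2 * π * q.1) - q.2) - (2 * q'.1 + a * Real.sin (2 * π * q'.1) - q'.2) ∧
      |δ| ≤ 1 / |a| * |q.1 - q'.1| ∧
      (1 - 1 / |a|) * |nx a φ q - nx a φ q'| ≤ |w + δ| ∧ |w + δ| ≤ (1 + 1 / |a|) * |nx a φ q - nx a φ q'| := by
  have h1 := Pool.Agent.Helper18.FD.nx_spec (a := a) (hf_half ha) hφ q
  have h2 := Pool.Agent.Helper18.FD.nx_spec (a := a) (hf_half ha) hφ q'
  have h3 := Pool.Agent.Helper18.FD.A_bilip (hf_half ha) hφ q.1 (nx a φ q) (nx a φ q')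
  have h4 := (Pool.Agent.Helper18.FD.f_lip hφ q.1 q'.1 (nx a φ q') (nx a φ q')).1
  rw [sub_self (nx a φ q'), abs_zero, mul_zero, add_zero] at h4
  refine ⟨_, φ.f1 q.1 (nx a φ q') - φ.f1 q'.1 (nx a φ q'), rfl, h4, ?_⟩
  have e : (nx a φ q - φ.f1 q.1 (nx a φ q)) - (nx a φ q' - φ.f1 q.1 (nx a φ q')) =
      (2 * q.1 + a * Real.sin (2 * π * q.1) - q.2) - (2 * q'.1 + a * Real.sin (2 * π * q'.1) - q'.2) +
        (φ.f1 q.1 (nx a φ q') - φ.f1 q'.1 (nx a φ q')) := by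
    rw [← h1, ← h2]
    ring
  rw [e] at h3
  exact h3

end

variable {a s : ℝ} {φ : Gen}

theorem bdF (ha : 100 ≤ |a|) (hφ : φ.Ok (1 / |a|)) (q : ℝ × ℝ) : nn (DF a φ q) ≤ 7 * |a| := by
  obtain ⟨hb, hα, hv⟩ := hf_all ha hφ q
  obtain ⟨b0, b1, x1, x2, x3, x4⟩ := hf_num ha hb hα hv
  have hbp : 0 < bet a φ q := by linarith
  unfold nn DF mat
  simp only [Matrix.of_apply, Matrix.cons_val', Matrix.cons_val_zero, Matrix.cons_val_one, Matrix.cons_val_fin_one]
  have k1 : |-1 / bet a φ q| ≤ 51 / 50 := by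
    rw [neg_div, abs_neg]
    exact x2
  have k2 : |bet a φ q - vee a φ q * (alf a φ q / bet a φ q)| ≤ 101 / 100 + 13 / 2 := by
    have h1 := abs_sub (bet a φ q) (vee a φ q * (alf a φ q / bet a φ q))
    rw [abs_of_pos hbp] at h1
    have h2 : |vee a φ q * (alf a φ q / bet a φ q)| ≤ 13 / 2 := by
      rw [abs_mul]
      have h3 : |vee a φ q| * |alf a φ q / bet a φ q| ≤ |vee a φ q| * (13 / 2 * |a|) :=
        mul_le_mul_of_nonneg_left x1 (abs_nonneg _)
      linarith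
    linarith
  have k3 : |vee a φ q / bet a φ q| ≤ 1 := by
    have h1 := hf_mul x3 x2
    rw [mul_one_div] at h1
    linarith
  linarith

theorem nx_lip (ha : 100 ≤ |a|) (hφ : φ.Ok (1 / |a|)) (q q' : ℝ × ℝ) :
    |nx a φ q - nx a φ q'| ≤ 7 * |a| * dist q q' := by
  obtain ⟨w, δ, hw, hδ, h1, -⟩ := hf_cmp (φ := φ) ha hφ q q'
  have h2 := hf_w ha q.1 q'.1 q.2 q'.2
  rw [← hw] at h2
  have hx : |q.1 - q'.1| ≤ dist q q' := by
    rw [Prod.dist_eq, Real.dist_eq, Real.dist_eq]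
    exact le_max_left _ _
  have hp : |q.2 - q'.2| ≤ dist q q' := by
    rw [Prod.dist_eq, Real.dist_eq, Real.dist_eq]
    exact le_max_right _ _
  have hη := hf_eta ha
  have hD : 0 ≤ dist q q' := dist_nonneg
  have h3 := abs_add_le w δ
  have hπ : π < 3.1416 := Real.pi_lt_d4
  have h4 : (2 + 2 * π * |a|) * |q.1 - q'.1| ≤ (2 + 2 * 3.1416 * |a|) * dist q q' := by
    refine mul_le_mul ?_ hx (abs_nonneg _) (by positivity)
    have : 2 * π * |a| ≤ 2 * 3.1416 * |a| := mul_le_mul_of_nonneg_right (by linarith) (abs_nonneg _)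
    linarith
  have h5 : 1 / |a| * |q.1 - q'.1| ≤ 1 / 100 * dist q q' := mul_le_mul hη hx (abs_nonneg _) (by norm_num)
  have h6 : 99 / 100 * |nx a φ q - nx a φ q'| ≤ (1 - 1 / |a|) * |nx a φ q - nx a φ q'| :=
    mul_le_mul_of_nonneg_right (by linarith) (abs_nonneg _)
  have h7 : 99 / 100 * |nx a φ q - nx a φ q'| ≤ (2 + 2 * 3.1416 * |a|) * dist q q' + dist q q' + 1 / 100 * dist q q' := by
    linarith
  have h8 : 100 * dist q q' ≤ |a| * dist q q' := mul_le_mul_of_nonneg_right ha hD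
  norm_num at h7
  nlinarith

theorem holF (ha : 100 ≤ |a|) (hφ : φ.Ok (1 / |a|)) (hs : 0 < s) (hs1 : s ≤ 1) (hH : Hoe a φ s) (q q' : ℝ × ℝ) :
    nn (DF a φ q - DF a φ q') ≤ 160 * |a| * dist q q' ^ s := by
  have hD : 0 ≤ dist q q' := dist_nonneg
  have ha0 : 0 < |a| := by linarith
  rcases le_or_gt 1 (dist q q') with hD1 | hD1
  · have h1 : 1 ≤ dist q q' ^ s := Real.one_le_rpow hD1 hs.le
    have h2 : nn (DF a φ q - DF a φ q') ≤ nn (DF a φ q) + nn (DF a φ q') := by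
      unfold nn
      simp only [Matrix.sub_apply]
      linarith [abs_sub (DF a φ q 0 0) (DF a φ q' 0 0), abs_sub (DF a φ q 0 1) (DF a φ q' 0 1),
        abs_sub (DF a φ q 1 0) (DF a φ q' 1 0), abs_sub (DF a φ q 1 1) (DF a φ q' 1 1)]
    have h3 := bdF ha hφ q
    have h4 := bdF ha hφ q'
    have h5 : 160 * |a| * 1 ≤ 160 * |a| * dist q q' ^ s := mul_le_mul_of_nonneg_left h1 (by positivity)
    linarith
  · set E : ℝ := dist q q' ^ s with hEdef
    have hE : 0 ≤ E := Real.rpow_nonneg hD s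
    have hDE : dist q q' ≤ E := by
      rcases hD.eq_or_lt with h | h
      · rw [← h]
        exact hE
      · calc dist q q' = dist q q' ^ (1:ℝ) := (Real.rpow_one _).symm
          _ ≤ E := Real.rpow_le_rpow_of_exponent_ge h hD1.le hs1
    have hx : |q.1 - q'.1| ≤ dist q q' := by
      rw [Prod.dist_eq, Real.dist_eq, Real.dist_eq]
      exact le_max_left _ _
    have hX := nx_lip ha hφ q q'
    have h7a : 1 ≤ 7 * |a| := by linarith
    have hpair : dist (q.1, nx a φ q) (q'.1, nx a φ q') ≤ 7 * |a| * dist q q' := by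
      rw [Prod.dist_eq, Real.dist_eq, Real.dist_eq]
      refine max_le (hx.trans ?_) hX
      exact le_mul_of_one_le_left hD h7a
    have hpow : dist (q.1, nx a φ q) (q'.1, nx a φ q') ^ s ≤ 7 * |a| * E := by
      calc dist (q.1, nx a φ q) (q'.1, nx a φ q') ^ s ≤ (7 * |a| * dist q q') ^ s :=
            Real.rpow_le_rpow dist_nonneg hpair hs.le
        _ = (7 * |a|) ^ s * E := Real.mul_rpow (by positivity) hD
        _ ≤ 7 * |a| * E := by
            refine mul_le_mul_of_nonneg_right ?_ hE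
            calc (7 * |a|) ^ s ≤ (7 * |a|) ^ (1:ℝ) := Real.rpow_le_rpow_of_exponent_le h7a hs1
              _ = 7 * |a| := Real.rpow_one _
    have hfac : 1 / |a| * dist (q.1, nx a φ q) (q'.1, nx a φ q') ^ s ≤ 7 * E := by
      calc 1 / |a| * dist (q.1, nx a φ q) (q'.1, nx a φ q') ^ s ≤ 1 / |a| * (7 * |a| * E) :=
            mul_le_mul_of_nonneg_left hpow (by positivity)
        _ = 7 * E := by field_simp
    have g11 := (hH.h11 (q.1, nx a φ q) (q'.1, nx a φ q')).trans hfac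
    have g12 := (hH.h12 (q.1, nx a φ q) (q'.1, nx a φ q')).trans hfac
    have g22 := (hH.h22 (q.1, nx a φ q) (q'.1, nx a φ q')).trans hfac
    simp only at g11 g12 g22
    have hcos : |Real.cos (2 * π * q.1) - Real.cos (2 * π * q'.1)| ≤ 2 * π * dist q q' := by
      refine (Real.abs_cos_sub_cos_le _ _).trans ?_
      rw [← mul_sub, abs_mul, abs_of_pos (by positivity : (0:ℝ) < 2 * π)]
      exact mul_le_mul_of_nonneg_left hx (by positivity)
    have hπ : π < 3.1416 := Real.pi_lt_d4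
    have k1 : |alf a φ q - alf a φ q'| ≤ (79 / 2 * |a| + 7) * E := by
      have e : alf a φ q - alf a φ q' = 2 * π * a * (Real.cos (2 * π * q.1) - Real.cos (2 * π * q'.1)) +
          (φ.f11 q.1 (nx a φ q) - φ.f11 q'.1 (nx a φ q')) := by
        unfold alf
        ring
      rw [e]
      have h1 := abs_add_le (2 * π * a * (Real.cos (2 * π * q.1) - Real.cos (2 * π * q'.1)))
        (φ.f11 q.1 (nx a φ q) - φ.f11 q'.1 (nx a φ q'))
      have h2 : |2 * π * a * (Real.cos (2 * π * q.1) - Real.cos (2 * π * q'.1))| ≤ 79 / 2 * |a| * E := by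
        rw [abs_mul, abs_mul, abs_of_pos (by positivity : (0:ℝ) < 2 * π)]
        calc 2 * π * |a| * |Real.cos (2 * π * q.1) - Real.cos (2 * π * q'.1)| ≤
              2 * π * |a| * (2 * π * dist q q') := mul_le_mul_of_nonneg_left hcos (by positivity)
          _ = 4 * (π * π) * |a| * dist q q' := by ring
          _ ≤ 79 / 2 * |a| * E := by
              refine mul_le_mul (mul_le_mul_of_nonneg_right ?_ ha0.le) hDE hD (by positivity)
              have h3 : π * π ≤ 3.1416 * 3.1416 := mul_le_mul hπ.le hπ.le Real.pi_pos.le (by norm_num)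
              norm_num at h3
              linarith
      have h3 : (79 / 2 * |a| + 7) * E = 79 / 2 * |a| * E + 7 * E := by ring
      rw [h3]
      linarith
    have k2 : |bet a φ q - bet a φ q'| ≤ 7 * E := by
      have e : bet a φ q - bet a φ q' = -(φ.f12 q.1 (nx a φ q) - φ.f12 q'.1 (nx a φ q')) := by
        unfold bet
        ring
      rw [e, abs_neg]
      exact g12
    have k3 : |vee a φ q - vee a φ q'| ≤ 7 * E := g22
    obtain ⟨hb, hα, hv⟩ := hf_all ha hφ q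
    obtain ⟨hb', hα', hv'⟩ := hf_all ha hφ q'
    have h := hf_diff ha hE hb hα hv hb' hα' hv' k1 k2 k3
    unfold nn
    simp only [Matrix.sub_apply]
    unfold DF mat
    simp only [Matrix.of_apply, Matrix.cons_val', Matrix.cons_val_zero, Matrix.cons_val_one, Matrix.cons_val_fin_one]
    exact h

theorem coneF (ha : 100 ≤ |a|) (hφ : φ.Ok (1 / |a|)) (q : ℝ × ℝ) (u v : ℝ) :
    |DF a φ q 1 0 * u + DF a φ q 1 1 * v| ≤
      2 * (|u| + |v|) + 1 / |a| * |DF a φ q 0 0 * u + DF a φ q 0 1 * v| := by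
  obtain ⟨hb, hα, hv⟩ := hf_all ha hφ q
  obtain ⟨b0, b1, x1, x2, x3, x4⟩ := hf_num ha hb hα hv
  have hbp : 0 < bet a φ q := by linarith
  unfold DF mat
  simp only [Matrix.of_apply, Matrix.cons_val', Matrix.cons_val_zero, Matrix.cons_val_one, Matrix.cons_val_fin_one]
  have e : (bet a φ q - vee a φ q * (alf a φ q / bet a φ q)) * u + vee a φ q / bet a φ q * v =
      bet a φ q * u - vee a φ q * (alf a φ q / bet a φ q * u + -1 / bet a φ q * v) := by ring
  rw [e]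
  have h1 := abs_sub (bet a φ q * u) (vee a φ q * (alf a φ q / bet a φ q * u + -1 / bet a φ q * v))
  have h2 : |bet a φ q * u| ≤ 2 * |u| := by
    rw [abs_mul, abs_of_pos hbp]
    exact mul_le_mul_of_nonneg_right (by linarith) (abs_nonneg _)
  have h3 : |vee a φ q * (alf a φ q / bet a φ q * u + -1 / bet a φ q * v)| ≤
      1 / |a| * |alf a φ q / bet a φ q * u + -1 / bet a φ q * v| := by
    rw [abs_mul]
    exact mul_le_mul_of_nonneg_right hv (abs_nonneg _)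
  have h4 := abs_nonneg v
  linarith

theorem jumpF (ha : 100 ≤ |a|) (hφ : φ.Ok (1 / |a|)) (μ : ℤ) (q q' : ℝ × ℝ)
    (h1 : |q.1 - μ / 2| ≤ 1 / 8) (h2 : |q'.1 - μ / 2| ≤ 1 / 8) (h3 : |q.2 - q'.2| ≤ 1 / 8 * |q.1 - q'.1|) :
    16 * |q.1 - q'.1| ≤ |(Fl a φ q).1 - (Fl a φ q').1| ∧
      |(Fl a φ q).2 - (Fl a φ q').2| ≤ 1 / 8 * |(Fl a φ q).1 - (Fl a φ q').1| := by
  obtain ⟨w, δ, hw, hδ, h4, h5⟩ := hf_cmp (φ := φ) ha hφ q q'
  have hη := hf_eta ha
  have hη0 : 0 ≤ 1 / |a| := by positivity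
  set X := nx a φ q with hX
  set X' := nx a φ q' with hX'
  set d := |q.1 - q'.1| with hd
  have hd0 : 0 ≤ d := abs_nonneg _
  -- the sine
  have h6 : |Real.sin (2 * π * q.1) - Real.sin (2 * π * q'.1)| ≥ 14 / 5 * d := by
    have e1 : (2 * π * q.1 - 2 * π * q'.1) / 2 = π * (q.1 - q'.1) := by ring
    have e2 : (2 * π * q.1 + 2 * π * q'.1) / 2 = π * ((q.1 - μ / 2) + (q'.1 - μ / 2)) + μ * π := by ring
    rw [Real.sin_sub_sin, e1, e2, Real.cos_add_int_mul_pi, abs_mul, abs_mul, abs_mul, abs_zpow, abs_neg, abs_one,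
      one_zpow, one_mul]
    have h7 : |π * (q.1 - q'.1)| = π * d := by rw [abs_mul, abs_of_pos Real.pi_pos]
    have h8 : d ≤ 1 / 4 := by
      have e3 : q.1 - q'.1 = (q.1 - μ / 2) - (q'.1 - μ / 2) := by ring
      have := abs_sub (q.1 - μ / 2) (q'.1 - (μ : ℝ) / 2)
      rw [← e3] at this
      linarith
    have h9 : 2 * d ≤ |Real.sin (π * (q.1 - q'.1))| := by
      have h10 := Real.mul_abs_le_abs_sin (x := π * (q.1 - q'.1)) (by
        rw [h7]
        have := mul_le_mul_of_nonneg_left h8 Real.pi_pos.le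
        linarith [Real.pi_pos])
      rw [h7] at h10
      have e4 : 2 / π * (π * d) = 2 * d := by
        field_simp
      rw [e4] at h10
      exact h10
    have h11 : 7 / 10 ≤ |Real.cos (π * ((q.1 - μ / 2) + (q'.1 - μ / 2)))| := by
      refine le_trans ?_ (le_abs_self _)
      rw [← Real.cos_abs]
      have h12 : |π * ((q.1 - μ / 2) + (q'.1 - μ / 2))| ≤ π / 4 := by
        rw [abs_mul, abs_of_pos Real.pi_pos]
        have h13 := abs_add_le (q.1 - (μ : ℝ) / 2) (q'.1 - μ / 2)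
        have h14 : |(q.1 - (μ : ℝ) / 2) + (q'.1 - μ / 2)| ≤ 1 / 4 := by linarith
        have := mul_le_mul_of_nonneg_left h14 Real.pi_pos.le
        linarith
      have h13 := Real.cos_le_cos_of_nonneg_of_le_pi (abs_nonneg _) (by linarith [Real.pi_pos]) h12
      rw [Real.cos_pi_div_four] at h13
      have h14 : (7 / 5 : ℝ) ≤ Real.sqrt 2 := Real.le_sqrt_of_sq_le (by norm_num)
      linarith
    have h15 : 2 * d * (7 / 10) ≤ |Real.sin (π * (q.1 - q'.1))| *
        |Real.cos (π * ((q.1 - μ / 2) + (q'.1 - μ / 2)))| :=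
      mul_le_mul h9 h11 (by norm_num) (abs_nonneg _)
    have h16 : |(2:ℝ)| = 2 := by norm_num
    rw [h16, mul_assoc]
    linarith
  have h7 : (14 / 5 * |a| - 17 / 8) * d ≤ |w| := by
    have e : a * (Real.sin (2 * π * q.1) - Real.sin (2 * π * q'.1)) = w - (2 * (q.1 - q'.1) - (q.2 - q'.2)) := by
      rw [hw]
      ring
    have h8 := abs_sub w (2 * (q.1 - q'.1) - (q.2 - q'.2))
    rw [← e, abs_mul] at h8
    have h9 := abs_sub (2 * (q.1 - q'.1)) (q.2 - q'.2)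
    have h10 : |2 * (q.1 - q'.1)| = 2 * d := by
      rw [abs_mul, abs_of_pos (by norm_num : (0:ℝ) < 2)]
    have h11 : |a| * (14 / 5 * d) ≤ |a| * |Real.sin (2 * π * q.1) - Real.sin (2 * π * q'.1)| :=
      mul_le_mul_of_nonneg_left h6 (abs_nonneg _)
    have e2 : (14 / 5 * |a| - 17 / 8) * d = |a| * (14 / 5 * d) - 2 * d - 1 / 8 * d := by ring
    rw [e2]
    linarith
  have hδ' : |δ| ≤ 1 / 100 * d := hδ.trans (mul_le_mul_of_nonneg_right hη hd0)
  have h8 : |w| ≤ |w + δ| + |δ| := by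
    have := abs_sub (w + δ) δ
    rwa [add_sub_cancel_right] at this
  have h9 : (1 + 1 / |a|) * |X - X'| ≤ 101 / 100 * |X - X'| :=
    mul_le_mul_of_nonneg_right (by linarith) (abs_nonneg _)
  have h10 : 277 * d ≤ (14 / 5 * |a| - 17 / 8) * d := mul_le_mul_of_nonneg_right (by linarith) hd0
  have h11 : 270 * d ≤ |X - X'| := by linarith
  have hFl1 : (Fl a φ q).1 - (Fl a φ q').1 = X - X' := rfl
  have hFl2 : (Fl a φ q).2 - (Fl a φ q').2 = (q.1 - q'.1) - (φ.f2 q.1 X - φ.f2 q'.1 X') := by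
    show (q.1 - φ.f2 q.1 X) - (q'.1 - φ.f2 q'.1 X') = _
    ring
  rw [hFl1, hFl2]
  refine ⟨by linarith, ?_⟩
  have h12 := (Pool.Agent.Helper18.FD.f_lip hφ q.1 q'.1 X X').2
  have h13 := abs_sub (q.1 - q'.1) (φ.f2 q.1 X - φ.f2 q'.1 X')
  have h14 : 1 / |a| * d ≤ 1 / 100 * d := mul_le_mul_of_nonneg_right hη hd0
  have h15 : 1 / |a| * |X - X'| ≤ 1 / 100 * |X - X'| := mul_le_mul_of_nonneg_right hη (abs_nonneg _)
  have h16 := abs_nonneg (X - X')
  linarith

end Pool.Agent.Helper11.FE
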