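import Pool.Agent.Helper11.FE.Px

/-! Block FE-HOLG: size, Hoelder bound and cone property of `Gl`, `|a| ≥ 100`, `η = 1/|a|`. The same estimates as in block HOLF (header of `FE/HolF.lean`), simpler because
`x = px q` is `11/10`-Lipschitz: `|Δφij| ≤ (1/|a|) (1.1 D)^s ≤ (1.1/|a|) D^s`, `|Δα| ≤ 4π² |a| 1.1 D + .. `.
`coneG`: the second component of `DG (u, v)` is `(u + gv v) / gb`. -/

set_option autoImplicit false
open MeasureTheory Real Set

namespace Pool.Agent.Helper11.FE

open Pool.Agent.Helper18.UC (T2 rep toT nn clm sh sqo pt lab cor idx cell corner nn_nonneg nn_mul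
  nn_sub_le nn_add_le abs_entry_le nn_one clm_apply norm_clm_le nn_le_clm)
open Pool.Agent.Helper18.FD (Gen nx Fl alf bet vee mat DF)

variable {a s : ℝ} {φ : Gen}

private theorem inv82 {A b : ℝ} (hA : 100 ≤ A) (hb : |b - 1| ≤ 1 / A) :
    0 < b ∧ |1 / b| ≤ 102 / 100 ∧ |b| ≤ 101 / 100 := by
  have hi : 1 / A ≤ 1 / 100 := one_div_le_one_div_of_le (by norm_num) hA
  rw [abs_le] at hb
  have hb0 : 99 / 100 ≤ b := by linarith [hb.1]
  have hbp : 0 < b := by linarith
  refine ⟨hbp, ?_, ?_⟩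
  · rw [abs_of_pos (by positivity), div_le_iff₀ hbp]
    linarith
  · rw [abs_of_pos hbp]
    linarith [hb.2]

/-- The entries are bounded. -/
private theorem size82 {α b v A : ℝ} (hA : 100 ≤ A) (hb : |b - 1| ≤ 1 / A) (hv : |v| ≤ 1 / A)
    (hα : |α| ≤ 64 / 10 * A) :
    |α / b| ≤ 66 / 10 * A ∧ |v * (α / b) - b| ≤ 8 ∧ |v / b| ≤ 2 / 100 := by
  have hA0 : 0 < A := by linarith
  have hi : 1 / A ≤ 1 / 100 := one_div_le_one_div_of_le (by norm_num) hA
  obtain ⟨hb0, hb1, hb2⟩ := inv82 hA hb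
  have h1 : |α / b| ≤ 66 / 10 * A := by
    rw [div_eq_mul_one_div, abs_mul]
    have := mul_le_mul hα hb1 (abs_nonneg _) (by positivity)
    nlinarith
  refine ⟨h1, ?_, ?_⟩
  · have h2 : |v * (α / b)| ≤ 66 / 10 := by
      rw [abs_mul]
      have := mul_le_mul hv h1 (abs_nonneg _) (by positivity)
      have e : 1 / A * (66 / 10 * A) = 66 / 10 := by field_simp
      linarith
    have := abs_sub (v * (α / b)) b
    linarith
  · rw [div_eq_mul_one_div, abs_mul]
    have := mul_le_mul hv hb1 (abs_nonneg _) (by positivity)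
    nlinarith

/-- The differences of the entries. -/
private theorem diff82 {α α' b b' v v' A t : ℝ} (hA : 100 ≤ A) (ht : 0 ≤ t)
    (hb : |b - 1| ≤ 1 / A) (hb' : |b' - 1| ≤ 1 / A) (hv : |v| ≤ 1 / A) (hv' : |v'| ≤ 1 / A)
    (hα : |α| ≤ 64 / 10 * A) (hα' : |α'| ≤ 64 / 10 * A)
    (dα : |α - α'| ≤ 45 * A * t) (db : |b - b'| ≤ 2 / A * t) (dv : |v - v'| ≤ 2 / A * t) :
    |α / b - α' / b'| + |v * (α / b) - b - (v' * (α' / b') - b')| + |1 / b - 1 / b'| +
      |v / b - v' / b'| ≤ 160 * A * t := by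
  have hA0 : 0 < A := by linarith
  have hi : 1 / A ≤ 1 / 100 := one_div_le_one_div_of_le (by norm_num) hA
  have hi0 : 0 < 1 / A := by positivity
  obtain ⟨hb0, hb1, hb2⟩ := inv82 hA hb
  obtain ⟨hb0', hb1', hb2'⟩ := inv82 hA hb'
  obtain ⟨s1, -, -⟩ := size82 hA hb hv hα
  have hd : 2 / A * t ≤ 2 / 100 * t := by
    refine mul_le_mul_of_nonneg_right ?_ ht
    have : 2 / A = 2 * (1 / A) := by ring
    linarith
  have hdn : 0 ≤ 2 / A * t := by positivity
  have hAt : 0 ≤ A * t := by positivity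
  have hAt' : 100 * t ≤ A * t := mul_le_mul_of_nonneg_right hA ht
  -- the inverse
  have dw : |1 / b - 1 / b'| ≤ 21 / 10 / A * t := by
    have e : 1 / b - 1 / b' = -(b - b') * ((1 / b) * (1 / b')) := by
      field_simp
      ring
    rw [e, abs_mul, abs_neg, abs_mul]
    have h1 : |1 / b| * |1 / b'| ≤ 102 / 100 * (102 / 100) :=
      mul_le_mul hb1 hb1' (abs_nonneg _) (by norm_num)
    have h2 := mul_le_mul db h1 (by positivity) hdn
    have h3 : 2 / A * t * (102 / 100 * (102 / 100)) = (1 / A * t) * (2 * (102 / 100 * (102 / 100))) := by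
      ring
    have h4 : 21 / 10 / A * t = (1 / A * t) * (21 / 10) := by ring
    have h5 : 0 ≤ 1 / A * t := by positivity
    rw [h4]
    nlinarith
  have hw : 21 / 10 / A * t ≤ 21 / 1000 * t := by
    refine mul_le_mul_of_nonneg_right ?_ ht
    have : 21 / 10 / A = 21 / 10 * (1 / A) := by ring
    linarith
  have hwn : 0 ≤ 21 / 10 / A * t := by positivity
  have e1 : |α / b - α' / b'| ≤ 459 / 10 * (A * t) + 1344 / 100 * t := by
    have e : α / b - α' / b' = (α - α') * (1 / b) + α' * (1 / b - 1 / b') := by ring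
    rw [e]
    refine (abs_add_le _ _).trans ?_
    rw [abs_mul, abs_mul]
    have h1 := mul_le_mul dα hb1 (abs_nonneg _) (by positivity)
    have h2 := mul_le_mul hα' dw (abs_nonneg _) (by positivity)
    have h3 : 64 / 10 * A * (21 / 10 / A * t) = 1344 / 100 * t := by
      field_simp
      ring
    linarith
  have e2 : |v * (α / b) - b - (v' * (α' / b') - b')| ≤ 60 * t := by
    have e : v * (α / b) - b - (v' * (α' / b') - b') =
        (v - v') * (α / b) + v' * (α / b - α' / b') + -(b - b') := by ring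
    rw [e]
    refine (abs_add_le _ _).trans ?_
    have h0 := abs_add_le ((v - v') * (α / b)) (v' * (α / b - α' / b'))
    rw [abs_mul, abs_mul] at h0
    rw [abs_neg]
    have h1 := mul_le_mul dv s1 (abs_nonneg _) hdn
    have h2 := mul_le_mul hv' e1 (abs_nonneg _) hi0.le
    have h3 : 2 / A * t * (66 / 10 * A) = 132 / 10 * t := by
      field_simp
      ring
    have h4 : 1 / A * (459 / 10 * (A * t) + 1344 / 100 * t) = 459 / 10 * t + 1 / A * (1344 / 100 * t) := by
      field_simp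
    have h5 : 1 / A * (1344 / 100 * t) ≤ 1 / 100 * (1344 / 100 * t) :=
      mul_le_mul_of_nonneg_right hi (by positivity)
    linarith
  have e4 : |v / b - v' / b'| ≤ 3 / 100 * t := by
    have e : v / b - v' / b' = (v - v') * (1 / b) + v' * (1 / b - 1 / b') := by ring
    rw [e]
    refine (abs_add_le _ _).trans ?_
    rw [abs_mul, abs_mul]
    have h1 := mul_le_mul (dv.trans hd) hb1 (abs_nonneg _) (by positivity)
    have h2 := mul_le_mul (hv'.trans hi) (dw.trans hw) (abs_nonneg _) (by positivity)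
    linarith
  have e3 := dw.trans hw
  linarith

private theorem ga_bd82 (ha : 100 ≤ |a|) (hφ : φ.Ok (1 / |a|)) (q : ℝ × ℝ) :
    |ga a φ q| ≤ 64 / 10 * |a| := by
  have h1 := (g_bd (a := a) hφ q).2.2
  have hi : 1 / |a| ≤ 1 / 100 := one_div_le_one_div_of_le (by norm_num) ha
  have hpi := Real.pi_lt_d4
  have hpi0 := Real.pi_pos
  have h2 : |2 * π * a * Real.cos (2 * π * px φ q)| ≤ 2 * π * |a| := by
    rw [abs_mul, abs_mul, abs_of_pos (by positivity : (0 : ℝ) < 2 * π)]
    have := mul_le_mul_of_nonneg_left (Real.abs_cos_le_one (2 * π * px φ q))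
      (by positivity : 0 ≤ 2 * π * |a|)
    linarith
  have h3 : 2 * π * |a| ≤ 62832 / 10000 * |a| := by
    refine mul_le_mul_of_nonneg_right ?_ (abs_nonneg _)
    linarith
  have h2' := abs_le.1 h2
  have h1' := abs_le.1 h1
  rw [abs_le]
  constructor
  · linarith [h1'.1, h2'.1]
  · linarith [h1'.2, h2'.2]

private theorem nn_DG82 (q : ℝ × ℝ) : nn (DG a φ q) = |ga a φ q / gb φ q| +
    |gv φ q * (ga a φ q / gb φ q) - gb φ q| + |1 / gb φ q| + |gv φ q / gb φ q| := by
  unfold nn DG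
  simp

private theorem nn_DG_sub82 (q q' : ℝ × ℝ) : nn (DG a φ q - DG a φ q') =
    |ga a φ q / gb φ q - ga a φ q' / gb φ q'| +
    |gv φ q * (ga a φ q / gb φ q) - gb φ q - (gv φ q' * (ga a φ q' / gb φ q') - gb φ q')| +
    |1 / gb φ q - 1 / gb φ q'| + |gv φ q / gb φ q - gv φ q' / gb φ q'| := by
  unfold nn DG
  simp [Matrix.sub_apply]


theorem bdG (ha : 100 ≤ |a|) (hφ : φ.Ok (1 / |a|)) (q : ℝ × ℝ) : nn (DG a φ q) ≤ 7 * |a| := by
  obtain ⟨hb, hv, -⟩ := g_bd (a := a) hφ q
  obtain ⟨-, h1, -⟩ := inv82 ha hb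
  obtain ⟨h2, h3, h4⟩ := size82 ha hb hv (ga_bd82 ha hφ q)
  rw [nn_DG82]
  linarith

theorem holG (ha : 100 ≤ |a|) (hφ : φ.Ok (1 / |a|)) (hs : 0 < s) (hs1 : s ≤ 1) (hH : Hoe a φ s) (q q' : ℝ × ℝ) :
    nn (DG a φ q - DG a φ q') ≤ 160 * |a| * dist q q' ^ s := by
  have hA0 : 0 < |a| := by linarith
  have hi : 1 / |a| ≤ 1 / 100 := one_div_le_one_div_of_le (by norm_num) ha
  have hi0 : 0 < 1 / |a| := by positivity
  have hi50 : 1 / |a| ≤ 1 / 50 := by linarith
  rcases le_total 1 (dist q q') with hD | hD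
  · have h1 := Pool.Agent.Helper18.UC.nn_sub_le (DG a φ q - DG a φ q') (DG a φ q)
    have e1 : DG a φ q - DG a φ q' - DG a φ q = -DG a φ q' := by abel
    have e2 : nn (-DG a φ q') = nn (DG a φ q') := by
      unfold nn
      simp
    rw [e1, e2] at h1
    have h2 := bdG ha hφ q
    have h3 := bdG ha hφ q'
    have h4 : 1 ≤ dist q q' ^ s := Real.one_le_rpow hD hs.le
    have h5 : 160 * |a| * 1 ≤ 160 * |a| * dist q q' ^ s :=
      mul_le_mul_of_nonneg_left h4 (by positivity)
    linarith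
  · have hDt : dist q q' ≤ dist q q' ^ s := by
      rcases (dist_nonneg (x := q) (y := q')).eq_or_lt with h0 | h0
      · rw [← h0, Real.zero_rpow hs.ne']
      · calc dist q q' = dist q q' ^ (1 : ℝ) := (Real.rpow_one _).symm
          _ ≤ dist q q' ^ s := Real.rpow_le_rpow_of_exponent_ge h0 hD hs1
    set D : ℝ := dist q q' with hDdef
    have hD0 : 0 ≤ D := dist_nonneg
    set t : ℝ := D ^ s with ht
    have ht0 : 0 ≤ t := Real.rpow_nonneg hD0 s
    have hx := px_lip hi50 hφ q q'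
    rw [← hDdef] at hx
    -- the distance of the pairs
    have hpair : dist (px φ q, q.2) (px φ q', q'.2) ≤ 11 / 10 * D := by
      rw [Prod.dist_eq, max_le_iff]
      refine ⟨by rw [Real.dist_eq]; exact hx, ?_⟩
      have h1 : dist q.2 q'.2 ≤ D := by
        rw [hDdef, Prod.dist_eq]
        exact le_max_right _ _
      show dist q.2 q'.2 ≤ 11 / 10 * D
      linarith
    have hpow : dist (px φ q, q.2) (px φ q', q'.2) ^ s ≤ 11 / 10 * t := by
      refine (Real.rpow_le_rpow dist_nonneg hpair hs.le).trans ?_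
      rw [Real.mul_rpow (by norm_num) hD0, ← ht]
      refine mul_le_mul_of_nonneg_right ?_ ht0
      calc (11 / 10 : ℝ) ^ s ≤ (11 / 10 : ℝ) ^ (1 : ℝ) :=
            Real.rpow_le_rpow_of_exponent_le (by norm_num) hs1
        _ = 11 / 10 := Real.rpow_one _
    have hbd : 1 / |a| * dist (px φ q, q.2) (px φ q', q'.2) ^ s ≤ 1 / |a| * (11 / 10 * t) :=
      mul_le_mul_of_nonneg_left hpow hi0.le
    have h11 := (hH.h11 (px φ q, q.2) (px φ q', q'.2)).trans hbd
    have h12 := (hH.h12 (px φ q, q.2) (px φ q', q'.2)).trans hbd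
    have h22 := (hH.h22 (px φ q, q.2) (px φ q', q'.2)).trans hbd
    have hsm : 1 / |a| * (11 / 10 * t) ≤ 2 / |a| * t := by
      have e : 2 / |a| * t = 1 / |a| * (2 * t) := by ring
      rw [e]
      exact mul_le_mul_of_nonneg_left (by linarith) hi0.le
    have db : |gb φ q - gb φ q'| ≤ 2 / |a| * t := by
      have e : gb φ q - gb φ q' = -(φ.f12 (px φ q) q.2 - φ.f12 (px φ q') q'.2) := by
        unfold gb
        ring
      rw [e, abs_neg]
      exact h12.trans hsm
    have dv : |gv φ q - gv φ q'| ≤ 2 / |a| * t := h22.trans hsm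
    have da : |ga a φ q - ga a φ q'| ≤ 45 * |a| * t := by
      have e : ga a φ q - ga a φ q' = 2 * π * a * (Real.cos (2 * π * px φ q) -
          Real.cos (2 * π * px φ q')) + (φ.f11 (px φ q) q.2 - φ.f11 (px φ q') q'.2) := by
        unfold ga
        ring
      rw [e]
      refine (abs_add_le _ _).trans ?_
      have hpi := Real.pi_lt_d4
      have hpi0 := Real.pi_pos
      have h1 : |Real.cos (2 * π * px φ q) - Real.cos (2 * π * px φ q')| ≤
          2 * π * (11 / 10 * D) := by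
        refine (Real.abs_cos_sub_cos_le _ _).trans ?_
        rw [← mul_sub, abs_mul, abs_of_pos (by positivity : (0 : ℝ) < 2 * π)]
        exact mul_le_mul_of_nonneg_left hx (by positivity)
      have h2 : |2 * π * a * (Real.cos (2 * π * px φ q) - Real.cos (2 * π * px φ q'))| ≤
          2 * π * |a| * (2 * π * (11 / 10 * D)) := by
        rw [abs_mul, abs_mul, abs_of_pos (by positivity : (0 : ℝ) < 2 * π)]
        exact mul_le_mul_of_nonneg_left h1 (by positivity)
      have h3 : 2 * π * |a| * (2 * π * (11 / 10 * D)) = 44 / 10 * (π * π) * (|a| * D) := by ring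
      have h4 : 44 / 10 * (π * π) * (|a| * D) ≤ 44 * (|a| * D) := by
        refine mul_le_mul_of_nonneg_right ?_ (by positivity)
        nlinarith
      have h5 : |a| * D ≤ |a| * t := mul_le_mul_of_nonneg_left hDt hA0.le
      have h6 : 1 / |a| * (11 / 10 * t) ≤ |a| * t := by
        have e1 : 1 / |a| * (11 / 10 * t) ≤ 1 / 100 * (11 / 10 * t) :=
          mul_le_mul_of_nonneg_right hi (by positivity)
        have e2 : 100 * t ≤ |a| * t := mul_le_mul_of_nonneg_right ha ht0
        linarith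
      linarith
    rw [nn_DG_sub82]
    obtain ⟨hb, hv, -⟩ := g_bd (a := a) hφ q
    obtain ⟨hb', hv', -⟩ := g_bd (a := a) hφ q'
    exact diff82 ha ht0 hb hb' hv hv' (ga_bd82 ha hφ q) (ga_bd82 ha hφ q') da db dv

theorem coneG (ha : 100 ≤ |a|) (hφ : φ.Ok (1 / |a|)) (q : ℝ × ℝ) (u v : ℝ) :
    |DG a φ q 1 0 * u + DG a φ q 1 1 * v| ≤ 2 * (|u| + |v|) := by
  obtain ⟨hb, hv, -⟩ := g_bd (a := a) hφ q
  obtain ⟨-, h1, -⟩ := inv82 ha hb
  obtain ⟨-, -, h4⟩ := size82 ha hb hv (ga_bd82 ha hφ q)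
  have e0 : DG a φ q 1 0 = 1 / gb φ q := rfl
  have e1 : DG a φ q 1 1 = gv φ q / gb φ q := rfl
  rw [e0, e1]
  refine (abs_add_le _ _).trans ?_
  rw [abs_mul, abs_mul]
  have h5 := mul_le_mul_of_nonneg_right h1 (abs_nonneg u)
  have h6 := mul_le_mul_of_nonneg_right h4 (abs_nonneg v)
  have h7 := abs_nonneg u
  have h8 := abs_nonneg v
  linarith

end Pool.Agent.Helper11.FE
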