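import Pool.Agent.Helper11.FE.Rev
import Pool.Agent.Helper11.FE.HolF
import Pool.Agent.Helper11.FE.HolG

/-! File FE-INST (helper11): the system of a twist map satisfies `Sys.Ok 100` for large `|a|`; constants. -/

set_option autoImplicit false
open MeasureTheory Real Set

namespace Pool.Agent.Helper11.FE

open Pool.Agent.Helper18.UC (T2 rep toT nn clm sh sqo pt lab cor idx cell corner nn_nonneg nn_mul
  nn_sub_le nn_add_le abs_entry_le nn_one clm_apply norm_clm_le nn_le_clm)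
open Pool.Agent.Helper18.FD (Gen nx Fl alf bet vee mat DF)

variable {a s : ℝ} {φ : Gen}

private theorem DF_cont11 {η : ℝ} (hη : η ≤ 1 / 2) (hφ : φ.Ok η) (i j : Fin 2) :
    Continuous fun q => DF a φ q i j := by
  have hn : Continuous (nx a φ) := Pool.Agent.Helper18.FD.nx_cont hη hφ
  have hp : Continuous fun q : ℝ × ℝ => (q.1, nx a φ q) := continuous_fst.prodMk hn
  have h11 : Continuous fun q : ℝ × ℝ => φ.f11 q.1 (nx a φ q) := hφ.n11.cont.comp hp
  have h12 : Continuous fun q : ℝ × ℝ => φ.f12 q.1 (nx a φ q) := hφ.n12.cont.comp hp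
  have h22 : Continuous fun q : ℝ × ℝ => φ.f22 q.1 (nx a φ q) := hφ.n22.cont.comp hp
  have ha : Continuous (alf a φ) := by
    unfold alf
    fun_prop
  have hb : Continuous (bet a φ) := by
    unfold bet
    fun_prop
  have hv : Continuous (vee a φ) := h22
  have hb0 : ∀ q, bet a φ q ≠ 0 := by
    intro q
    have h1 := (Pool.Agent.Helper18.FD.bet_bd (a := a) hφ q).1
    have h2 := (abs_le.1 h1).1
    have h3 : 0 < bet a φ q := by linarith
    exact h3.ne'
  unfold DF mat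
  fin_cases i <;> fin_cases j
  · exact ha.div hb hb0
  · exact continuous_const.div hb hb0
  · exact hb.sub (hv.mul (ha.div hb hb0))
  · exact hv.div hb hb0

theorem kk_le {s : ℝ} (hs : 0 < s) (hs1 : s ≤ 1) : ∃ A : ℝ, 100 ≤ A ∧ ∀ (a : ℝ) (φ : Gen), A ≤ |a| →
    2 * (fdSys a φ s).KK 100 ≤ 20 * |a| ∧
    Real.log ((fdSys a φ s).KK 100) ≤ 1 / (1 + s) * Real.log |a| + 16 ∧
    1 / (1 + s) * Real.log |a| + 17 ≤ Real.log (20 * |a|) := by
  -- the constants
  obtain ⟨b, hb⟩ : ∃ b : ℝ, b = 32 * 100 ^ 2 * 20 := ⟨_, rfl⟩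
  have hb0 : 0 < b := by rw [hb]; norm_num
  have hp : (0:ℝ) < 1 + s := by linarith
  refine ⟨max 100 (max (b ^ (1 / s)) (Real.exp (17 * (1 + s) / s))), le_max_left _ _, ?_⟩
  intro a φ ha
  have ha1 : 100 ≤ |a| := (le_max_left _ _).trans ha
  have ha2 : b ^ (1 / s) ≤ |a| := ((le_max_left _ _).trans (le_max_right _ _)).trans ha
  have ha3 : Real.exp (17 * (1 + s) / s) ≤ |a| := ((le_max_right _ _).trans (le_max_right _ _)).trans ha
  have ha0 : 0 < |a| := by linarith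
  have hbs : b ≤ |a| ^ s := by
    have h1 : (b ^ (1 / s)) ^ s ≤ |a| ^ s := Real.rpow_le_rpow (by positivity) ha2 hs.le
    rwa [← Real.rpow_mul hb0.le, one_div, inv_mul_cancel₀ hs.ne', Real.rpow_one] at h1
  have hKK : (fdSys a φ s).KK 100 = (b * |a|) ^ (1 / (1 + s)) := by
    unfold Sys.KK fdSys
    simp only
    congr 1
    rw [hb]
    ring
  have hKK1 : (b * |a|) ^ (1 / (1 + s)) ≤ |a| := by
    have h1 : b * |a| ≤ |a| ^ (1 + s) := by
      rw [Real.rpow_one_add' ha0.le hp.ne', mul_comm]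
      exact mul_le_mul_of_nonneg_left hbs ha0.le
    calc (b * |a|) ^ (1 / (1 + s)) ≤ (|a| ^ (1 + s)) ^ (1 / (1 + s)) :=
          Real.rpow_le_rpow (by positivity) h1 (by positivity)
      _ = |a| := by rw [← Real.rpow_mul ha0.le, mul_one_div_cancel hp.ne', Real.rpow_one]
  rw [hKK]
  refine ⟨by linarith, ?_, ?_⟩
  · rw [Real.log_rpow (by positivity), Real.log_mul hb0.ne' ha0.ne', mul_add]
    have h1 : Real.log b ≤ 16 := by
      rw [Real.log_le_iff_le_exp hb0, hb]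
      have h2 := Real.exp_one_gt_d9
      have h3 : Real.exp 16 = Real.exp 1 ^ 16 := by rw [← Real.exp_nat_mul]; norm_num
      rw [h3]
      calc (32 * 100 ^ 2 * 20 : ℝ) ≤ (2.7 : ℝ) ^ 16 := by norm_num
        _ ≤ Real.exp 1 ^ 16 := pow_le_pow_left₀ (by norm_num) (by linarith) 16
    have h2 : 1 / (1 + s) ≤ 1 := by rw [div_le_one hp]; linarith
    have h3 : 1 / (1 + s) * Real.log b ≤ 16 := by
      have h4 : 0 ≤ Real.log b := Real.log_nonneg (by rw [hb]; norm_num)
      calc 1 / (1 + s) * Real.log b ≤ 1 * Real.log b := mul_le_mul_of_nonneg_right h2 h4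
        _ ≤ 16 := by linarith
    linarith
  · have h1 : Real.log |a| ≤ Real.log (20 * |a|) := Real.log_le_log ha0 (by linarith)
    have h2 : 17 * (1 + s) / s ≤ Real.log |a| := (Real.le_log_iff_exp_le ha0).2 ha3
    have h3 : 1 / (1 + s) * Real.log |a| + 17 ≤ Real.log |a| := by
      rw [div_le_iff₀ hs] at h2
      rw [one_div, inv_mul_eq_div, div_add' _ _ _ hp.ne', div_le_iff₀ hp]
      linarith
    linarith

theorem fdSys_ok {s : ℝ} (hs : 0 < s) (hs1 : s ≤ 1) : ∃ A : ℝ, 100 ≤ A ∧ ∀ (a : ℝ) (φ : Gen), A ≤ |a| →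
    φ.Ok (1 / |a|) → Hoe a φ s → (fdSys a φ s).Ok 100 := by
  obtain ⟨A, hA, hKK⟩ := kk_le hs hs1
  refine ⟨A, hA, ?_⟩
  intro a φ ha hφ hH
  have ha1 : 100 ≤ |a| := hA.trans ha
  have ha0 : 0 < |a| := by linarith
  have hη : 1 / |a| ≤ 1 / 50 := one_div_le_one_div_of_le (by norm_num) (by linarith)
  have hη2 : 1 / |a| ≤ 1 / 2 := one_div_le_one_div_of_le (by norm_num) (by linarith)
  have e1 : (20 : ℝ) / (20 * |a|) = 1 / |a| := by field_simp
  refine ⟨?_, ?_, FG ha1 hφ, GF ha1 hφ, rev ha1 hφ, rev' ha1 hφ, -1 / 8, 1 / 4, by norm_num, by norm_num,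
    fun μ q q' h1 h2 h3 => ?_⟩
  rotate_left 2
  · have h4 : ∀ x : ℝ, x ∈ Icc (-1 / 8 + (μ : ℝ)) (-1 / 8 + μ + 1 / 4) → |x - ((2 * μ : ℤ) : ℝ) / 2| ≤ 1 / 8 := by
      rintro x ⟨h5, h6⟩
      push_cast
      rw [abs_le]
      constructor <;> linarith
    have h5 := jumpF ha1 hφ (2 * μ) q q' (h4 _ h1) (h4 _ h2) h3
    rw [show (4 : ℝ) / (1 / 4) = 16 by norm_num]
    exact h5
  · refine ⟨?_, ?_, ?_, ?_, ?_, ?_, ?_, ?_, hs, hs1, le_refl _, (hKK a φ ha).1⟩
    · exact fun i j => DF_cont11 hη2 hφ i j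
    · exact fun q => Pool.Agent.Helper18.FD.Fl_hasFDerivAt hη2 hφ q
    · exact fun q => Pool.Agent.Helper18.FD.DF_det hη2 hφ q
    · intro q k l
      have h1 := Pool.Agent.Helper18.FD.Fl_sh (a := a) hη2 hφ q k l
      refine h1.trans ?_
      show _ = sh (Fl a φ q) (2 * k - l) k
      unfold sh
      rfl
    · intro q k l
      have h1 := Pool.Agent.Helper18.FD.coef_sh (a := a) hη2 hφ q k l
      show DF a φ (q.1 + k, q.2 + l) = DF a φ q
      unfold DF
      rw [h1.1, h1.2.1, h1.2.2]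
    · intro q
      have h1 := bdF ha1 hφ q
      show nn (DF a φ q) ≤ 20 * |a|
      linarith
    · intro q q'
      have h1 := holF ha1 hφ hs hs1 hH q q'
      show nn (DF a φ q - DF a φ q') ≤ 8 * (20 * |a|) * dist q q' ^ s
      refine h1.trans (le_of_eq ?_)
      ring
    · intro q u v
      have h1 := coneF ha1 hφ q u v
      show |DF a φ q 1 0 * u + DF a φ q 1 1 * v| ≤
        2 * (|u| + |v|) + 20 / (20 * |a|) * |DF a φ q 0 0 * u + DF a φ q 0 1 * v|
      rw [e1]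
      exact h1
  · refine ⟨?_, ?_, ?_, ?_, ?_, ?_, ?_, ?_, hs, hs1, le_refl _, (hKK a φ ha).1⟩
    · exact fun i j => DG_cont hη hφ i j
    · exact fun q => Gl_deriv hη hφ q
    · exact fun q => DG_det hη hφ q
    · exact fun q k l => Gl_per hη hφ q k l
    · exact fun q k l => DG_sh hη hφ q k l
    · intro q
      have h1 := bdG ha1 hφ q
      show nn (DG a φ q) ≤ 20 * |a|
      linarith
    · intro q q'
      have h1 := holG ha1 hφ hs hs1 hH q q'
      show nn (DG a φ q - DG a φ q') ≤ 8 * (20 * |a|) * dist q q' ^ s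
      refine h1.trans (le_of_eq ?_)
      ring
    · intro q u v
      have h1 := coneG ha1 hφ q u v
      show |DG a φ q 1 0 * u + DG a φ q 1 1 * v| ≤
        2 * (|u| + |v|) + 20 / (20 * |a|) * |DG a φ q 0 0 * u + DG a φ q 0 1 * v|
      refine h1.trans (le_add_of_nonneg_right ?_)
      positivity

theorem fdSys_isT {T : T2 → T2} (ha : 100 ≤ |a|) (hφ : φ.Ok (1 / |a|))
    (hT : ∀ q, T (toT q) = toT (Fl a φ q)) : IsT (fdSys a φ s) T := by
  have hη2 : 1 / |a| ≤ 1 / 2 := one_div_le_one_div_of_le (by norm_num) (by linarith)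
  refine ⟨hT, ?_⟩
  have h1 := Pool.Agent.Helper18.FD.S_mp (a := a) hη2 hφ
  have h2 : T = fun z : T2 => toT (Fl a φ (rep z)) := by
    funext z
    rw [← hT, Pool.Agent.Helper18.UC.toT_rep]
  rw [h2]
  exact h1

theorem M_eq (n : ℕ) (q : ℝ × ℝ) : (fdSys a φ s).M n q = Pool.Agent.Helper18.FD.MF a φ n q := by
  induction n with
  | zero => rw [M_zero, Pool.Agent.Helper18.FD.MF]
  | succ n ih => rw [M_succ, ih, Pool.Agent.Helper18.FD.MF]; rfl

end Pool.Agent.Helper11.FE
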