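import Pool.Agent.Helper11.FE.Basic
import Pool.Agent.Helper18.FD.Map
import Pool.Agent.Helper18.FD.Der
import Pool.Agent.Helper18.FD.MP

/-! Project FE, file MAP (definitions): the system of a twist map near the standard map.

`Gl a φ` is the reversed inverse of `Fl a φ`: `Gl (P, X) = (p, x)` where `x` is the solution of `x - φ₂(x, X) = P` and `p = 2 x + a sin 2πx - X + φ₁(x, X)`.
Its derivative: `dx = (dP + v dX) / b`, `dp = α dx - b dX` with `α, b, v` at `(x, X)`. -/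

set_option autoImplicit false
open MeasureTheory Real Set

namespace Pool.Agent.Helper11.FE

open Pool.Agent.Helper18.UC (T2 rep toT nn clm sh sqo pt lab cor idx cell corner nn_nonneg nn_mul
  nn_sub_le nn_add_le abs_entry_le nn_one clm_apply norm_clm_le nn_le_clm)
open Pool.Agent.Helper18.FD (Gen nx Fl alf bet vee mat DF)

variable {a s : ℝ} {φ : Gen}

/-- the old position as a function of `(P, X)` -/
noncomputable def px (φ : Gen) (q : ℝ × ℝ) : ℝ := Classical.epsilon fun x : ℝ => x - φ.f2 x q.2 = q.1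

/-- the reversed inverse map -/
noncomputable def Gl (a : ℝ) (φ : Gen) (q : ℝ × ℝ) : ℝ × ℝ :=
  (2 * px φ q + a * Real.sin (2 * π * px φ q) - q.2 + φ.f1 (px φ q) q.2, px φ q)

noncomputable def ga (a : ℝ) (φ : Gen) (q : ℝ × ℝ) : ℝ :=
  2 + 2 * π * a * Real.cos (2 * π * px φ q) + φ.f11 (px φ q) q.2

noncomputable def gb (φ : Gen) (q : ℝ × ℝ) : ℝ := 1 - φ.f12 (px φ q) q.2

noncomputable def gv (φ : Gen) (q : ℝ × ℝ) : ℝ := φ.f22 (px φ q) q.2

/-- the derivative matrix of `Gl` -/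
noncomputable def DG (a : ℝ) (φ : Gen) (q : ℝ × ℝ) : Matrix (Fin 2) (Fin 2) ℝ :=
  !![ga a φ q / gb φ q, gv φ q * (ga a φ q / gb φ q) - gb φ q; 1 / gb φ q, gv φ q / gb φ q]

/-- the system of the twist map -/
noncomputable def fdSys (a : ℝ) (φ : Gen) (s : ℝ) : Sys := ⟨Fl a φ, Gl a φ, DF a φ, DG a φ, 20 * |a|, s⟩

/-- the second derivatives are Hoelder continuous -/
structure Hoe (a : ℝ) (φ : Gen) (s : ℝ) : Prop where
  h11 : ∀ q q' : ℝ × ℝ, |φ.f11 q.1 q.2 - φ.f11 q'.1 q'.2| ≤ 1 / |a| * dist q q' ^ s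
  h12 : ∀ q q' : ℝ × ℝ, |φ.f12 q.1 q.2 - φ.f12 q'.1 q'.2| ≤ 1 / |a| * dist q q' ^ s
  h22 : ∀ q q' : ℝ × ℝ, |φ.f22 q.1 q.2 - φ.f22 q'.1 q'.2| ≤ 1 / |a| * dist q q' ^ s

end Pool.Agent.Helper11.FE
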