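import Pool.Agent.Helper11.FE.Dir
import Pool.Agent.Helper11.FE.MeasLow

/-! Block FE-MUP: upper bound for the measure of the hits (`j = 0`), with a constant close to one. Port of `UC/MeasUp.lean` (the header there has the proof in words).

Differences: everything belonging to the second square is for `S.rev`: `M n' z` in terms of `P = S.rev.M n' (swap (F^[n'] z))`: `M_rev_entries` (file Basic)
gives `Z 0 0 = P 0 0, Z 0 1 = - P 1 0, Z 1 0 = - P 0 1, Z 1 1 = P 1 1`, this replaces the private lemma `entry`; `G_rev`, `F_rev` replace `F_rev` (private lemma `rel`);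
`good_curve h.bwd` for `Q'`. The slope constant `5 / KK a B` (there `≤ 5/(8B)`, `K ≥ 800`) is now `1 / (2 B)` (`≤ 1/200`), all numerical estimates get better.
`measurableSet_hit` is in MeasLow. -/

set_option autoImplicit false
open MeasureTheory Real Set

namespace Pool.Agent.Helper11.FE

open Pool.Agent.Helper18.UC (T2 rep toT nn clm sh sqo pt lab cor idx cell corner nn_nonneg nn_mul
  nn_sub_le nn_add_le abs_entry_le nn_one clm_apply norm_clm_le nn_le_clm)
open Pool.Agent.Helper18.UC (pt_lab_cor mem_sqo_iff pt_mem_sqo_iff)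

variable {S : Sys} {B : ℝ}

private theorem dist_sqo {c p q : ℝ × ℝ} {s : ℝ} (hq : q ∈ sqo c s) (hp : p ∈ sqo c s) :
    dist q p ≤ s := by
  obtain ⟨⟨h1, h2⟩, h3, h4⟩ := hq
  obtain ⟨⟨h5, h6⟩, h7, h8⟩ := hp
  rw [Prod.dist_eq, Real.dist_eq, Real.dist_eq]
  refine max_le ?_ ?_ <;> rw [abs_le] <;> constructor <;> linarith

private theorem card_diam (S : Finset ℤ) {L : ℝ} (hL : 0 ≤ L)
    (h : ∀ p ∈ S, ∀ q ∈ S, |((p : ℝ) - q)| ≤ L) : (S.card : ℝ) ≤ L + 1 := by
  rcases S.eq_empty_or_nonempty with rfl | hS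
  · simp; linarith
  have hsub : S ⊆ Finset.Icc (S.min' hS) (S.max' hS) :=
    fun x hx => Finset.mem_Icc.2 ⟨S.min'_le x hx, S.le_max' x hx⟩
  have h1 := Finset.card_le_card hsub
  rw [Int.card_Icc] at h1
  have h2 := h _ (S.max'_mem hS) _ (S.min'_mem hS)
  have h3 : S.min' hS ≤ S.max' hS := S.min'_le _ (S.max'_mem hS)
  have h4 : (((S.max' hS + 1 - S.min' hS).toNat : ℤ)) = S.max' hS + 1 - S.min' hS :=
    Int.toNat_of_nonneg (by omega)
  have h5 : (((S.max' hS + 1 - S.min' hS).toNat : ℕ) : ℝ) =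
      (S.max' hS : ℝ) + 1 - (S.min' hS : ℝ) := by
    have := congrArg (fun z : ℤ => (z : ℝ)) h4
    push_cast at this
    exact this
  have h6 : (S.card : ℝ) ≤ (((S.max' hS + 1 - S.min' hS).toNat : ℕ) : ℝ) := by exact_mod_cast h1
  rw [h5] at h6
  have h7 := (abs_le.1 h2).2
  linarith

/-- integer vectors in a small box -/
private theorem card_box (T : Finset (ℤ × ℤ)) {L1 L2 : ℝ} (hL1 : 0 ≤ L1) (hL2 : 0 ≤ L2)
    (h : ∀ p ∈ T, ∀ q ∈ T, |((p.1 : ℝ) - q.1)| ≤ L1 ∧ |((p.2 : ℝ) - q.2)| ≤ L2) :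
    (T.card : ℝ) ≤ (L1 + 1) * (L2 + 1) := by
  classical
  have h1 : ((T.image Prod.fst).card : ℝ) ≤ L1 + 1 := by
    apply card_diam _ hL1
    intro p hp q hq
    obtain ⟨p', hp', rfl⟩ := Finset.mem_image.1 hp
    obtain ⟨q', hq', rfl⟩ := Finset.mem_image.1 hq
    exact (h p' hp' q' hq').1
  have h2 : ((T.image Prod.snd).card : ℝ) ≤ L2 + 1 := by
    apply card_diam _ hL2
    intro p hp q hq
    obtain ⟨p', hp', rfl⟩ := Finset.mem_image.1 hp
    obtain ⟨q', hq', rfl⟩ := Finset.mem_image.1 hq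
    exact (h p' hp' q' hq').2
  have h3 : T ⊆ (T.image Prod.fst) ×ˢ (T.image Prod.snd) := by
    intro p hp
    exact Finset.mem_product.2 ⟨Finset.mem_image_of_mem _ hp, Finset.mem_image_of_mem _ hp⟩
  have h4 := Finset.card_le_card h3
  rw [Finset.card_product] at h4
  calc (T.card : ℝ) ≤ ((T.image Prod.fst).card : ℝ) * ((T.image Prod.snd).card : ℝ) := by
        exact_mod_cast h4
    _ ≤ (L1 + 1) * (L2 + 1) := mul_le_mul h1 h2 (by positivity) (by linarith)

/-- the return relation -/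
private theorem rel (h : S.Ok B) (n n' : ℕ) (q : ℝ × ℝ) (u w : ℤ) :
    S.rev.F^[n'] (sh (Prod.swap (S.F^[n + n'] q)) u w) =
      sh (Prod.swap (S.F^[n] q)) (u + n' * (u - w)) (w + n' * (u - w)) := by
  rw [iter_sh h.bwd, add_comm n n', Function.iterate_add_apply]
  exact congrArg (fun z : ℝ × ℝ => sh z (u + n' * (u - w)) (w + n' * (u - w)))
    (G_rev h n' (S.F^[n] q))

/-- the derivative of a return, entrywise -/
private theorem entry (h : S.Ok B) (n n' : ℕ) (q : ℝ × ℝ) (u w : ℤ) (k k' : Fin 2) :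
    |S.M (n + n') q k' k| =
      |S.rev.M n' (sh (Prod.swap (S.F^[n + n'] q)) u w) 0 k' * S.M n q 0 k -
        S.rev.M n' (sh (Prod.swap (S.F^[n + n'] q)) u w) 1 k' * S.M n q 1 k| := by
  rw [M_sh h.bwd, M_add, add_comm n n', Function.iterate_add_apply]
  obtain ⟨z00, z01, z10, z11⟩ := M_rev_entries h n' (S.F^[n] q)
  have hk' : k' = 0 ∨ k' = 1 := by fin_cases k' <;> simp
  rcases hk' with rfl | rfl
  · rw [Matrix.mul_apply, Fin.sum_univ_two, z00, z01]
    congr 1; ring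
  · rw [Matrix.mul_apply, Fin.sum_univ_two, z10, z11, ← abs_neg]
    congr 1; ring

/-- numerical inequality -/
private theorem numeric {B α β : ℝ} (hB : 100 ≤ B)
    (hα : (245 / 1000) * B ≤ α) (hβ : (245 / 1000) * B ≤ β) :
    ((1 + 3 / B) * β + 2) * ((1 + 3 / B) * α + 2) ≤
      α * β * ((1 - 3 / B) ^ 2 - (1 / (2 * B)) ^ 2) * (1 + 100 / B) := by
  have hBp : 0 < B := by linarith
  set x : ℝ := 1 / B with hx
  have hx0 : 0 < x := by positivity
  have hx1 : x ≤ 1 / 100 := one_div_le_one_div_of_le (by norm_num) hB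
  have hxB : x * B = 1 := by rw [hx]; field_simp
  have h3 : 3 / B = 3 * x := by rw [hx]; ring
  have h100 : 100 / B = 100 * x := by rw [hx]; ring
  have h5 : 1 / (2 * B) = (1 / 2) * x := by rw [hx]; ring
  have hα0 : 0 < α := by linarith
  have hβ0 : 0 < β := by linarith
  have hα2 : 2 ≤ 9 * x * α := by
    have : x * ((245 / 1000) * B) ≤ x * α := mul_le_mul_of_nonneg_left hα hx0.le
    nlinarith
  have hβ2 : 2 ≤ 9 * x * β := by
    have : x * ((245 / 1000) * B) ≤ x * β := mul_le_mul_of_nonneg_left hβ hx0.le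
    nlinarith
  rw [h3, h100, h5]
  have hA : (1 + 3 * x) * α + 2 ≤ (1 + 12 * x) * α := by linarith
  have hB' : (1 + 3 * x) * β + 2 ≤ (1 + 12 * x) * β := by linarith
  have hkey : (1 + 12 * x) ^ 2 ≤ ((1 - 3 * x) ^ 2 - ((1 / 2) * x) ^ 2) * (1 + 100 * x) := by
    nlinarith [mul_pos hx0 hx0, pow_pos hx0 3]
  calc ((1 + 3 * x) * β + 2) * ((1 + 3 * x) * α + 2)
      ≤ ((1 + 12 * x) * β) * ((1 + 12 * x) * α) :=
        mul_le_mul hB' hA (by positivity) (by positivity)
    _ = α * β * (1 + 12 * x) ^ 2 := by ring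
    _ ≤ α * β * (((1 - 3 * x) ^ 2 - ((1 / 2) * x) ^ 2) * (1 + 100 * x)) :=
        mul_le_mul_of_nonneg_left hkey (by positivity)
    _ = _ := by ring

private theorem pt_cont (k : Fin 2) (t : ℝ) : Continuous (fun u : ℝ => pt k t u) := by
  unfold pt
  split_ifs
  · exact continuous_id.prodMk continuous_const
  · exact continuous_const.prodMk continuous_id

private theorem ret_cont (h : Half S B) (N : ℕ) (u w : ℤ) :
    Continuous (fun q : ℝ × ℝ => sh (Prod.swap (S.F^[N] q)) u w) := by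
  have h1 : Continuous S.F^[N] := (F_cont h).iterate N
  have h2 : Continuous (fun q : ℝ × ℝ => Prod.swap (S.F^[N] q)) := continuous_swap.comp h1
  unfold sh
  exact (h2.fst.add continuous_const).prodMk (h2.snd.add continuous_const)

private theorem meas_sqo (c : ℝ × ℝ) (s : ℝ) : MeasurableSet (sqo c s) :=
  measurableSet_Ico.prod measurableSet_Ico

/-- the set `A u w` of the file header -/
private def AA (S : Sys) (N : ℕ) (k : Fin 2) (t : ℝ) (c : ℝ × ℝ) (s : ℝ) (c' : ℝ × ℝ) (s' : ℝ)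
    (v : ℤ × ℤ) : Set ℝ :=
  {σ | pt k t σ ∈ sqo c s ∧ sh (Prod.swap (S.F^[N] (pt k t σ))) v.1 v.2 ∈ sqo c' s'}

/-- the label function `g` of the file header -/
private noncomputable def GG (S : Sys) (N : ℕ) (k k' : Fin 2) (t : ℝ) (v : ℤ × ℤ) (σ : ℝ) : ℝ :=
  lab k' (sh (Prod.swap (S.F^[N] (pt k t σ))) v.1 v.2)

private theorem meas_AA (h : Half S B) (N : ℕ) (k : Fin 2) (t : ℝ) (c : ℝ × ℝ) (s : ℝ) (c' : ℝ × ℝ)
    (s' : ℝ) (v : ℤ × ℤ) : MeasurableSet (AA S N k t c s c' s' v) := by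
  have h1 : Measurable (fun u : ℝ => pt k t u) := (pt_cont k t).measurable
  have h2 : Measurable (fun u : ℝ => sh (Prod.swap (S.F^[N] (pt k t u))) v.1 v.2) :=
    ((ret_cont h N v.1 v.2).comp (pt_cont k t)).measurable
  exact (h1 (meas_sqo c s)).inter (h2 (meas_sqo c' s'))

private theorem deriv_GG (h : Half S B) (N : ℕ) (k k' : Fin 2) (t : ℝ) (v : ℤ × ℤ) (σ : ℝ) :
    HasDerivAt (GG S N k k' t v) (S.M N (pt k t σ) k' k) σ := by
  obtain ⟨h1, h2⟩ := hasDerivAt_line h N k t σ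
  have hk' : k' = 0 ∨ k' = 1 := by fin_cases k' <;> simp
  rcases hk' with rfl | rfl
  · have h3 : GG S N k 0 t v = fun u => (S.F^[N] (pt k t u)).1 + (v.2 : ℝ) := by
      funext u; simp [GG, lab, sh]
    rw [h3]
    exact h1.add_const _
  · have h3 : GG S N k 1 t v = fun u => (S.F^[N] (pt k t u)).2 + (v.1 : ℝ) := by
      funext u; simp [GG, lab, sh]
    rw [h3]
    exact h2.add_const _

/-- comparison of two returns with the same label -/
private theorem pair (h : S.Ok B) {n n' : ℕ}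
    {p p' : ℝ × ℝ} {k k' : Fin 2} {m m' : ℝ} (hG : Good S B n p k m) (hG' : Good S.rev B n' p' k' m')
    {c c' : ℝ × ℝ} {s s' : ℝ} (hs2 : s ≤ B / nn (S.M n p)) (hpc : p ∈ sqo c s)
    (hs2' : s' ≤ B / nn (S.rev.M n' p')) (hpc' : p' ∈ sqo c' s') {t σ1 σ2 : ℝ} {v1 v2 : ℤ × ℤ}
    (h1 : σ1 ∈ AA S (n + n') k t c s c' s' v1) (h2 : σ2 ∈ AA S (n + n') k t c s c' s' v2)
    (hg : GG S (n + n') k k' t v1 σ1 = GG S (n + n') k k' t v2 σ2) :
    ∃ dX dY dX' dY' dσ' : ℝ, |dX - m * (σ1 - σ2)| ≤ (3 / B) * |m| * |σ1 - σ2| ∧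
      |dY| ≤ (1 / (2 * B)) * |m| * |σ1 - σ2| ∧
      |dX' - m' * dσ'| ≤ (3 / B) * |m'| * |dσ'| ∧ |dY'| ≤ (1 / (2 * B)) * |m'| * |dσ'| ∧
      |dσ'| ≤ s' ∧
      dX' = dY + (((v1.1 + n' * (v1.1 - v1.2) : ℤ) : ℝ) - ((v2.1 + n' * (v2.1 - v2.2) : ℤ) : ℝ)) ∧
      dY' = dX + (((v1.2 + n' * (v1.1 - v1.2) : ℤ) : ℝ) - ((v2.2 + n' * (v2.1 - v2.2) : ℤ) : ℝ)) := by
  obtain ⟨h1a, h1b⟩ := h1
  obtain ⟨h2a, h2b⟩ := h2
  have hc := good_curve h.fwd hG ((dist_sqo h1a hpc).trans hs2) ((dist_sqo h2a hpc).trans hs2)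
  set q1 := sh (Prod.swap (S.F^[n + n'] (pt k t σ1))) v1.1 v1.2 with hq1
  set q2 := sh (Prod.swap (S.F^[n + n'] (pt k t σ2))) v2.1 v2.2 with hq2
  have e1 : pt k' (lab k' q1) (cor k' q1) = q1 := pt_lab_cor k' q1
  have hlab : lab k' q1 = lab k' q2 := hg
  have e2 : pt k' (lab k' q1) (cor k' q2) = q2 := by rw [hlab]; exact pt_lab_cor k' q2
  have hc' := good_curve (t := lab k' q1) (s := cor k' q1) (s' := cor k' q2) h.bwd hG'
    (by rw [e1]; exact (dist_sqo h1b hpc').trans hs2')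
    (by rw [e2]; exact (dist_sqo h2b hpc').trans hs2')
  rw [e1, e2] at hc'
  have r1 := rel h n n' (pt k t σ1) v1.1 v1.2
  have r2 := rel h n n' (pt k t σ2) v2.1 v2.2
  rw [← hq1] at r1
  rw [← hq2] at r2
  refine ⟨_, _, _, _, cor k' q1 - cor k' q2, hc.1, hc.2, hc'.1, hc'.2, ?_, ?_, ?_⟩
  · have i1 := (mem_sqo_iff k' c' q1 s').1 h1b
    have i2 := (mem_sqo_iff k' c' q2 s').1 h2b
    rw [abs_le]
    constructor <;> linarith [i1.2.1, i1.2.2, i2.2.1, i2.2.2]
  · rw [r1, r2]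
    simp only [sh, Prod.fst_swap]
    push_cast
    ring
  · rw [r1, r2]
    simp only [sh, Prod.snd_swap]
    push_cast
    ring

private theorem line_bound (h : S.Ok B) {n n' : ℕ}
    {p p' : ℝ × ℝ} {k k' : Fin 2} {m m' : ℝ} (hG : Good S B n p k m) (hG' : Good S.rev B n' p' k' m')
    {c c' : ℝ × ℝ} {s s' : ℝ} (hs1 : B / (2 * nn (S.M n p)) ≤ s) (hs2 : s ≤ B / nn (S.M n p))
    (hpc : p ∈ sqo c s) (hs1' : B / (2 * nn (S.rev.M n' p')) ≤ s') (hs2' : s' ≤ B / nn (S.rev.M n' p'))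
    (hpc' : p' ∈ sqo c' s') (t : ℝ) :
    volume {σ | pt k t σ ∈ Hit S (n + n') c s c' s'} ≤
      (Ico (lab k c) (lab k c + s)).indicator
        (fun _ => ENNReal.ofReal ((1 + 100 / B) * (s * s' ^ 2))) t := by
  classical
  by_cases ht : t ∈ Ico (lab k c) (lab k c + s)
  swap
  · rw [indicator_of_notMem ht]
    have : {σ | pt k t σ ∈ Hit S (n + n') c s c' s'} = ∅ := by
      ext σ
      simp only [mem_ofPred_eq, mem_empty_iff_false, iff_false]
      intro h
      exact ht ((pt_mem_sqo_iff k c t σ s).1 h.1).1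
    rw [this, measure_empty]
  rw [indicator_of_mem ht]
  have hB := h.fwd.hB
  have hBp : 0 < B := by linarith
  have hL : 2 ≤ nn (S.M n p) := two_le_nn h.fwd n p
  have hL' : 2 ≤ nn (S.rev.M n' p') := two_le_nn h.bwd n' p'
  have hs0 : 0 < s := lt_of_lt_of_le (by positivity) hs1
  have hs0' : 0 < s' := lt_of_lt_of_le (by positivity) hs1'
  obtain ⟨hm1, hm2, hm3⟩ := id hG
  obtain ⟨hm1', hm2', hm3'⟩ := id hG'
  have hα : (245 / 1000) * B ≤ |m| * s := by
    have h3 : B / (2 * nn (S.M n p)) * nn (S.M n p) = B / 2 := by field_simp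
    have h4 : B / 2 ≤ s * nn (S.M n p) := by
      rw [← h3]; exact mul_le_mul_of_nonneg_right hs1 (by linarith)
    have h5 := mul_le_mul_of_nonneg_right hm1 hs0.le
    linarith
  have hβ : (245 / 1000) * B ≤ |m'| * s' := by
    have h3 : B / (2 * nn (S.rev.M n' p')) * nn (S.rev.M n' p') = B / 2 := by field_simp
    have h4 : B / 2 ≤ s' * nn (S.rev.M n' p') := by
      rw [← h3]; exact mul_le_mul_of_nonneg_right hs1' (by linarith)
    have h5 := mul_le_mul_of_nonneg_right hm1' hs0'.le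
    linarith
  have hαB : |m| * s ≤ B := by
    calc |m| * s ≤ nn (S.M n p) * (B / nn (S.M n p)) :=
          mul_le_mul hm2 hs2 hs0.le (by linarith)
      _ = B := by field_simp
  have hβB : |m'| * s' ≤ B := by
    calc |m'| * s' ≤ nn (S.rev.M n' p') * (B / nn (S.rev.M n' p')) :=
          mul_le_mul hm2' hs2' hs0'.le (by linarith)
      _ = B := by field_simp
  have hm0 : 0 < |m| := by
    have : 0 < |m| * s := by linarith
    exact (pos_iff_pos_of_mul_pos this).2 hs0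
  have hm0' : 0 < |m'| := by
    have : 0 < |m'| * s' := by linarith
    exact (pos_iff_pos_of_mul_pos this).2 hs0'
  have h3B : 3 / B ≤ 3 / 100 := div_le_div_of_nonneg_left (by norm_num) (by norm_num) hB
  have h3B0 : 0 < 3 / B := by positivity
  have h5K : 1 / (2 * B) = (1 / 2) * (1 / B) := by field_simp
  have h5K0 : 0 < 1 / (2 * B) := by positivity
  have h5K1 : 1 / (2 * B) ≤ 1 / 100 := by
    have : 1 / B ≤ 1 / 100 := one_div_le_one_div_of_le (by norm_num) hB
    linarith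
  have h5KB : (1 / (2 * B)) * B ≤ 1 := by
    calc (1 / (2 * B)) * B = 1 / 2 := by field_simp
      _ ≤ 1 := by norm_num
  -- the minimal expansion
  set κ : ℝ := (1 - 3 / B) ^ 2 - (1 / (2 * B)) ^ 2 with hκ
  have hκ0 : 0 < κ := by
    have h1 : (97 / 100 : ℝ) ≤ 1 - 3 / B := by linarith
    nlinarith
  set gmin : ℝ := |m| * |m'| * κ with hgmin
  have hg0 : 0 < gmin := by positivity
  -- abbreviations
  set A : ℤ × ℤ → Set ℝ := AA S (n + n') k t c s c' s' with hA
  set G : ℤ × ℤ → ℝ → ℝ := GG S (n + n') k k' t with hGdef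
  have hAm : ∀ v, MeasurableSet (A v) := meas_AA h.fwd (n + n') k t c s c' s'
  have hlow : ∀ (x dx y : ℝ), |x - y * dx| ≤ (3 / B) * |y| * |dx| →
      (1 - 3 / B) * (|y| * |dx|) ≤ |x| ∧ |x| ≤ (1 + 3 / B) * (|y| * |dx|) := by
    intro x dx y h
    have h2 : |y * dx| = |y| * |dx| := abs_mul _ _
    have h3 := abs_sub_abs_le_abs_sub (y * dx) x
    have h4 := abs_sub_abs_le_abs_sub x (y * dx)
    rw [abs_sub_comm] at h3
    rw [h2] at h3 h4
    constructor <;> linarith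
  have hinj : ∀ v, InjOn (G v) (A v) := by
    intro v σ1 h1 σ2 h2 hg
    obtain ⟨dX, dY, dX', dY', dσ', i1, i2, i3, i4, i5, i6, i7⟩ :=
      pair h hG hG' hs2 hpc hs2' hpc' h1 h2 hg
    rw [sub_self, add_zero] at i6 i7
    have j1 := (hlow _ _ _ i1).1
    have j3 := (hlow _ _ _ i3).1
    rw [i6] at j3
    rw [← i7] at j1
    have k1 : 0 ≤ |m| * |σ1 - σ2| := by positivity
    have k2 : 0 ≤ |m'| * |dσ'| := by positivity
    by_contra hne
    have hpos : 0 < |m| * |σ1 - σ2| := mul_pos hm0 (abs_pos.2 (sub_ne_zero.2 hne))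
    have l1 : (97 / 100) * (|m| * |σ1 - σ2|) ≤ (1 / 100) * (|m'| * |dσ'|) := by
      calc (97 / 100) * (|m| * |σ1 - σ2|) ≤ (1 - 3 / B) * (|m| * |σ1 - σ2|) :=
            mul_le_mul_of_nonneg_right (by linarith) k1
        _ ≤ |dY'| := j1
        _ ≤ 1 / (2 * B) * (|m'| * |dσ'|) := by rw [← mul_assoc]; exact i4
        _ ≤ _ := mul_le_mul_of_nonneg_right h5K1 k2
    have l2 : (97 / 100) * (|m'| * |dσ'|) ≤ (1 / 100) * (|m| * |σ1 - σ2|) := by
      calc (97 / 100) * (|m'| * |dσ'|) ≤ (1 - 3 / B) * (|m'| * |dσ'|) :=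
            mul_le_mul_of_nonneg_right (by linarith) k2
        _ ≤ |dY| := j3
        _ ≤ 1 / (2 * B) * (|m| * |σ1 - σ2|) := by rw [← mul_assoc]; exact i2
        _ ≤ _ := mul_le_mul_of_nonneg_right h5K1 k1
    linarith
  have hder : ∀ v, ∀ σ ∈ A v, gmin ≤ |S.M (n + n') (pt k t σ) k' k| := by
    intro v σ hσ
    rw [entry h n n' (pt k t σ) v.1 v.2 k k']
    obtain ⟨h1, h2⟩ := hσ
    have g1 := hm3 (pt k t σ) ((dist_sqo h1 hpc).trans hs2)
    have g2 := hm3' _ ((dist_sqo h2 hpc').trans hs2')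
    set x1 := S.M n (pt k t σ) 0 k
    set y1 := S.M n (pt k t σ) 1 k
    set x2 := S.rev.M n' (sh (Prod.swap (S.F^[n + n'] (pt k t σ))) v.1 v.2) 0 k'
    set y2 := S.rev.M n' (sh (Prod.swap (S.F^[n + n'] (pt k t σ))) v.1 v.2) 1 k'
    have a1 : (1 - 3 / B) * |m| ≤ |x1| := by
      have h3 := abs_sub_abs_le_abs_sub m x1
      rw [abs_sub_comm] at h3
      linarith [g1.1]
    have a2 : (1 - 3 / B) * |m'| ≤ |x2| := by
      have h3 := abs_sub_abs_le_abs_sub m' x2
      rw [abs_sub_comm] at h3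
      linarith [g2.1]
    have h5 := abs_sub_abs_le_abs_sub (x2 * x1) (y2 * y1)
    rw [abs_mul, abs_mul] at h5
    have b1 : ((1 - 3 / B) * |m'|) * ((1 - 3 / B) * |m|) ≤ |x2| * |x1| :=
      mul_le_mul a2 a1 (mul_nonneg (by linarith) hm0.le) (abs_nonneg _)
    have b2 : |y2| * |y1| ≤ ((1 / (2 * B)) * |m'|) * ((1 / (2 * B)) * |m|) :=
      mul_le_mul g2.2 g1.2 (abs_nonneg _) (by positivity)
    have b3 : gmin = ((1 - 3 / B) * |m'|) * ((1 - 3 / B) * |m|) -
        ((1 / (2 * B)) * |m'|) * ((1 / (2 * B)) * |m|) := by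
      rw [hgmin, hκ]; ring
    rw [b3]
    linarith
  have hvol : ∀ v, ENNReal.ofReal gmin * volume (A v) ≤ volume (G v '' A v) := by
    intro v
    have h1 := lintegral_image_eq_lintegral_abs_deriv_mul (hAm v)
      (fun σ _ => (deriv_GG h.fwd (n + n') k k' t v σ).hasDerivWithinAt) (hinj v)
      (fun _ => (1 : ENNReal))
    rw [setLIntegral_const, one_mul] at h1
    rw [h1, ← setLIntegral_const]
    apply setLIntegral_mono' (hAm v)
    intro σ hσ
    rw [mul_one]
    exact ENNReal.ofReal_le_ofReal (hder v σ hσ)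
  have himg : ∀ v, MeasurableSet (G v '' A v) := fun v =>
    (hAm v).image_of_continuousOn_injOn
      (fun σ _ => (deriv_GG h.fwd (n + n') k k' t v σ).continuousAt.continuousWithinAt) (hinj v)
  -- counting
  set L1 : ℝ := (1 + 3 / B) * (|m'| * s') + 1 with hL1
  set L2 : ℝ := (1 + 3 / B) * (|m| * s) + 1 with hL2
  have hcount : ∀ (T : Finset (ℤ × ℤ)) (t' : ℝ),
      (((T.filter (fun v => t' ∈ G v '' A v)).card : ℕ) : ℝ) ≤ (L1 + 1) * (L2 + 1) := by
    intro T t'
    set φ : ℤ × ℤ → ℤ × ℤ := fun v => (v.1 + n' * (v.1 - v.2), v.2 + n' * (v.1 - v.2)) with hφ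
    have hφinj : Function.Injective φ := by
      intro v1 v2 h
      have e1 : v1.1 + n' * (v1.1 - v1.2) = v2.1 + n' * (v2.1 - v2.2) := congrArg Prod.fst h
      have e2 : v1.2 + n' * (v1.1 - v1.2) = v2.2 + n' * (v2.1 - v2.2) := congrArg Prod.snd h
      have e3 : v1.1 - v1.2 = v2.1 - v2.2 := by linarith
      rw [e3] at e1 e2
      exact Prod.ext (by linarith) (by linarith)
    rw [← Finset.card_image_of_injective _ hφinj]
    apply card_box _ (by positivity) (by positivity)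
    intro P hP Q hQ
    obtain ⟨v1, hv1, rfl⟩ := Finset.mem_image.1 hP
    obtain ⟨v2, hv2, rfl⟩ := Finset.mem_image.1 hQ
    obtain ⟨σ1, hσ1, e1⟩ := (Finset.mem_filter.1 hv1).2
    obtain ⟨σ2, hσ2, e2⟩ := (Finset.mem_filter.1 hv2).2
    obtain ⟨dX, dY, dX', dY', dσ', i1, i2, i3, i4, i5, i6, i7⟩ :=
      pair h hG hG' hs2 hpc hs2' hpc' hσ1 hσ2 (e1.trans e2.symm)
    have j1 := (hlow _ _ _ i1).2
    have j3 := (hlow _ _ _ i3).2
    have hdσ : |σ1 - σ2| ≤ s := by
      have a1 := ((pt_mem_sqo_iff k c t σ1 s).1 hσ1.1).2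
      have a2 := ((pt_mem_sqo_iff k c t σ2 s).1 hσ2.1).2
      rw [abs_le]
      constructor <;> linarith [a1.1, a1.2, a2.1, a2.2]
    have k1 : |m| * |σ1 - σ2| ≤ |m| * s := mul_le_mul_of_nonneg_left hdσ hm0.le
    have k2 : |m'| * |dσ'| ≤ |m'| * s' := mul_le_mul_of_nonneg_left i5 hm0'.le
    have l1 : |dX| ≤ (1 + 3 / B) * (|m| * s) :=
      j1.trans (mul_le_mul_of_nonneg_left k1 (by positivity))
    have l2 : |dX'| ≤ (1 + 3 / B) * (|m'| * s') :=
      j3.trans (mul_le_mul_of_nonneg_left k2 (by positivity))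
    have l3 : |dY| ≤ 1 := by
      calc |dY| ≤ 1 / (2 * B) * (|m| * |σ1 - σ2|) := by rw [← mul_assoc]; exact i2
        _ ≤ 1 / (2 * B) * B := mul_le_mul_of_nonneg_left (k1.trans hαB) h5K0.le
        _ ≤ 1 := h5KB
    have l4 : |dY'| ≤ 1 := by
      calc |dY'| ≤ 1 / (2 * B) * (|m'| * |dσ'|) := by rw [← mul_assoc]; exact i4
        _ ≤ 1 / (2 * B) * B := mul_le_mul_of_nonneg_left (k2.trans hβB) h5K0.le
        _ ≤ 1 := h5KB
    constructor
    · have e : (((φ v1).1 : ℤ) : ℝ) - ((φ v2).1 : ℤ) = dX' - dY := by rw [i6]; simp only [hφ]; ring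
      rw [e]
      exact (abs_sub _ _).trans (by linarith)
    · have e : (((φ v1).2 : ℤ) : ℝ) - ((φ v2).2 : ℤ) = dY' - dX := by rw [i7]; simp only [hφ]; ring
      rw [e]
      exact (abs_sub _ _).trans (by linarith)
  have hlabel : ∀ v, G v '' A v ⊆ Ico (lab k' c') (lab k' c' + s') := by
    rintro v _ ⟨σ, hσ, rfl⟩
    exact ((mem_sqo_iff k' c' _ s').1 hσ.2).1
  have hsum : ∀ T : Finset (ℤ × ℤ), ENNReal.ofReal gmin * ∑ v ∈ T, volume (A v) ≤
      ENNReal.ofReal ((L1 + 1) * (L2 + 1)) * ENNReal.ofReal s' := by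
    intro T
    calc ENNReal.ofReal gmin * ∑ v ∈ T, volume (A v)
        = ∑ v ∈ T, ENNReal.ofReal gmin * volume (A v) := Finset.mul_sum _ _ _
      _ ≤ ∑ v ∈ T, volume (G v '' A v) := Finset.sum_le_sum fun v _ => hvol v
      _ = ∑ v ∈ T, ∫⁻ x, (G v '' A v).indicator 1 x := by
          apply Finset.sum_congr rfl
          intro v _
          rw [lintegral_indicator_one (himg v)]
      _ = ∫⁻ x, ∑ v ∈ T, (G v '' A v).indicator 1 x := by
          rw [lintegral_finsetSum]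
          intro v _
          exact measurable_one.indicator (himg v)
      _ ≤ ∫⁻ x, (Ico (lab k' c') (lab k' c' + s')).indicator
            (fun _ => ENNReal.ofReal ((L1 + 1) * (L2 + 1))) x := by
          apply lintegral_mono
          intro x
          change ∑ v ∈ T, (G v '' A v).indicator 1 x ≤ _
          have hc : ∑ v ∈ T, (G v '' A v).indicator (1 : ℝ → ENNReal) x =
              (((T.filter (fun v => x ∈ G v '' A v)).card : ℕ) : ENNReal) := by
            rw [Finset.card_filter]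
            push_cast
            apply Finset.sum_congr rfl
            intro v _
            by_cases hx : x ∈ G v '' A v
            · rw [indicator_of_mem hx, if_pos hx]; rfl
            · rw [indicator_of_notMem hx, if_neg hx]
          rw [hc]
          by_cases hx : x ∈ Ico (lab k' c') (lab k' c' + s')
          · rw [indicator_of_mem hx]
            have := ENNReal.ofReal_le_ofReal (hcount T x)
            rwa [ENNReal.ofReal_natCast] at this
          · rw [indicator_of_notMem hx]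
            have : T.filter (fun v => x ∈ G v '' A v) = ∅ := by
              rw [Finset.filter_eq_empty_iff]
              intro v _ hv
              exact hx (hlabel v hv)
            rw [this]
            simp
      _ = ENNReal.ofReal ((L1 + 1) * (L2 + 1)) * ENNReal.ofReal s' := by
          rw [lintegral_indicator measurableSet_Ico, setLIntegral_const, Real.volume_Ico,
            add_sub_cancel_left]
  -- the union
  have hunion : {σ | pt k t σ ∈ Hit S (n + n') c s c' s'} ⊆ ⋃ v : ℤ × ℤ, A v := by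
    rintro σ ⟨h1, u, w, h2⟩
    exact mem_iUnion.2 ⟨(u, w), h1, h2⟩
  have hnum := numeric hB hα hβ
  have hfinal : (L1 + 1) * (L2 + 1) * s' ≤ gmin * ((1 + 100 / B) * (s * s' ^ 2)) := by
    have e1 : L1 + 1 = (1 + 3 / B) * (|m'| * s') + 2 := by rw [hL1]; ring
    have e2 : L2 + 1 = (1 + 3 / B) * (|m| * s) + 2 := by rw [hL2]; ring
    rw [e1, e2]
    calc ((1 + 3 / B) * (|m'| * s') + 2) * ((1 + 3 / B) * (|m| * s) + 2) * s'
        ≤ (|m| * s * (|m'| * s') * ((1 - 3 / B) ^ 2 - (1 / (2 * B)) ^ 2) * (1 + 100 / B)) * s' :=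
          mul_le_mul_of_nonneg_right hnum hs0'.le
      _ = gmin * ((1 + 100 / B) * (s * s' ^ 2)) := by rw [hgmin, hκ]; ring
  have hle : ENNReal.ofReal gmin * volume (⋃ v : ℤ × ℤ, A v) ≤
      ENNReal.ofReal gmin * ENNReal.ofReal ((1 + 100 / B) * (s * s' ^ 2)) := by
    calc ENNReal.ofReal gmin * volume (⋃ v : ℤ × ℤ, A v)
        ≤ ENNReal.ofReal gmin * ∑' v, volume (A v) := by gcongr; exact measure_iUnion_le A
      _ = ⨆ T : Finset (ℤ × ℤ), ENNReal.ofReal gmin * ∑ v ∈ T, volume (A v) := by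
          rw [ENNReal.tsum_eq_iSup_sum, ENNReal.mul_iSup]
      _ ≤ ENNReal.ofReal ((L1 + 1) * (L2 + 1)) * ENNReal.ofReal s' := iSup_le hsum
      _ = ENNReal.ofReal ((L1 + 1) * (L2 + 1) * s') :=
          (ENNReal.ofReal_mul (mul_nonneg (by positivity) (by positivity))).symm
      _ ≤ ENNReal.ofReal (gmin * ((1 + 100 / B) * (s * s' ^ 2))) :=
          ENNReal.ofReal_le_ofReal hfinal
      _ = _ := by rw [ENNReal.ofReal_mul hg0.le]
  have hne : ENNReal.ofReal gmin ≠ 0 := by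
    rw [Ne, ENNReal.ofReal_eq_zero, not_le]; exact hg0
  exact (measure_mono hunion).trans
    ((ENNReal.mul_le_mul_iff_right hne ENNReal.ofReal_ne_top).1 hle)

theorem hit_up (h : S.Ok B) {n n' : ℕ}
    {p p' : ℝ × ℝ} (hp : Hyp S B n p) (hp' : Hyp S.rev B n' p')
    {k k' : Fin 2} {m m' : ℝ} (hG : Good S B n p k m) (hG' : Good S.rev B n' p' k' m')
    {c c' : ℝ × ℝ} {s s' : ℝ} (hs1 : B / (2 * nn (S.M n p)) ≤ s) (hs2 : s ≤ B / nn (S.M n p))
    (hpc : p ∈ sqo c s) (hs1' : B / (2 * nn (S.rev.M n' p')) ≤ s') (hs2' : s' ≤ B / nn (S.rev.M n' p'))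
    (hpc' : p' ∈ sqo c' s') (hs1'' : s' < 1) :
    volume (Hit S (n + n') c s c' s') ≤ ENNReal.ofReal ((1 + 100 / B) * (s ^ 2 * s' ^ 2)) := by
  have hB := h.fwd.hB
  have hBp : 0 < B := by linarith
  have hL : 2 ≤ nn (S.M n p) := two_le_nn h.fwd n p
  have hs0 : 0 < s := lt_of_lt_of_le (by positivity) hs1
  have hHm : MeasurableSet (Hit S (n + n') c s c' s') := measurableSet_hit h.fwd _ _ _ _ _
  have hfub : volume (Hit S (n + n') c s c' s') =
      ∫⁻ t, volume {σ | pt k t σ ∈ Hit S (n + n') c s c' s'} := by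
    have hk : k = 0 ∨ k = 1 := by fin_cases k <;> simp
    rw [Measure.volume_eq_prod]
    rcases hk with rfl | rfl
    · rw [Measure.prod_apply_symm hHm]
      rfl
    · rw [Measure.prod_apply hHm]
      rfl
  rw [hfub]
  calc ∫⁻ t, volume {σ | pt k t σ ∈ Hit S (n + n') c s c' s'}
      ≤ ∫⁻ t, (Ico (lab k c) (lab k c + s)).indicator
        (fun _ => ENNReal.ofReal ((1 + 100 / B) * (s * s' ^ 2))) t :=
        lintegral_mono fun t => line_bound h hG hG' hs1 hs2 hpc hs1' hs2' hpc' t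
    _ = ENNReal.ofReal ((1 + 100 / B) * (s * s' ^ 2)) * ENNReal.ofReal s := by
        rw [lintegral_indicator measurableSet_Ico, setLIntegral_const, Real.volume_Ico,
          add_sub_cancel_left]
    _ = ENNReal.ofReal ((1 + 100 / B) * (s ^ 2 * s' ^ 2)) := by
        rw [← ENNReal.ofReal_mul (by positivity)]
        congr 1
        ring

end Pool.Agent.Helper11.FE
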