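import Pool.Agent.Helper11.FE.Basic

/-! Project FE, file NL (proved): at a hyperbolic time the iterate is nearly linear on the square of radius `B / ‖DF ^ n(p)‖`.
Port of `UC/NL.lean` with a Hoelder bound: `W = 32 B² L = K^(1+s)`, `P = K^(n-i)`, `P P^s = W^(n-i)`. -/

set_option autoImplicit false
open MeasureTheory Real Set

namespace Pool.Agent.Helper11.FE

open Pool.Agent.Helper18.UC (T2 rep toT nn clm sh sqo pt lab cor idx cell corner nn_nonneg nn_mul
  nn_sub_le nn_add_le abs_entry_le nn_one clm_apply norm_clm_le nn_le_clm)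

variable {S : Sys} {B : ℝ}

private theorem pow_rpow11 (h : Half S B) (m : ℕ) :
    S.KK B ^ m * (S.KK B ^ m) ^ S.s = (32 * B ^ 2 * S.L) ^ m := by
  have hK := KK_pos h
  have h1 : (S.KK B ^ m) ^ S.s = (S.KK B ^ S.s) ^ m := by
    rw [← Real.rpow_natCast, ← Real.rpow_natCast, ← Real.rpow_mul hK.le, ← Real.rpow_mul hK.le, mul_comm]
  rw [h1, ← mul_pow, KK_rpow h]

theorem near_linear (h : Half S B) {n : ℕ} {p q : ℝ × ℝ} (hp : Hyp S B n p)
    (hq : dist q p ≤ B / nn (S.M n p)) :
    ∀ i ≤ n, (32 * B ^ 2 * S.L) ^ (n - i) * nn (S.M i q - S.M i p) ≤ nn (S.M n p) / B := by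
  have hB := h.hB
  have hB0 : 0 < B := by linarith
  have hK0 : 0 < S.KK B := KK_pos h
  have hK1 : 1 ≤ S.KK B := KK_ge1 h
  have hL0 : 0 < S.L := L_pos h
  have hW0 : 0 < 32 * B ^ 2 * S.L := base_pos h
  have hs0 := h.s0
  have hs1 := h.s1
  have hΛ : 0 < nn (S.M n p) := by have := two_le_nn h n p; linarith
  set Λ := nn (S.M n p) with hΛdef
  set W := 32 * B ^ 2 * S.L with hW
  intro i
  induction i generalizing q with
  | zero =>
    intro _
    rw [M_zero, M_zero, sub_self]
    have h0 : nn (0 : Matrix (Fin 2) (Fin 2) ℝ) = 0 := by unfold nn; simp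
    rw [h0, mul_zero]
    positivity
  | succ i ih =>
    intro hi
    have hi' : i ≤ n := by omega
    obtain ⟨X, hX⟩ : ∃ X, X = W ^ (n - (i + 1)) := ⟨_, rfl⟩
    obtain ⟨Y, hY⟩ : ∃ Y, Y = W ^ (n - i) := ⟨_, rfl⟩
    obtain ⟨P, hP⟩ : ∃ P, P = S.KK B ^ (n - i) := ⟨_, rfl⟩
    obtain ⟨Q, hQ⟩ : ∃ Q, Q = P ^ S.s := ⟨_, rfl⟩
    have hX0 : 0 < X := by rw [hX]; exact pow_pos hW0 _
    have hY0 : 0 < Y := by rw [hY]; exact pow_pos hW0 _
    have hP0 : 0 < P := by rw [hP]; exact pow_pos hK0 _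
    have hP1 : 1 ≤ P := by rw [hP]; exact one_le_pow₀ hK1
    have hQ0 : 0 < Q := by rw [hQ]; exact Real.rpow_pos_of_pos hP0 _
    have hQ1 : 1 ≤ Q := by rw [hQ]; exact Real.one_le_rpow hP1 hs0.le
    have hPQ : P * Q = Y := by rw [hQ, hP, hY]; exact pow_rpow11 h _
    have hXY : Y = X * W := by
      rw [hX, hY, ← pow_succ]
      congr 1
      omega
    have hμ : P * nn (S.M i p) ≤ Λ := by rw [hP]; exact hp i hi'
    have hμ' : nn (S.M i p) ≤ Λ / P := by
      rw [le_div_iff₀ hP0]
      linarith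
    have he : ∀ q' : ℝ × ℝ, dist q' p ≤ B / Λ → nn (S.M i q' - S.M i p) ≤ Λ / (B * Y) := by
      intro q' hq'
      have h1 := ih hq' hi'
      rw [← hY] at h1
      have h2 : nn (S.M i q' - S.M i p) ≤ (Λ / B) / Y := by
        rw [le_div_iff₀ hY0]
        linarith
      rw [div_div] at h2
      exact h2
    have hball : ∀ q' ∈ Metric.closedBall p (B / Λ), nn (S.M i q') ≤ 2 * Λ / P := by
      intro q' hq'
      have h1 := nn_sub_le (S.M i q') (S.M i p)
      have h2 := he q' (Metric.mem_closedBall.1 hq')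
      have h3 : Λ / (B * Y) ≤ Λ / P := by
        refine div_le_div_of_nonneg_left hΛ.le hP0 ?_
        rw [← hPQ]
        have h5 : P * 1 ≤ P * Q := mul_le_mul_of_nonneg_left hQ1 hP0.le
        have h6 : 1 * (P * Q) ≤ B * (P * Q) := mul_le_mul_of_nonneg_right (by linarith) (by positivity)
        linarith
      have h4 : 2 * Λ / P = Λ / P + Λ / P := by ring
      linarith
    have hdist : dist (S.F^[i] q) (S.F^[i] p) ≤ 2 * B / P := by
      have h1 := iter_dist_le h i (convex_closedBall p (B / Λ)) hball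
        (Metric.mem_closedBall_self (by positivity)) (Metric.mem_closedBall.2 hq)
      have h2 : 2 * Λ / P * dist q p ≤ 2 * Λ / P * (B / Λ) :=
        mul_le_mul_of_nonneg_left hq (by positivity)
      have h3 : 2 * Λ / P * (B / Λ) = 2 * B / P := by field_simp
      linarith
    have hA : nn (S.A (S.F^[i] q) - S.A (S.F^[i] p)) ≤ 16 * S.L * B / Q := by
      have h1 := h.hol (S.F^[i] q) (S.F^[i] p)
      have h2 : dist (S.F^[i] q) (S.F^[i] p) ^ S.s ≤ (2 * B / P) ^ S.s :=
        Real.rpow_le_rpow dist_nonneg hdist hs0.le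
      have h3 : (2 * B / P) ^ S.s = (2 * B) ^ S.s / Q := by
        rw [hQ, Real.div_rpow (by positivity) hP0.le]
      have h4 : (2 * B) ^ S.s ≤ 2 * B := by
        calc (2 * B) ^ S.s ≤ (2 * B) ^ (1:ℝ) :=
              Real.rpow_le_rpow_of_exponent_le (by linarith) hs1
          _ = 2 * B := Real.rpow_one _
      have h5 : (2 * B) ^ S.s / Q ≤ 2 * B / Q := div_le_div_of_nonneg_right h4 hQ0.le
      have h6 : 8 * S.L * dist (S.F^[i] q) (S.F^[i] p) ^ S.s ≤ 8 * S.L * (2 * B / Q) :=
        mul_le_mul_of_nonneg_left (by linarith) (by positivity)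
      have h7 : 8 * S.L * (2 * B / Q) = 16 * S.L * B / Q := by ring
      linarith
    have hdec : S.M (i + 1) q - S.M (i + 1) p = S.A (S.F^[i] q) * (S.M i q - S.M i p) +
        (S.A (S.F^[i] q) - S.A (S.F^[i] p)) * S.M i p := by
      rw [M_succ, M_succ, mul_sub, sub_mul]
      abel
    have hT : nn (S.M (i + 1) q - S.M (i + 1) p) ≤
        S.L * (Λ / (B * Y)) + 16 * S.L * B / Q * (Λ / P) := by
      rw [hdec]
      refine (nn_add_le _ _).trans (add_le_add ?_ ?_)
      · exact (nn_mul _ _).trans (mul_le_mul (h.bd _) (he q hq) (nn_nonneg _) hL0.le)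
      · exact (nn_mul _ _).trans (mul_le_mul hA hμ' (nn_nonneg _) (by positivity))
    rw [← hX]
    calc X * nn (S.M (i + 1) q - S.M (i + 1) p)
        ≤ X * (S.L * (Λ / (B * Y)) + 16 * S.L * B / Q * (Λ / P)) :=
          mul_le_mul_of_nonneg_left hT hX0.le
      _ = X * (S.L * Λ / Y) * (1 / B + 16 * B) := by
          rw [← hPQ]
          field_simp
      _ = (Λ / (32 * B ^ 2)) * (1 / B + 16 * B) := by
          rw [hXY, hW]
          congr 1
          field_simp
      _ ≤ (Λ / (32 * B ^ 2)) * (32 * B) := by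
          refine mul_le_mul_of_nonneg_left ?_ (by positivity)
          have h1 : 1 / B ≤ 1 := by
            rw [div_le_one hB0]
            linarith
          linarith
      _ = Λ / B := by field_simp

end Pool.Agent.Helper11.FE
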