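import Pool.Agent.Helper11.FE.Strips
import Pool.Agent.Helper11.FE.Sums

/-! Block FE-POS: two invariant sets of fast points meet. Port of `UC/Pos.lean`, only `pos` (`big` is not needed here). -/

set_option autoImplicit false
open MeasureTheory Real Set Filter

namespace Pool.Agent.Helper11.FE

open Pool.Agent.Helper18.UC (T2 rep toT nn clm sh sqo pt lab cor idx cell corner nn_nonneg nn_mul
  nn_sub_le nn_add_le abs_entry_le nn_one clm_apply norm_clm_le nn_le_clm)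

variable {S : Sys} {B : ℝ}

private lemma log_gap89 (h : Half S B) : 0 < Real.log S.L - Real.log (S.KK B) := by
  have h1 : 0 < S.KK B := KK_pos h
  have h3 := h.hK
  have h2 : S.KK B < S.L := by linarith
  have := Real.log_lt_log h1 h2
  linarith

private lemma real_pos89 {E : Set T2} (h : volume E ≠ 0) : 0 < volume.real E :=
  ENNReal.toReal_pos h (measure_ne_top _ _)

theorem pos (h : S.Ok B) {T : T2 → T2} (hT : IsT S T) {c : ℝ}
    (hc : Real.log (S.KK B) < c) (hc2 : c ≤ Real.log S.L) {Ω : Set T2} (hΩ : MeasurableSet Ω)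
    (hinv : T ⁻¹' Ω = Ω) (hP : ∀ z ∈ Ω, ∀ᶠ N : ℕ in atTop, z ∈ PN S c N) {E E' : Set T2}
    (hE : MeasurableSet E) (hEΩ : E ⊆ Ω) (hE' : MeasurableSet E') (hEΩ' : E' ⊆ Ω)
    (hm : volume E ≠ 0) (hm' : volume E' ≠ 0) :
    ∃ N : ℕ, volume (E ∩ T^[N] ⁻¹' E') ≠ 0 ∧ volume (E ∩ T^[N + 1] ⁻¹' E') ≠ 0 := by
  have hD := log_gap89 h.fwd
  set θ := (c - Real.log (S.KK B)) / (Real.log S.L - Real.log (S.KK B)) with hθ
  have hθ0 : 0 < θ := div_pos (by linarith) hD
  have hμ := real_pos89 hm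
  have hμ' := real_pos89 hm'
  set μ := volume.real E with hμd
  set μ' := volume.real E' with hμd'
  have hL := L_ge4 h.fwd
  have hB := h.fwd.hB
  have hBp : 0 < B := by linarith
  have hLp : 0 < S.L := L_pos h.fwd
  set b : ℝ := 1 / (2 * B ^ 2 * S.L) with hb
  have hb0 : 0 < b := by positivity
  have hx : 0 < θ * μ / 2 := by positivity
  have hx' : 0 < θ * μ' / 2 := by positivity
  set x := θ * μ / 2 with hxd
  set x' := θ * μ' / 2 with hxd'
  set η : ℝ := b * (x * x') / 4 with hη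
  have hη0 : 0 < η := by positivity
  obtain ⟨n, 𝒬, hn, hF, hh⟩ := family_fwd h.fwd hc.le hc2 hΩ hP hE hEΩ hη0 hx 1
  obtain ⟨n', 𝒬', hn', hF', hh'⟩ := family_bwd h hT hc.le hc2 hΩ hinv hP hE' hEΩ' hη0 hx' 1
  rw [← hθ, ← hμd] at hh
  rw [← hθ, ← hμd'] at hh'
  have k1 : x ≤ volume.real (⋃₀ 𝒬) := by linarith
  have k2 : x' ≤ volume.real (⋃₀ 𝒬') := by linarith
  have k3 : x * x' ≤ volume.real (⋃₀ 𝒬) * volume.real (⋃₀ 𝒬') :=
    mul_le_mul k1 k2 hx'.le (hx.le.trans k1)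
  have k4 : b ≤ 1 / (2 * B ^ 2 * S.L ^ 0) := by
    rw [hb, pow_zero, mul_one]
    apply one_div_le_one_div_of_le (by positivity)
    have : 0 ≤ 2 * B ^ 2 := by positivity
    nlinarith
  have k5 : b = 1 / (2 * B ^ 2 * S.L ^ 1) := by rw [hb, pow_one]
  have s0 := sum_low h hT hn hn' hE hE' hη0.le hF hF' (j := 0) (by norm_num)
  have s1 := sum_low h hT hn hn' hE hE' hη0.le hF hF' (j := 1) le_rfl
  rw [← k5] at s1
  have p0 : 0 < x * x' := mul_pos hx hx'
  have k6 : b * (x * x') ≤ b * (volume.real (⋃₀ 𝒬) * volume.real (⋃₀ 𝒬')) :=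
    mul_le_mul_of_nonneg_left k3 hb0.le
  have k7 : b * (volume.real (⋃₀ 𝒬) * volume.real (⋃₀ 𝒬')) ≤
      1 / (2 * B ^ 2 * S.L ^ 0) * (volume.real (⋃₀ 𝒬) * volume.real (⋃₀ 𝒬')) :=
    mul_le_mul_of_nonneg_right k4 (p0.le.trans k3)
  have k8 : 0 < b * (x * x') := mul_pos hb0 p0
  refine ⟨n + n', fun h0 => ?_, fun h0 => ?_⟩
  · have e : volume.real (E ∩ T^[n + 0 + n'] ⁻¹' E') = 0 := by
      rw [add_zero, measureReal_def, h0, ENNReal.toReal_zero]
    rw [e] at s0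
    linarith
  · have e : volume.real (E ∩ T^[n + 1 + n'] ⁻¹' E') = 0 := by
      rw [show n + 1 + n' = n + n' + 1 by ring, measureReal_def, h0, ENNReal.toReal_zero]
    rw [e] at s1
    linarith

end Pool.Agent.Helper11.FE
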