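import Pool.Agent.Helper11.FE.Map

/-! Block FE-PX: the reversed inverse map `Gl a φ`. Compare `FD/Map.lean` and `FD/Der.lean` (`nx`), the proofs are the same with the roles of the variables exchanged.

`px_spec`, `px_unique`: for fixed `X` the function `x ↦ x - φ.f2 x X` is a bi-Lipschitz bijection of `ℝ` (`FD.B_bilip`; surjective: continuous and within `η` of the identity).
`px_lip`: `(1 - η) |x - x'| ≤ |(x - f2 x X) - (x' - f2 x' X)| ≤ |P - P'| + |f2 x' X - f2 x' X'| ≤ |P - P'| + η |X - X'|` (`FD.f_lip`), `(1 + η)/(1 - η) ≤ 11/10`.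
`px_sh`: translation by integers. `Gl_per`, `DG_sh` from it (`FD.nice_int`, periodicity of sin and cos).
`Gl_deriv`: `px` is differentiable: `(x, X) ↦ (x - φ.f2 x X, X)` is `C¹` with invertible derivative and `(P, X) ↦ (px (P, X), X)` is its continuous inverse
(`HasFDerivAt.of_local_left_inverse`, as in `FD/Der.lean`); then the chain rule. `DG_det`: algebra. `DG_cont`: continuity of `px` (`px_lip`), of `φ.fij`, and `gb ≥ 1/2`. -/

set_option autoImplicit false
open MeasureTheory Real Set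

namespace Pool.Agent.Helper11.FE

open Pool.Agent.Helper18.UC (T2 rep toT nn clm sh sqo pt lab cor idx cell corner nn_nonneg nn_mul
  nn_sub_le nn_add_le abs_entry_le nn_one clm_apply norm_clm_le nn_le_clm)
open Pool.Agent.Helper18.FD (Gen nx Fl alf bet vee mat DF)

variable {a s : ℝ} {φ : Gen}

private theorem eta_px {η : ℝ} (hφ : φ.Ok η) : 0 ≤ η := (abs_nonneg _).trans (hφ.n1.bd 0 0)

theorem px_spec {η : ℝ} (hη : η ≤ 1 / 50) (hφ : φ.Ok η) (q : ℝ × ℝ) : px φ q - φ.f2 (px φ q) q.2 = q.1 := by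
  have hc : Continuous fun t : ℝ => t - φ.f2 t q.2 :=
    continuous_id.sub (hφ.n2.cont.comp (continuous_id.prodMk continuous_const))
  have hs : Function.Surjective fun t : ℝ => t - φ.f2 t q.2 := by
    have t1 : Filter.Tendsto (fun t : ℝ => t - η) Filter.atTop Filter.atTop := by
      simpa [sub_eq_add_neg] using Filter.tendsto_atTop_add_const_right Filter.atTop (-η) Filter.tendsto_id
    have t2 : Filter.Tendsto (fun t : ℝ => t + η) Filter.atBot Filter.atBot := by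
      simpa using Filter.tendsto_atBot_add_const_right Filter.atBot η Filter.tendsto_id
    refine hc.surjective (Filter.tendsto_atTop_mono (fun t => ?_) t1)
      (Filter.tendsto_atBot_mono (fun t => ?_) t2)
    · have := (abs_le.1 (hφ.n2.bd t q.2)).2
      linarith
    · have := (abs_le.1 (hφ.n2.bd t q.2)).1
      linarith
  exact Classical.epsilon_spec (hs q.1)

theorem px_unique {η : ℝ} (hη : η ≤ 1 / 50) (hφ : φ.Ok η) {q : ℝ × ℝ} {x : ℝ} (h : x - φ.f2 x q.2 = q.1) :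
    px φ q = x := by
  have h1 := (Pool.Agent.Helper18.FD.B_bilip (by linarith) hφ q.2 (px φ q) x).1
  rw [px_spec hη hφ q, h, sub_self, abs_zero] at h1
  have h2 := abs_nonneg (px φ q - x)
  have h3 : |px φ q - x| = 0 := by nlinarith
  exact sub_eq_zero.1 (abs_eq_zero.1 h3)

theorem px_lip {η : ℝ} (hη : η ≤ 1 / 50) (hφ : φ.Ok η) (q q' : ℝ × ℝ) :
    |px φ q - px φ q'| ≤ 11 / 10 * dist q q' := by
  have h1 := (Pool.Agent.Helper18.FD.B_bilip (by linarith) hφ q.2 (px φ q) (px φ q')).1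
  have h2 := px_spec hη hφ q
  have h3 := px_spec hη hφ q'
  have h4 := (Pool.Agent.Helper18.FD.f_lip hφ (px φ q') (px φ q') q'.2 q.2).2
  rw [sub_self, abs_zero, mul_zero, zero_add] at h4
  have h0 := eta_px hφ
  have e : (px φ q - φ.f2 (px φ q) q.2) - (px φ q' - φ.f2 (px φ q') q.2) =
      (q.1 - q'.1) - (φ.f2 (px φ q') q'.2 - φ.f2 (px φ q') q.2) := by
    rw [h2]
    linarith
  rw [e] at h1
  have h5 := abs_sub (q.1 - q'.1) (φ.f2 (px φ q') q'.2 - φ.f2 (px φ q') q.2)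
  have h6 : |q.1 - q'.1| ≤ dist q q' := by
    rw [← Real.dist_eq]
    exact le_max_left _ _
  have h7 : |q'.2 - q.2| ≤ dist q q' := by
    rw [abs_sub_comm, ← Real.dist_eq]
    exact le_max_right _ _
  have h8 := abs_nonneg (px φ q - px φ q')
  have hd : 0 ≤ dist q q' := dist_nonneg
  have h9 : η * |q'.2 - q.2| ≤ 1 / 50 * dist q q' := mul_le_mul hη h7 (abs_nonneg _) (by norm_num)
  have h10 : (1 - 1 / 50) * |px φ q - px φ q'| ≤ (1 - η) * |px φ q - px φ q'| :=
    mul_le_mul_of_nonneg_right (by linarith) h8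
  linarith

theorem px_sh {η : ℝ} (hη : η ≤ 1 / 50) (hφ : φ.Ok η) (q : ℝ × ℝ) (k l : ℤ) :
    px φ (sh q k l) = px φ q + k := by
  refine px_unique hη hφ ?_
  have h1 := Pool.Agent.Helper18.FD.nice_int hφ.n2 (px φ q) q.2 k l
  have h2 := px_spec hη hφ q
  change px φ q + k - φ.f2 (px φ q + k) (q.2 + l) = q.1 + k
  rw [h1]
  linarith

theorem Gl_per {η : ℝ} (hη : η ≤ 1 / 50) (hφ : φ.Ok η) (q : ℝ × ℝ) (k l : ℤ) :
    Gl a φ (sh q k l) = sh (Gl a φ q) (2 * k - l) k := by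
  have h1 := Pool.Agent.Helper18.FD.nice_int hφ.n1 (px φ q) q.2 k l
  have h3 : Real.sin (2 * π * (px φ q + k)) = Real.sin (2 * π * px φ q) := by
    rw [show 2 * π * (px φ q + k) = 2 * π * px φ q + k * (2 * π) by ring, Real.sin_add_int_mul_two_pi]
  unfold Gl
  rw [px_sh hη hφ, h3]
  change (2 * (px φ q + k) + a * Real.sin (2 * π * px φ q) - (q.2 + l) + φ.f1 (px φ q + k) (q.2 + l), px φ q + k) =
    (2 * px φ q + a * Real.sin (2 * π * px φ q) - q.2 + φ.f1 (px φ q) q.2 + ((2 * k - l : ℤ) : ℝ), px φ q + k)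
  rw [h1]
  refine Prod.ext ?_ rfl
  push_cast
  ring

theorem DG_sh {η : ℝ} (hη : η ≤ 1 / 50) (hφ : φ.Ok η) (q : ℝ × ℝ) (k l : ℤ) :
    DG a φ (sh q k l) = DG a φ q := by
  have h1 := Pool.Agent.Helper18.FD.nice_int hφ.n11 (px φ q) q.2 k l
  have h2 := Pool.Agent.Helper18.FD.nice_int hφ.n12 (px φ q) q.2 k l
  have h3 := Pool.Agent.Helper18.FD.nice_int hφ.n22 (px φ q) q.2 k l
  have h4 : Real.cos (2 * π * (px φ q + k)) = Real.cos (2 * π * px φ q) := by
    rw [show 2 * π * (px φ q + k) = 2 * π * px φ q + k * (2 * π) by ring, Real.cos_add_int_mul_two_pi]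
  have e1 : ga a φ (sh q k l) = ga a φ q := by
    unfold ga
    rw [px_sh hη hφ, h4]
    change 2 + 2 * π * a * Real.cos (2 * π * px φ q) + φ.f11 (px φ q + k) (q.2 + l) = _
    rw [h1]
  have e2 : gb φ (sh q k l) = gb φ q := by
    unfold gb
    rw [px_sh hη hφ]
    change 1 - φ.f12 (px φ q + k) (q.2 + l) = _
    rw [h2]
  have e3 : gv φ (sh q k l) = gv φ q := by
    unfold gv
    rw [px_sh hη hφ]
    exact h3
  unfold DG
  rw [e1, e2, e3]

theorem g_bd {η : ℝ} (hφ : φ.Ok η) (q : ℝ × ℝ) : |gb φ q - 1| ≤ η ∧ |gv φ q| ≤ η ∧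
    |ga a φ q - (2 + 2 * π * a * Real.cos (2 * π * px φ q))| ≤ η := by
  refine ⟨?_, hφ.n22.bd _ _, ?_⟩
  · have h := hφ.n12.bd (px φ q) q.2
    unfold gb
    rw [show 1 - φ.f12 (px φ q) q.2 - 1 = -φ.f12 (px φ q) q.2 by ring, abs_neg]
    exact h
  · have h := hφ.n11.bd (px φ q) q.2
    unfold ga
    rw [show 2 + 2 * π * a * Real.cos (2 * π * px φ q) + φ.f11 (px φ q) q.2 -
      (2 + 2 * π * a * Real.cos (2 * π * px φ q)) = φ.f11 (px φ q) q.2 by ring]
    exact h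

private theorem gb_pos {η : ℝ} (hη : η ≤ 1 / 50) (hφ : φ.Ok η) (q : ℝ × ℝ) : 0 < gb φ q := by
  have h := (abs_le.1 (g_bd (a := 0) hφ q).1).1
  linarith

private theorem px_cont {η : ℝ} (hη : η ≤ 1 / 50) (hφ : φ.Ok η) : Continuous (px φ) := by
  have h : LipschitzWith (Real.toNNReal (11 / 10)) (px φ) := by
    refine LipschitzWith.of_dist_le_mul fun q q' => ?_
    rw [Real.dist_eq, Real.coe_toNNReal _ (by norm_num)]
    exact px_lip hη hφ q q'
  exact h.continuous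

theorem DG_cont {η : ℝ} (hη : η ≤ 1 / 50) (hφ : φ.Ok η) (i j : Fin 2) : Continuous fun q => DG a φ q i j := by
  have hn := px_cont hη hφ
  have hp : Continuous fun q : ℝ × ℝ => (px φ q, q.2) := hn.prodMk continuous_snd
  have c11 : Continuous fun q : ℝ × ℝ => φ.f11 (px φ q) q.2 := hφ.n11.cont.comp hp
  have c12 : Continuous fun q : ℝ × ℝ => φ.f12 (px φ q) q.2 := hφ.n12.cont.comp hp
  have c22 : Continuous fun q : ℝ × ℝ => φ.f22 (px φ q) q.2 := hφ.n22.cont.comp hp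
  have ca : Continuous (ga a φ) := by
    unfold ga
    fun_prop
  have cb : Continuous (gb φ) := by
    unfold gb
    fun_prop
  have cv : Continuous (gv φ) := c22
  have hb : ∀ q, gb φ q ≠ 0 := fun q => (gb_pos hη hφ q).ne'
  have d1 : Continuous fun q => ga a φ q / gb φ q := ca.div cb hb
  have d2 : Continuous fun q => 1 / gb φ q := continuous_const.div cb hb
  have d3 : Continuous fun q => gv φ q / gb φ q := cv.div cb hb
  fin_cases i <;> fin_cases j
  · exact d1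
  · exact (cv.mul d1).sub cb
  · exact d2
  · exact d3

theorem DG_det {η : ℝ} (hη : η ≤ 1 / 50) (hφ : φ.Ok η) (q : ℝ × ℝ) : (DG a φ q).det = 1 := by
  have hb : gb φ q ≠ 0 := (gb_pos hη hφ q).ne'
  rw [Matrix.det_fin_two]
  simp [DG]
  field_simp
  ring

private theorem tot_px {f f1 f2 : ℝ → ℝ → ℝ} (c1 : Continuous fun q : ℝ × ℝ => f1 q.1 q.2)
    (c2 : Continuous fun q : ℝ × ℝ => f2 q.1 q.2)
    (d1 : ∀ y x, HasDerivAt (fun t => f t x) (f1 y x) y)
    (d2 : ∀ y x, HasDerivAt (fun t => f y t) (f2 y x) x) (u : ℝ × ℝ) :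
    HasFDerivAt (fun q : ℝ × ℝ => f q.1 q.2)
      (f1 u.1 u.2 • ContinuousLinearMap.fst ℝ ℝ ℝ + f2 u.1 u.2 • ContinuousLinearMap.snd ℝ ℝ ℝ) u := by
  have e1 : ∀ y x, HasFDerivAt (fun t => f t x) (f1 y x • (1 : ℝ →L[ℝ] ℝ)) y := fun y x =>
    (d1 y x).hasFDerivAt.congr_fderiv (by ext; simp)
  have e2 : ∀ y x, HasFDerivAt (fun t => f y t) (f2 y x • (1 : ℝ →L[ℝ] ℝ)) x := fun y x =>
    (d2 y x).hasFDerivAt.congr_fderiv (by ext; simp)
  have h := (hasStrictFDerivAt_uncurry_coprod (𝕜 := ℝ) (u := u) (f := f)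
    (f₁ := fun y x => f1 y x • (1 : ℝ →L[ℝ] ℝ)) (f₂ := fun y x => f2 y x • (1 : ℝ →L[ℝ] ℝ))
    (Filter.Eventually.of_forall fun v => e1 v.1 v.2)
    (Filter.Eventually.of_forall fun v => e2 v.1 v.2)
    (c1.smul continuous_const).continuousAt (c2.smul continuous_const).continuousAt).hasFDerivAt
  refine h.congr_fderiv ?_
  refine ContinuousLinearMap.ext fun v => ?_
  simp [Function.HasUncurry.uncurry]

private theorem px_der {η : ℝ} (hη : η ≤ 1 / 50) (hφ : φ.Ok η) (q : ℝ × ℝ) :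
    HasFDerivAt (px φ) ((1 / gb φ q) • ContinuousLinearMap.fst ℝ ℝ ℝ +
      (gv φ q / gb φ q) • ContinuousLinearMap.snd ℝ ℝ ℝ) q := by
  have hb : gb φ q ≠ 0 := (gb_pos hη hφ q).ne'
  have hg : ContinuousAt (fun q : ℝ × ℝ => (px φ q, q.2)) q :=
    ((px_cont hη hφ).prodMk continuous_snd).continuousAt
  have h1 := tot_px hφ.n12.cont hφ.n22.cont hφ.d21 hφ.d22 (px φ q, q.2)
  have hf : HasFDerivAt (fun z : ℝ × ℝ => (z.1 - φ.f2 z.1 z.2, z.2))
      ((ContinuousLinearMap.fst ℝ ℝ ℝ -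
        (φ.f12 (px φ q) q.2 • ContinuousLinearMap.fst ℝ ℝ ℝ +
          φ.f22 (px φ q) q.2 • ContinuousLinearMap.snd ℝ ℝ ℝ)).prod (ContinuousLinearMap.snd ℝ ℝ ℝ)) (px φ q, q.2) :=
    (hasFDerivAt_fst.sub h1).prodMk hasFDerivAt_snd
  have hh : HasFDerivAt (fun z : ℝ × ℝ => z) (ContinuousLinearMap.id ℝ (ℝ × ℝ)) q := hasFDerivAt_id q
  have hcomp : (fun z : ℝ × ℝ => (z.1 - φ.f2 z.1 z.2, z.2)) ∘ (fun q : ℝ × ℝ => (px φ q, q.2)) =
      fun q : ℝ × ℝ => q := by
    funext q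
    have h := px_spec hη hφ q
    simp only [Function.comp_apply, h]
  have hsymm : Function.LeftInverse
      (((1 / gb φ q) • ContinuousLinearMap.fst ℝ ℝ ℝ +
        (gv φ q / gb φ q) • ContinuousLinearMap.snd ℝ ℝ ℝ).prod (ContinuousLinearMap.snd ℝ ℝ ℝ))
      ((ContinuousLinearMap.fst ℝ ℝ ℝ -
        (φ.f12 (px φ q) q.2 • ContinuousLinearMap.fst ℝ ℝ ℝ +
          φ.f22 (px φ q) q.2 • ContinuousLinearMap.snd ℝ ℝ ℝ)).prod (ContinuousLinearMap.snd ℝ ℝ ℝ)) := by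
    intro v
    refine Prod.ext ?_ (by simp)
    have e : φ.f12 (px φ q) q.2 = 1 - gb φ q := by
      unfold gb
      ring
    have e2 : φ.f22 (px φ q) q.2 = gv φ q := rfl
    simp only [ContinuousLinearMap.prod_apply, add_apply, sub_apply,
      smul_apply, ContinuousLinearMap.coe_fst', ContinuousLinearMap.coe_snd', smul_eq_mul, e, e2]
    field_simp
    ring
  have key := HasFDerivAt.of_comp_of_leftInverse hg hf hh (Filter.Eventually.of_forall fun z => congrFun hcomp z)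
    hsymm
  have key2 := key.fst
  refine key2.congr_fderiv ?_
  refine ContinuousLinearMap.ext fun v => ?_
  simp

theorem Gl_deriv {η : ℝ} (hη : η ≤ 1 / 50) (hφ : φ.Ok η) (q : ℝ × ℝ) : HasFDerivAt (Gl a φ) (clm (DG a φ q)) q := by
  have hb : gb φ q ≠ 0 := (gb_pos hη hφ q).ne'
  have h1 := px_der hη hφ q
  have g2 : HasFDerivAt (fun q : ℝ × ℝ => q.2) (ContinuousLinearMap.snd ℝ ℝ ℝ) q := hasFDerivAt_snd
  have h2 := tot_px hφ.n11.cont hφ.n12.cont hφ.d11 hφ.d12 (px φ q, q.2)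
  have h3 := HasFDerivAt.comp q h2 (h1.prodMk g2)
  have h4 := ((((h1.const_mul 2).add (((h1.const_mul (2 * π)).sin).const_mul a)).sub g2).add h3).prodMk h1
  refine h4.congr_fderiv ?_
  refine ContinuousLinearMap.ext fun v => ?_
  rw [clm_apply]
  have e : φ.f12 (px φ q) q.2 = 1 - gb φ q := by
    unfold gb
    ring
  have e2 : φ.f11 (px φ q) q.2 = ga a φ q - (2 + 2 * π * a * Real.cos (2 * π * px φ q)) := by
    unfold ga
    ring
  refine Prod.ext ?_ ?_
  · simp [DG, e, e2]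
    field_simp
    ring
  · simp [DG]

end Pool.Agent.Helper11.FE
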