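import Pool.Agent.Helper11.FE.Px

/-! Block FE-REV: `Gl` is the reversed inverse of `Fl`.

`FG`: with `Gl (P, X) = (p, x)`: `Fl (x, p)`: the new position is `X` by `FD.nx_unique` (`X - φ.f1 x X = 2x + a sin - p`, definition of `p`), and the new momentum is
`x - φ.f2 x X = P` (`px_spec`). So `Fl (swap (Gl (P, X))) = (X, P)`. `GF`: with `Fl (x, p) = (X, P)`, `P = x - φ.f2 x X`: `px (P, X) = x` (`px_unique`), and
`2x + a sin - X + φ.f1 x X = p` (`FD.nx_spec`). `coef_eq`: hence `ga, gb, gv` at `swap (Fl q)` are `alf, bet, vee` at `q`, and conversely at `swap (Gl q)`.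
`rev`, `rev'`: matrix algebra with `b ≠ 0` (`DF = mat al be v = !![al/be, -1/be; be - v (al/be), v/be]`). -/

set_option autoImplicit false
open MeasureTheory Real Set

namespace Pool.Agent.Helper11.FE

open Pool.Agent.Helper18.UC (T2 rep toT nn clm sh sqo pt lab cor idx cell corner nn_nonneg nn_mul
  nn_sub_le nn_add_le abs_entry_le nn_one clm_apply norm_clm_le nn_le_clm)
open Pool.Agent.Helper18.FD (Gen nx Fl alf bet vee mat DF)

variable {a s : ℝ} {φ : Gen}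

private theorem eta75 {a : ℝ} (ha : 100 ≤ |a|) : (1 : ℝ) / |a| ≤ 1 / 100 :=
  one_div_le_one_div_of_le (by norm_num) ha

private theorem mat75 {al be v : ℝ} (hb : be ≠ 0) :
    !![al / be, v * (al / be) - be; 1 / be, v / be] * !![0, 1; 1, 0] * mat al be v = !![0, 1; 1, 0] := by
  unfold mat
  ext i j
  fin_cases i <;> fin_cases j <;> simp [Matrix.mul_apply, Fin.sum_univ_two] <;> field_simp <;> ring

private theorem mat75' {al be v : ℝ} (hb : be ≠ 0) :
    mat al be v * !![0, 1; 1, 0] * !![al / be, v * (al / be) - be; 1 / be, v / be] = !![0, 1; 1, 0] := by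
  unfold mat
  ext i j
  fin_cases i <;> fin_cases j <;> simp [Matrix.mul_apply, Fin.sum_univ_two] <;> field_simp <;> ring

private theorem bet75 (ha : 100 ≤ |a|) (hφ : φ.Ok (1 / |a|)) (q : ℝ × ℝ) : bet a φ q ≠ 0 := by
  have h1 := hφ.n12.bd q.1 (nx a φ q)
  have h2 := eta75 ha
  have h3 := (abs_le.1 h1).2
  unfold bet
  intro h
  linarith

theorem FG (ha : 100 ≤ |a|) (hφ : φ.Ok (1 / |a|)) (q : ℝ × ℝ) : Fl a φ (Prod.swap (Gl a φ q)) = Prod.swap q := by
  have hη := eta75 ha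
  have h1 := px_spec (hη.trans (by norm_num)) hφ q
  have e : Prod.swap (Gl a φ q) =
      (px φ q, 2 * px φ q + a * Real.sin (2 * π * px φ q) - q.2 + φ.f1 (px φ q) q.2) := rfl
  rw [e]
  have h2 : nx a φ (px φ q, 2 * px φ q + a * Real.sin (2 * π * px φ q) - q.2 + φ.f1 (px φ q) q.2) = q.2 := by
    refine Pool.Agent.Helper18.FD.nx_unique (hη.trans (by norm_num)) hφ ?_
    dsimp only
    ring
  unfold Fl
  rw [h2]
  exact Prod.ext rfl h1

theorem GF (ha : 100 ≤ |a|) (hφ : φ.Ok (1 / |a|)) (q : ℝ × ℝ) : Gl a φ (Prod.swap (Fl a φ q)) = Prod.swap q := by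
  have hη := eta75 ha
  have h1 := Pool.Agent.Helper18.FD.nx_spec (a := a) (hη.trans (by norm_num)) hφ q
  have e : Prod.swap (Fl a φ q) = (q.1 - φ.f2 q.1 (nx a φ q), nx a φ q) := rfl
  rw [e]
  have h2 : px φ (q.1 - φ.f2 q.1 (nx a φ q), nx a φ q) = q.1 :=
    px_unique (hη.trans (by norm_num)) hφ rfl
  unfold Gl
  rw [h2]
  refine Prod.ext ?_ rfl
  dsimp only [Prod.swap]
  linarith

theorem coef_eq (ha : 100 ≤ |a|) (hφ : φ.Ok (1 / |a|)) (q : ℝ × ℝ) :
    ga a φ (Prod.swap (Fl a φ q)) = alf a φ q ∧ gb φ (Prod.swap (Fl a φ q)) = bet a φ q ∧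
      gv φ (Prod.swap (Fl a φ q)) = vee a φ q := by
  have hη := eta75 ha
  have e : Prod.swap (Fl a φ q) = (q.1 - φ.f2 q.1 (nx a φ q), nx a φ q) := rfl
  have h2 : px φ (q.1 - φ.f2 q.1 (nx a φ q), nx a φ q) = q.1 :=
    px_unique (hη.trans (by norm_num)) hφ rfl
  rw [e]
  unfold ga gb gv alf bet vee
  rw [h2]
  exact ⟨rfl, rfl, rfl⟩

theorem rev (ha : 100 ≤ |a|) (hφ : φ.Ok (1 / |a|)) (q : ℝ × ℝ) :
    DG a φ (Prod.swap (Fl a φ q)) * !![0, 1; 1, 0] * DF a φ q = !![0, 1; 1, 0] := by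
  obtain ⟨h1, h2, h3⟩ := coef_eq ha hφ q
  unfold DG DF
  rw [h1, h2, h3]
  exact mat75 (bet75 ha hφ q)

theorem rev' (ha : 100 ≤ |a|) (hφ : φ.Ok (1 / |a|)) (q : ℝ × ℝ) :
    DF a φ (Prod.swap (Gl a φ q)) * !![0, 1; 1, 0] * DG a φ q = !![0, 1; 1, 0] := by
  obtain ⟨h1, h2, h3⟩ := coef_eq ha hφ (Prod.swap (Gl a φ q))
  rw [FG ha hφ, Prod.swap_swap] at h1 h2 h3
  unfold DG DF
  rw [h1, h2, h3]
  exact mat75' (bet75 ha hφ _)

end Pool.Agent.Helper11.FE
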