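import Pool.Agent.Helper11.FE.Torus
import Pool.Agent.Helper11.FE.Sel
import Pool.Agent.Helper18.UC.Dens

/-! Block FE-STRIPS: the two families of cells. Port of `UC/Strips.lean` (the header there has the proof in words).

`family`: the common part: for any `S` with `Half S B` (used for `S` and for `S.rev`), `E` measurable with `vol (E \ PN S c N) → 0`.
`family_bwd`: `Θ z = swap (T^[N] z)` is measure preserving (`hT.mp.iterate`, `Measure.measurePreserving_swap`), and for `Θ z ∈ swap ⁻¹' Ω`: `T^[N] z ∈ Ω`, so `z ∈ Ω`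
(`hinv`), and `Θ z ∈ PN S.rev c N ↔ z ∈ PN S c N` (`nn_rep_rev`). So `vol (swap ⁻¹' E \ PN S.rev c N) = vol (Θ ⁻¹' ..) ≤ vol (Ω \ PN S c N) → 0`. -/

set_option autoImplicit false
open MeasureTheory Real Set Filter

namespace Pool.Agent.Helper11.FE

open Pool.Agent.Helper18.UC (T2 rep toT nn clm sh sqo pt lab cor idx cell corner nn_nonneg nn_mul
  nn_sub_le nn_add_le abs_entry_le nn_one clm_apply norm_clm_le nn_le_clm density exists_family)

variable {S : Sys} {B : ℝ}

theorem tendsto_diff_PN (h : Half S B) {c : ℝ} {Ω : Set T2} (hΩ : MeasurableSet Ω)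
    (hP : ∀ z ∈ Ω, ∀ᶠ N : ℕ in atTop, z ∈ PN S c N) :
    Tendsto (fun N => volume (Ω \ PN S c N)) atTop (nhds 0) := by
  have h := tendsto_measure_of_tendsto_indicator_of_isFiniteMeasure (L := atTop)
    (As := fun N => Ω \ PN S c N) (A := (∅ : Set T2)) (volume : Measure T2)
    (fun N => hΩ.diff (measurableSet_PN h c N))
    (by
      intro x
      by_cases hx : x ∈ Ω
      · filter_upwards [hP x hx] with N hN
        constructor
        · intro h
          exact absurd hN h.2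
        · intro h
          exact absurd h (Set.notMem_empty x)
      · refine Eventually.of_forall fun N => ?_
        constructor
        · intro h
          exact absurd h.1 hx
        · intro h
          exact absurd h (Set.notMem_empty x))
  rwa [measure_empty] at h

private lemma theta89 (h : Half S B) {c : ℝ}
    (hc : Real.log (S.KK B) ≤ c) (hc2 : c ≤ Real.log S.L) :
    0 ≤ (c - Real.log (S.KK B)) / (Real.log S.L - Real.log (S.KK B)) ∧
      (c - Real.log (S.KK B)) / (Real.log S.L - Real.log (S.KK B)) ≤ 1 := by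
  have hK : 0 < S.KK B := KK_pos h
  have hLK := h.hK
  have h1 : Real.log (S.KK B) < Real.log S.L := Real.log_lt_log hK (by linarith)
  have h2 : 0 < Real.log S.L - Real.log (S.KK B) := by linarith
  constructor
  · exact div_nonneg (by linarith) h2.le
  · rw [div_le_one h2]
    linarith

/-- the level of the cell -/
private lemma lev89 (h : Half S B) (n : ℕ) (z : T2) :
    ∃ k : ℕ, 1 / 2 ^ k ≤ B / nn (S.M n (rep z)) := by
  have hB := h.hB
  have h1 : 0 < B / nn (S.M n (rep z)) := by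
    have := two_le_nn h n (rep z)
    exact div_pos (by linarith) (by linarith)
  obtain ⟨k, hk⟩ := exists_pow_lt_of_lt_one h1 (by norm_num : (1/2:ℝ) < 1)
  refine ⟨k, ?_⟩
  rw [one_div_pow] at hk
  exact hk.le

theorem family (h : Half S B) {c : ℝ} (hc : Real.log (S.KK B) ≤ c) (hc2 : c ≤ Real.log S.L)
    {E : Set T2} (hE : MeasurableSet E)
    (hP : Tendsto (fun N => volume (E \ PN S c N)) atTop (nhds 0))
    {η ε : ℝ} (hη : 0 < η) (hε : 0 < ε) (n1 : ℕ) :
    ∃ (n : ℕ) (𝒬 : Set (Set T2)), n1 ≤ n ∧ Fam S B n E η 𝒬 ∧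
      (c - Real.log (S.KK B)) / (Real.log S.L - Real.log (S.KK B)) * volume.real E - ε ≤
        volume.real (⋃₀ 𝒬) := by
  have hB := h.hB
  have hB0 : 0 < B := by linarith
  obtain ⟨hθ0, hθ1⟩ := theta89 h hc hc2
  set θ := (c - Real.log (S.KK B)) / (Real.log S.L - Real.log (S.KK B)) with hθ
  obtain ⟨E0, hE0E, hE0m, hE0v, k0, hk0⟩ := density hE hη (show 0 < ε / 4 by linarith)
  -- a large time
  have hK8 : 8 * B ≤ S.KK B := by
    have := KK_ge h
    linarith
  set n0 : ℕ := n1 + k0 + 2 with hn0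
  have ev1 : ∀ᶠ N : ℕ in atTop, volume (E \ PN S c N) < ENNReal.ofReal (ε / 4) :=
    hP.eventually_lt_const (by
      rw [ENNReal.ofReal_pos]
      linarith)
  have ev2 : ∀ᶠ N : ℕ in atTop, ((n0:ℝ) + 1) / N < ε / 4 := by
    have h1 : Tendsto (fun N : ℕ => ((n0:ℝ) + 1) / N) atTop (nhds 0) :=
      tendsto_const_div_atTop_nhds_zero_nat _
    exact h1.eventually_lt_const (by linarith)
  obtain ⟨N, hN1, hN2, hN3⟩ := (ev1.and (ev2.and (eventually_ge_atTop 1))).exists
  obtain ⟨n, hn, hsel⟩ := select h hc hc2 hE0m hN3 n0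
  -- the family
  classical
  set lev : T2 → ℕ := fun z => Nat.find (lev89 h n z) with hlev
  obtain ⟨𝒬, hQc, hQd, hQ, hQu⟩ := exists_family (E0 ∩ HG S B n) lev
  have hbig : ∀ z ∈ HG S B n, B * 2 ^ k0 < nn (S.M n (rep z)) := by
    intro z hz
    have h1 : Hyp S B n (rep z) := hz
    have h2 := h1 0 (Nat.zero_le n)
    rw [M_zero, nn_one, Nat.sub_zero] at h2
    have h3 : (8 * B) ^ n ≤ S.KK B ^ n := pow_le_pow_left₀ (by linarith) hK8 n
    have h4 : B * 2 ^ k0 ≤ (8 * B) ^ n := by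
      obtain ⟨m, hm⟩ : ∃ m, n = m + 1 ∧ k0 ≤ m := ⟨n - 1, by omega, by omega⟩
      rw [hm.1, pow_succ]
      have h5 : (2:ℝ) ^ k0 ≤ (8 * B) ^ m :=
        (pow_le_pow_right₀ (by norm_num) hm.2).trans (pow_le_pow_left₀ (by norm_num) (by linarith) m)
      have h6 : (0:ℝ) < 2 ^ k0 := by positivity
      have h7 : B ≤ 8 * B := by linarith
      calc B * 2 ^ k0 ≤ (8 * B) * (8 * B) ^ m := mul_le_mul h7 h5 h6.le (by linarith)
        _ = (8 * B) ^ m * (8 * B) := mul_comm _ _
    have h8 : 0 < (8 * B) ^ n := by positivity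
    linarith
  have hspec : ∀ z ∈ HG S B n, Fit S B n (lev z) z ∧ k0 ≤ lev z := by
    intro z hz
    have h1 : (1:ℝ) / 2 ^ (lev z) ≤ B / nn (S.M n (rep z)) := Nat.find_spec (lev89 h n z)
    have h2 : ∀ m < lev z, ¬ ((1:ℝ) / 2 ^ m ≤ B / nn (S.M n (rep z))) := fun m hm =>
      Nat.find_min (lev89 h n z) hm
    have h3 := hbig z hz
    have hnn : 0 < nn (S.M n (rep z)) := by
      have := two_le_nn h n (rep z)
      linarith
    have h4 : k0 < lev z := by
      by_contra hcon
      rw [not_lt] at hcon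
      have h5 : (1:ℝ) / 2 ^ k0 ≤ 1 / 2 ^ (lev z) :=
        one_div_le_one_div_of_le (by positivity) (pow_le_pow_right₀ (by norm_num) hcon)
      have h6 : (1:ℝ) / 2 ^ k0 ≤ B / nn (S.M n (rep z)) := h5.trans h1
      rw [div_le_div_iff₀ (by positivity) hnn] at h6
      linarith
    refine ⟨⟨hz, ?_, h1, by omega⟩, h4.le⟩
    obtain ⟨m, hm⟩ : ∃ m, lev z = m + 1 := ⟨lev z - 1, by omega⟩
    have h7 := h2 m (by omega)
    rw [not_le] at h7
    rw [hm, pow_succ]
    have h8 : B / (2 * nn (S.M n (rep z))) = B / nn (S.M n (rep z)) / 2 := by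
      rw [mul_comm, div_div]
    have h9 : (1:ℝ) / (2 ^ m * 2) = 1 / 2 ^ m / 2 := by rw [div_div]
    rw [h8, h9]
    linarith
  refine ⟨n, 𝒬, by omega, ⟨hQc, hQd, ?_, ?_⟩, ?_⟩
  · intro Q hQQ
    obtain ⟨z, hz, hQz⟩ := hQ Q hQQ
    exact ⟨lev z, z, hQz, (hspec z hz.2).1⟩
  · intro Q hQQ
    obtain ⟨z, hz, hQz⟩ := hQ Q hQQ
    rw [hQz]
    exact hk0 (lev z) (hspec z hz.2).2 z hz.1
  · have m1 : volume.real (E0 ∩ HG S B n) ≤ volume.real (⋃₀ 𝒬) := measureReal_mono hQu
    have m2 : volume.real E ≤ volume.real E0 + ε / 4 := by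
      have h1 : volume.real E = volume.real (E ∩ E0) + volume.real (E \ E0) :=
        (measureReal_inter_add_sdiff hE0m).symm
      have h2 : volume.real (E \ E0) ≤ ε / 4 := by
        have := ENNReal.toReal_mono ENNReal.ofReal_ne_top hE0v
        rwa [ENNReal.toReal_ofReal (by linarith)] at this
      have h3 : volume.real (E ∩ E0) ≤ volume.real E0 := measureReal_mono Set.inter_subset_right
      linarith
    have m3 : volume.real E0 ≤ volume.real (E0 ∩ PN S c N) + ε / 4 := by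
      have h1 : volume.real E0 = volume.real (E0 ∩ PN S c N) + volume.real (E0 \ PN S c N) :=
        (measureReal_inter_add_sdiff (measurableSet_PN h c N)).symm
      have h2 : volume.real (E0 \ PN S c N) ≤ volume.real (E \ PN S c N) :=
        measureReal_mono (Set.sdiff_subset_sdiff_left hE0E)
      have h3 : volume.real (E \ PN S c N) ≤ ε / 4 := by
        have := ENNReal.toReal_mono ENNReal.ofReal_ne_top hN1.le
        rwa [ENNReal.toReal_ofReal (by linarith)] at this
      linarith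
    have m4 : θ * (volume.real E - ε / 2) ≤ θ * volume.real (E0 ∩ PN S c N) :=
      mul_le_mul_of_nonneg_left (by linarith) hθ0
    have m5 : θ * (ε / 2) ≤ 1 * (ε / 2) := mul_le_mul_of_nonneg_right hθ1 (by linarith)
    rw [mul_sub] at m4
    linarith

theorem family_fwd (h : Half S B) {c : ℝ}
    (hc : Real.log (S.KK B) ≤ c) (hc2 : c ≤ Real.log S.L) {Ω : Set T2} (hΩ : MeasurableSet Ω)
    (hP : ∀ z ∈ Ω, ∀ᶠ N : ℕ in atTop, z ∈ PN S c N) {E : Set T2} (hE : MeasurableSet E)
    (hEΩ : E ⊆ Ω) {η ε : ℝ} (hη : 0 < η) (hε : 0 < ε) (n1 : ℕ) :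
    ∃ (n : ℕ) (𝒬 : Set (Set T2)), n1 ≤ n ∧ Fam S B n E η 𝒬 ∧
      (c - Real.log (S.KK B)) / (Real.log S.L - Real.log (S.KK B)) * volume.real E - ε ≤
        volume.real (⋃₀ 𝒬) := by
  refine family h hc hc2 hE ?_ hη hε n1
  refine tendsto_of_tendsto_of_tendsto_of_le_of_le tendsto_const_nhds (tendsto_diff_PN h hΩ hP)
    (fun N => zero_le) (fun N => ?_)
  exact measure_mono (Set.sdiff_subset_sdiff_left hEΩ)

theorem family_bwd (h : S.Ok B) {T : T2 → T2} (hT : IsT S T) {c : ℝ}
    (hc : Real.log (S.KK B) ≤ c) (hc2 : c ≤ Real.log S.L) {Ω : Set T2} (hΩ : MeasurableSet Ω)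
    (hinv : T ⁻¹' Ω = Ω) (hP : ∀ z ∈ Ω, ∀ᶠ N : ℕ in atTop, z ∈ PN S c N) {E : Set T2}
    (hE : MeasurableSet E) (hEΩ : E ⊆ Ω) {η ε : ℝ} (hη : 0 < η) (hε : 0 < ε) (n1 : ℕ) :
    ∃ (n : ℕ) (𝒬 : Set (Set T2)), n1 ≤ n ∧ Fam S.rev B n (Prod.swap ⁻¹' E) η 𝒬 ∧
      (c - Real.log (S.KK B)) / (Real.log S.L - Real.log (S.KK B)) * volume.real E - ε ≤
        volume.real (⋃₀ 𝒬) := by
  have hsw : MeasurePreserving (Prod.swap : T2 → T2) volume volume :=
    Measure.measurePreserving_swap
  have hEm : MeasurableSet (Prod.swap ⁻¹' E) := measurable_swap hE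
  have hvol : volume.real (Prod.swap ⁻¹' E) = volume.real E := by
    rw [measureReal_def, measureReal_def, hsw.measure_preimage hE.nullMeasurableSet]
  have hit : ∀ N : ℕ, T^[N] ⁻¹' Ω = Ω := by
    intro N
    induction N with
    | zero => rfl
    | succ N ih => rw [Function.iterate_succ', Set.preimage_comp, hinv, ih]
  have key : Tendsto (fun N => volume ((Prod.swap ⁻¹' E) \ PN S.rev c N)) atTop (nhds 0) := by
    refine tendsto_of_tendsto_of_tendsto_of_le_of_le tendsto_const_nhds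
      (tendsto_diff_PN h.fwd hΩ hP) (fun N => zero_le) (fun N => ?_)
    have hΘ : MeasurePreserving (fun z : T2 => Prod.swap (T^[N] z)) volume volume :=
      hsw.comp (hT.mp.iterate N)
    have h1 : volume ((fun z : T2 => Prod.swap (T^[N] z)) ⁻¹'
        ((Prod.swap ⁻¹' E) \ PN S.rev c N)) = volume ((Prod.swap ⁻¹' E) \ PN S.rev c N) :=
      hΘ.measure_preimage (hEm.diff (measurableSet_PN h.bwd c N)).nullMeasurableSet
    show volume ((Prod.swap ⁻¹' E) \ PN S.rev c N) ≤ volume (Ω \ PN S c N)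
    rw [← h1]
    refine measure_mono ?_
    intro z hz
    refine ⟨?_, ?_⟩
    · rw [← hit N]
      exact hEΩ hz.1
    · intro h2
      apply hz.2
      show Real.exp (c * N) ≤ nn (S.rev.M N (rep (Prod.swap (T^[N] z))))
      rw [nn_rep_rev h hT]
      exact h2
  have := family (S := S.rev) h.bwd hc hc2 hEm key hη hε n1
  rwa [hvol] at this

end Pool.Agent.Helper11.FE
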