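import Pool.Agent.Helper11.FE.MeasLow
import Pool.Agent.Helper11.FE.MeasUp
import Pool.Agent.Helper18.UC.Cell

/-! Block FE-TORUS: the torus map, and the two crossing estimates for cells. Port of `UC/Torus.lean` (`S_mp`, `S_rev` are not needed: measure preservation is a
field of `IsT`). Cells: `UC/Cell.lean` (`cell_sub`, `vol_rep`, `vol_cell`, `mem_cell_iff`, `rep_toT`, ...). -/

set_option autoImplicit false
open MeasureTheory Real Set

namespace Pool.Agent.Helper11.FE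

open Pool.Agent.Helper18.UC (T2 rep toT nn clm sh sqo pt lab cor idx cell corner nn_nonneg nn_mul
  nn_sub_le nn_add_le abs_entry_le nn_one clm_apply norm_clm_le nn_le_clm)

variable {S : Sys} {B : ℝ}

theorem T_iter {T : T2 → T2} (hT : IsT S T) (n : ℕ) (q : ℝ × ℝ) : T^[n] (toT q) = toT (S.F^[n] q) := by
  induction n with
  | zero => rfl
  | succ n ih =>
    rw [Function.iterate_succ_apply', ih, Function.iterate_succ_apply']
    exact hT.lift _

private theorem T_rep97 {T : T2 → T2} (hT : IsT S T) (n : ℕ) (z : T2) :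
    T^[n] z = toT (S.F^[n] (rep z)) := by
  rw [← T_iter hT, Pool.Agent.Helper18.UC.toT_rep]

theorem M_rep (h : Half S B) {T : T2 → T2} (hT : IsT S T) (n m : ℕ) (z : T2) :
    S.M n (rep (T^[m] z)) = S.M n (S.F^[m] (rep z)) := by
  obtain ⟨u, w, hu⟩ := Pool.Agent.Helper18.UC.rep_toT (S.F^[m] (rep z))
  rw [T_rep97 hT m z, hu, M_sh h]

theorem nn_rep (h : Half S B) {T : T2 → T2} (hT : IsT S T) (n m : ℕ) (z : T2) :
    nn (S.M n (rep (T^[m] z))) = nn (S.M n (S.F^[m] (rep z))) := by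
  rw [M_rep h hT]

private theorem swap_T97 {T : T2 → T2} (hT : IsT S T) (n : ℕ) (z : T2) :
    Prod.swap (T^[n] z) = toT (Prod.swap (S.F^[n] (rep z))) := by
  rw [T_rep97 hT n z]
  rfl

theorem nn_rep_rev (h : S.Ok B) {T : T2 → T2} (hT : IsT S T) (n : ℕ) (z : T2) :
    nn (S.rev.M n (rep (Prod.swap (T^[n] z)))) = nn (S.M n (rep z)) := by
  obtain ⟨u, w, hu⟩ := Pool.Agent.Helper18.UC.rep_toT (Prod.swap (S.F^[n] (rep z)))
  rw [swap_T97 hT, hu, M_sh h.bwd, nn_rev h]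

/-- A point of the plane has at most one integer translate in the unit square. -/
private theorem sh_unique97 {p : ℝ × ℝ} {u v u' v' : ℤ} (h : sh p u v ∈ Ico (0:ℝ) 1 ×ˢ Ico (0:ℝ) 1)
    (h' : sh p u' v' ∈ Ico (0:ℝ) 1 ×ˢ Ico (0:ℝ) 1) : sh p u v = sh p u' v' := by
  have key : ∀ (x : ℝ) (i j : ℤ), x + i ∈ Ico (0:ℝ) 1 → x + j ∈ Ico (0:ℝ) 1 → i = j := by
    intro x i j hi hj
    have h1 : (i : ℝ) < j + 1 := by linarith [hi.2, hj.1]
    have h2 : (j : ℝ) < i + 1 := by linarith [hi.1, hj.2]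
    have h3 : i < j + 1 := by exact_mod_cast h1
    have h4 : j < i + 1 := by exact_mod_cast h2
    omega
  have e1 := key _ _ _ h.1 h'.1
  have e2 := key _ _ _ h.2 h'.2
  rw [e1, e2]

private theorem cell_hit97 {T : T2 → T2} (hT : IsT S T) (N κ κ' : ℕ) (z z' : T2) :
    cell κ z ∩ {w | Prod.swap (T^[N] w) ∈ cell κ' z'} =
      rep ⁻¹' Hit S N (corner κ z) (1 / 2 ^ κ) (corner κ' z') (1 / 2 ^ κ') := by
  ext w
  obtain ⟨u, v, huv⟩ := Pool.Agent.Helper18.UC.rep_toT (Prod.swap (S.F^[N] (rep w)))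
  rw [mem_inter_iff, Pool.Agent.Helper18.UC.mem_cell_iff, mem_ofPred_eq, Pool.Agent.Helper18.UC.mem_cell_iff,
    swap_T97 hT, huv, mem_preimage]
  constructor
  · rintro ⟨h2, h3⟩
    exact ⟨h2, u, v, h3⟩
  · rintro ⟨h2, u', v', h3⟩
    refine ⟨h2, ?_⟩
    have h4 := Pool.Agent.Helper18.UC.rep_mem (toT (Prod.swap (S.F^[N] (rep w))))
    rw [huv] at h4
    rw [sh_unique97 h4 (Pool.Agent.Helper18.UC.cell_sub κ' z' h3)]
    exact h3

private theorem vol_cell_hit97 (h : Half S B) {T : T2 → T2} (hT : IsT S T) (N κ κ' : ℕ) (z z' : T2) :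
    volume (cell κ z ∩ {w | Prod.swap (T^[N] w) ∈ cell κ' z'}) =
      volume (Hit S N (corner κ z) (1 / 2 ^ κ) (corner κ' z') (1 / 2 ^ κ')) := by
  rw [cell_hit97 hT, Pool.Agent.Helper18.UC.vol_rep (measurableSet_hit h _ _ _ _ _)]
  congr 1
  refine inter_eq_left.2 fun q hq => Pool.Agent.Helper18.UC.cell_sub κ z hq.1

private theorem inv_pow_lt_one97 {κ : ℕ} (h : 1 ≤ κ) : (1 : ℝ) / 2 ^ κ < 1 := by
  rw [div_lt_one (by positivity)]
  exact one_lt_pow₀ (by norm_num) (by omega)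

theorem cell_low (h : S.Ok B) {T : T2 → T2} (hT : IsT S T) {n n' κ κ' : ℕ}
    (hn : 1 ≤ n) (hn' : 1 ≤ n') {z z' : T2} (hz : Fit S B n κ z) (hz' : Fit S.rev B n' κ' z')
    {j : ℕ} (hj : j ≤ 1) :
    ENNReal.ofReal (1 / (2 * B ^ 2 * S.L ^ j)) * (volume (cell κ z) * volume (cell κ' z')) ≤
      volume (cell κ z ∩ {w | Prod.swap (T^[n + j + n'] w) ∈ cell κ' z'}) := by
  obtain ⟨hp, h1, h2, h3⟩ := hz
  obtain ⟨hp', h1', h2', h3'⟩ := hz'
  obtain ⟨k, m, hG⟩ := exists_good h.fwd hn hp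
  obtain ⟨k', m', hG'⟩ := exists_good h.bwd hn' hp'
  have h4 := hit_low h hp hp' hG hG' (c := corner κ z) (c' := corner κ' z') h1 h2
    ((Pool.Agent.Helper18.UC.mem_cell_iff κ z z).1 (Pool.Agent.Helper18.UC.mem_cell_self κ z)) h1' h2'
    ((Pool.Agent.Helper18.UC.mem_cell_iff κ' z' z').1 (Pool.Agent.Helper18.UC.mem_cell_self κ' z'))
    (inv_pow_lt_one97 h3') hj
  rw [vol_cell_hit97 h.fwd hT, Pool.Agent.Helper18.UC.vol_cell, Pool.Agent.Helper18.UC.vol_cell]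
  refine le_trans (le_of_eq ?_) h4
  have hL := L_pos h.fwd
  rw [← ENNReal.ofReal_mul (by positivity), ← ENNReal.ofReal_mul (by positivity)]
  congr 1
  ring

theorem cell_up (h : S.Ok B) {T : T2 → T2} (hT : IsT S T) {n n' κ κ' : ℕ}
    (hn : 1 ≤ n) (hn' : 1 ≤ n') {z z' : T2} (hz : Fit S B n κ z) (hz' : Fit S.rev B n' κ' z') :
    volume (cell κ z ∩ {w | Prod.swap (T^[n + n'] w) ∈ cell κ' z'}) ≤
      ENNReal.ofReal (1 + 100 / B) * (volume (cell κ z) * volume (cell κ' z')) := by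
  obtain ⟨hp, h1, h2, h3⟩ := hz
  obtain ⟨hp', h1', h2', h3'⟩ := hz'
  obtain ⟨k, m, hG⟩ := exists_good h.fwd hn hp
  obtain ⟨k', m', hG'⟩ := exists_good h.bwd hn' hp'
  have h4 := hit_up h hp hp' hG hG' (c := corner κ z) (c' := corner κ' z') h1 h2
    ((Pool.Agent.Helper18.UC.mem_cell_iff κ z z).1 (Pool.Agent.Helper18.UC.mem_cell_self κ z)) h1' h2'
    ((Pool.Agent.Helper18.UC.mem_cell_iff κ' z' z').1 (Pool.Agent.Helper18.UC.mem_cell_self κ' z'))
    (inv_pow_lt_one97 h3')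
  rw [vol_cell_hit97 h.fwd hT, Pool.Agent.Helper18.UC.vol_cell, Pool.Agent.Helper18.UC.vol_cell]
  refine h4.trans (le_of_eq ?_)
  have hB0 : 0 < B := by linarith [h.fwd.hB]
  rw [← ENNReal.ofReal_mul (by positivity), ← ENNReal.ofReal_mul (by positivity)]

end Pool.Agent.Helper11.FE
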